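import Mathlib
import Pool.Agent.Helper44.ExplicitSection

/-!
Definitions for the negative half of `MP_3da457_ag`:
`tw` (additive maps `(x, y) ↦ (u ^ 2 σ x, u ^ 3 σ y)` between Mordell curves),
ring homomorphisms of rational function fields (`rmap`, `scl`, `cf`).
-/

namespace Pool.Agent.Helper23.K6

open Polynomial Pool.Agent.Helper44

section Twist

variable {K L : Type*} [Field K] [Field L]

lemma tw_ns (σ : K →+* L) (u : L) (hu : u ≠ 0) {B : K} {B' : L} (h : u ^ 6 * σ B = B') {x y : K}
    (hxy : (mordell B).toAffine.Nonsingular x y) :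
    (mordell B').toAffine.Nonsingular (u ^ 2 * σ x) (u ^ 3 * σ y) := by
  rw [WeierstrassCurve.Affine.nonsingular_iff] at hxy ⊢
  obtain ⟨h1, h2⟩ := hxy
  rw [mordell_equation] at h1 ⊢
  refine ⟨?_, ?_⟩
  · rw [← h]
    have := congrArg σ h1
    simp only [map_add, map_pow] at this
    linear_combination u ^ 6 * this
  · simp only [mordell] at h2 ⊢
    rcases h2 with h2 | h2
    · left
      intro h3
      apply h2
      have h4 : u ^ 4 * σ (3 * x ^ 2) = 0 := by
        simp only [map_mul, map_pow, map_ofNat]
        linear_combination -h3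
      have h5 : (3 : K) * x ^ 2 = 0 := by
        rcases mul_eq_zero.1 h4 with h | h
        · exact absurd h (pow_ne_zero _ hu)
        · exact (map_eq_zero σ).1 h
      linear_combination -h5
    · right
      intro h3
      apply h2
      have h4 : u ^ 3 * σ (2 * y) = 0 := by
        simp only [map_mul, map_ofNat]
        linear_combination h3
      have h5 : (2 : K) * y = 0 := by
        rcases mul_eq_zero.1 h4 with h | h
        · exact absurd h (pow_ne_zero _ hu)
        · exact (map_eq_zero σ).1 h
      linear_combination h5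

/-- The underlying function of `tw`. -/
noncomputable def twFun (σ : K →+* L) (u : L) (hu : u ≠ 0) {B : K} {B' : L}
    (h : u ^ 6 * σ B = B') :
    (mordell B).toAffine.Point → (mordell B').toAffine.Point
  | .zero => .zero
  | .some x y hns => .some (u ^ 2 * σ x) (u ^ 3 * σ y) (tw_ns σ u hu h hns)

variable [DecidableEq K] [DecidableEq L]

lemma twFun_add (σ : K →+* L) (u : L) (hu : u ≠ 0) {B : K} {B' : L}
    (h : u ^ 6 * σ B = B') (P Q : (mordell B).toAffine.Point) :
    twFun σ u hu h (P + Q) = twFun σ u hu h P + twFun σ u hu h Q := by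
  cases P with
  | zero => exact (zero_add Q).symm ▸ (zero_add (twFun σ u hu h Q)).symm
  | some x₁ y₁ h₁ =>
    cases Q with
    | zero => exact (add_zero (WeierstrassCurve.Affine.Point.some x₁ y₁ h₁)).symm ▸
        (add_zero (twFun σ u hu h (.some x₁ y₁ h₁))).symm
    | some x₂ y₂ h₂ =>
      have e₁ := (mordell_equation _ _ _).1 h₁.1
      have e₂ := (mordell_equation _ _ _).1 h₂.1
      have hneg : ∀ x y : K, (mordell B).toAffine.negY x y = -y := by
        intro x y; simp [WeierstrassCurve.Affine.negY, mordell]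
      have hneg' : ∀ x y : L, (mordell B').toAffine.negY x y = -y := by
        intro x y; simp [WeierstrassCurve.Affine.negY, mordell]
      by_cases hx : x₁ = x₂
      · by_cases hy : y₁ = -y₂
        · rw [WeierstrassCurve.Affine.Point.add_of_Y_eq hx (by rw [hneg]; exact hy)]
          symm
          simp only [twFun]
          rw [WeierstrassCurve.Affine.Point.add_of_Y_eq]
          · rfl
          · rw [hx]
          · rw [hneg', hy, map_neg]; ring
        · -- doubling
          have hyy : y₁ = y₂ := by
            have : (y₁ - y₂) * (y₁ + y₂) = 0 := by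
              rw [hx] at e₁
              linear_combination e₁ - e₂
            rcases mul_eq_zero.1 this with h' | h'
            · exact sub_eq_zero.1 h'
            · exact absurd (eq_neg_of_add_eq_zero_left h') hy
          subst hx
          subst hyy
          have hne : y₁ ≠ (mordell B).toAffine.negY x₁ y₁ := by rw [hneg]; exact hy
          have hne' : u ^ 3 * σ y₁ ≠ (mordell B').toAffine.negY (u ^ 2 * σ x₁) (u ^ 3 * σ y₁) := by
            rw [hneg']
            intro h'
            apply hy
            have h4 : u ^ 3 * σ (y₁ + y₁) = 0 := by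
              rw [map_add]
              linear_combination h'
            rcases mul_eq_zero.1 h4 with h | h
            · exact absurd h (pow_ne_zero _ hu)
            · exact eq_neg_of_add_eq_zero_left ((map_eq_zero σ).1 h)
          have h2y : (y₁ - -y₁) ≠ 0 := by
            intro h'
            apply hy
            linear_combination h'
          have h2y' : σ y₁ - -σ y₁ ≠ 0 := by
            rw [← map_neg, ← map_sub]
            exact (map_ne_zero σ).2 h2y
          have h2y'' : u ^ 3 * σ y₁ - -(u ^ 3 * σ y₁) ≠ 0 := by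
            have : u ^ 3 * σ y₁ - -(u ^ 3 * σ y₁) = u ^ 3 * (σ y₁ - -σ y₁) := by ring
            rw [this]
            exact mul_ne_zero (pow_ne_zero _ hu) h2y'
          have hsl : (mordell B').toAffine.slope (u ^ 2 * σ x₁) (u ^ 2 * σ x₁) (u ^ 3 * σ y₁)
              (u ^ 3 * σ y₁) = u * σ ((mordell B).toAffine.slope x₁ x₁ y₁ y₁) := by
            rw [WeierstrassCurve.Affine.slope_of_Y_ne rfl hne,
              WeierstrassCurve.Affine.slope_of_Y_ne rfl hne', hneg, hneg']
            simp only [mordell, map_div₀, map_sub, map_add, map_mul, map_pow, map_neg, map_ofNat,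
              map_zero]
            rw [div_eq_iff h2y'']
            have : u * ((3 * σ x₁ ^ 2 + 2 * 0 * σ x₁ + 0 - 0 * σ y₁) / (σ y₁ - -σ y₁)) *
                (u ^ 3 * σ y₁ - -(u ^ 3 * σ y₁)) =
                u ^ 4 * ((3 * σ x₁ ^ 2 + 2 * 0 * σ x₁ + 0 - 0 * σ y₁) / (σ y₁ - -σ y₁) *
                (σ y₁ - -σ y₁)) := by ring
            rw [this, div_mul_cancel₀ _ h2y']
            ring
          rw [WeierstrassCurve.Affine.Point.add_self_of_Y_ne hne]
          simp only [twFun]
          rw [WeierstrassCurve.Affine.Point.add_self_of_Y_ne hne']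
          simp only [WeierstrassCurve.Affine.Point.some.injEq]
          rw [hsl]
          simp only [WeierstrassCurve.Affine.addX, WeierstrassCurve.Affine.addY,
            WeierstrassCurve.Affine.negAddY, WeierstrassCurve.Affine.negY, mordell]
          simp only [map_add, map_sub, map_mul, map_pow, map_neg, map_zero]
          constructor <;> ring
      · have hx' : u ^ 2 * σ x₁ ≠ u ^ 2 * σ x₂ := by
          intro h'
          exact hx (σ.injective (mul_left_cancel₀ (pow_ne_zero _ hu) h'))
        have hd : σ x₁ - σ x₂ ≠ 0 := by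
          rw [← map_sub]
          exact (map_ne_zero σ).2 (sub_ne_zero.2 hx)
        have hd' : u ^ 2 * σ x₁ - u ^ 2 * σ x₂ ≠ 0 := sub_ne_zero.2 hx'
        have hsl : (mordell B').toAffine.slope (u ^ 2 * σ x₁) (u ^ 2 * σ x₂) (u ^ 3 * σ y₁)
            (u ^ 3 * σ y₂) = u * σ ((mordell B).toAffine.slope x₁ x₂ y₁ y₂) := by
          rw [WeierstrassCurve.Affine.slope_of_X_ne hx,
            WeierstrassCurve.Affine.slope_of_X_ne hx']
          rw [map_div₀, map_sub, map_sub, div_eq_iff hd']
          have : u * ((σ y₁ - σ y₂) / (σ x₁ - σ x₂)) * (u ^ 2 * σ x₁ - u ^ 2 * σ x₂) =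
            u ^ 3 * ((σ y₁ - σ y₂) / (σ x₁ - σ x₂) * (σ x₁ - σ x₂)) := by ring
          rw [this, div_mul_cancel₀ _ hd]
          ring
        rw [WeierstrassCurve.Affine.Point.add_of_X_ne hx]
        simp only [twFun]
        rw [WeierstrassCurve.Affine.Point.add_of_X_ne hx']
        simp only [WeierstrassCurve.Affine.Point.some.injEq]
        rw [hsl]
        simp only [WeierstrassCurve.Affine.addX, WeierstrassCurve.Affine.addY,
          WeierstrassCurve.Affine.negAddY, WeierstrassCurve.Affine.negY, mordell]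
        simp only [map_add, map_sub, map_mul, map_pow, map_neg, map_zero]
        constructor <;> ring

/-- The additive map `(x, y) ↦ (u ^ 2 σ x, u ^ 3 σ y)` from `y ^ 2 = x ^ 3 + B` to
`y ^ 2 = x ^ 3 + B'`, where `B' = u ^ 6 σ B`. -/
noncomputable def tw (σ : K →+* L) (u : L) (hu : u ≠ 0) {B : K} {B' : L}
    (h : u ^ 6 * σ B = B') : (mordell B).toAffine.Point →+ (mordell B').toAffine.Point where
  toFun := twFun σ u hu h
  map_zero' := rfl
  map_add' := twFun_add σ u hu h

lemma tw_zero (σ : K →+* L) (u : L) (hu : u ≠ 0) {B : K} {B' : L}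
    (h : u ^ 6 * σ B = B') : tw σ u hu h .zero = .zero := rfl

lemma tw_some (σ : K →+* L) (u : L) (hu : u ≠ 0) {B : K} {B' : L}
    (h : u ^ 6 * σ B = B') (x y : K) (hns : (mordell B).toAffine.Nonsingular x y) :
    tw σ u hu h (.some x y hns) = .some (u ^ 2 * σ x) (u ^ 3 * σ y) (tw_ns σ u hu h hns) := rfl

lemma tw_injective (σ : K →+* L) (u : L) (hu : u ≠ 0) {B : K} {B' : L}
    (h : u ^ 6 * σ B = B') : Function.Injective (tw σ u hu h) := by
  rw [injective_iff_map_eq_zero]
  intro P hP
  cases P with
  | zero => rfl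
  | some x y hns =>
    rw [tw_some] at hP
    exact absurd hP (WeierstrassCurve.Affine.Point.some_ne_zero _)

end Twist

section RatFuncMaps

variable {k k' : Type*} [Field k] [Field k']

/-- The map of rational function fields induced by an injective ring homomorphism of polynomial
rings. -/
noncomputable def rmap (φ : k[X] →+* k'[X]) (hφ : Function.Injective φ) :
    RatFunc k →+* RatFunc k' :=
  IsFractionRing.map (K := RatFunc k) (L := RatFunc k') hφ

lemma rmap_algebraMap (φ : k[X] →+* k'[X]) (hφ : Function.Injective φ) (f : k[X]) :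
    rmap φ hφ (algebraMap k[X] (RatFunc k) f) = algebraMap k'[X] (RatFunc k') (φ f) := by
  simp [rmap, IsFractionRing.map]

lemma comp_scale_injective (ζ : k) (hζ : ζ ≠ 0) :
    Function.Injective (compRingHom (C ζ * X : k[X])) := by
  intro f g h
  have h' := congrArg (fun p => p.comp (C ζ⁻¹ * X)) h
  simp only [coe_compRingHom, Polynomial.comp_assoc] at h'
  have e : (C ζ * X : k[X]).comp (C ζ⁻¹ * X) = X := by
    simp only [mul_comp, C_comp, X_comp]
    rw [← mul_assoc, ← map_mul, mul_inv_cancel₀ hζ, map_one, one_mul]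
  rw [e] at h'
  simpa using h'

/-- The substitution `t ↦ ζ t`. -/
noncomputable def scl (ζ : k) (hζ : ζ ≠ 0) : RatFunc k →+* RatFunc k :=
  rmap (compRingHom (C ζ * X : k[X])) (comp_scale_injective ζ hζ)

lemma scl_algebraMap (ζ : k) (hζ : ζ ≠ 0) (f : k[X]) :
    scl ζ hζ (algebraMap k[X] (RatFunc k) f) =
      algebraMap k[X] (RatFunc k) (f.comp (C ζ * X)) :=
  rmap_algebraMap _ _ _

/-- The map on rational functions induced by a homomorphism of the coefficient fields. -/
noncomputable def cf (φ : k →+* k') : RatFunc k →+* RatFunc k' :=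
  rmap (mapRingHom φ) (Polynomial.map_injective φ φ.injective)

lemma cf_algebraMap (φ : k →+* k') (f : k[X]) :
    cf φ (algebraMap k[X] (RatFunc k) f) = algebraMap k'[X] (RatFunc k') (f.map φ) :=
  rmap_algebraMap _ _ _

/-- The polynomial `α (X ^ m - γ)`. -/
noncomputable def Dp (α γ : k) (m : ℕ) : k[X] := C α * (X ^ m - C γ)

/-- The rational function `α (t ^ m - γ)`. -/
noncomputable def DD (α γ : k) (m : ℕ) : RatFunc k := algebraMap k[X] (RatFunc k) (Dp α γ m)

/-- The group of points of `y ^ 2 = x ^ 3 + D ^ 2`. -/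
abbrev Pt (D : RatFunc k) := (mordell (D ^ 2)).toAffine.Point

end RatFuncMaps

/-- Derivations of a field (over `ℤ`). -/
abbrev DerZ (K : Type*) [Field K] := Derivation ℤ K K

section

variable {K : Type*} [Field K]

/-- The additive map `P ↦ (x' - (2/3) (D'/D) x) / y`. -/
noncomputable def gg (d : DerZ K) (D : K) : (mordell (D ^ 2)).toAffine.Point → K
  | .zero => 0
  | .some x y _ => (d x - 2 / 3 * (d D / D) * x) / y

end

section KER

variable {k : Type*} [Field k] (p : ℕ) [hp : Fact p.Prime] [CharP k p]

lemma charP_ratFunc : CharP (RatFunc k) p :=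
  charP_of_injective_algebraMap (algebraMap k (RatFunc k)).injective p

lemma piE_aux (D : RatFunc k) (hD : D ≠ 0) (hp3 : p % 3 = 1) :
    haveI := charP_ratFunc (k := k) p
    ((D ^ ((p - 1) / 3))⁻¹) ^ 6 * frobenius (RatFunc k) p (D ^ 2) = D ^ 2 := by
  haveI := charP_ratFunc (k := k) p
  rw [frobenius_def, inv_pow, ← pow_mul, ← pow_mul]
  have e : 2 * p = (p - 1) / 3 * 6 + 2 := by
    have := hp.out.one_lt
    omega
  rw [e, pow_add, ← mul_assoc, inv_mul_cancel₀ (pow_ne_zero _ hD), one_mul]

variable [DecidableEq (RatFunc k)]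

/-- The Frobenius endomorphism `(x, y) ↦ (x ^ p / D ^ (2 (p - 1) / 3), y ^ p / D ^ (p - 1))`. -/
noncomputable def piE (D : RatFunc k) (hD : D ≠ 0) (hp3 : p % 3 = 1) : Pt D →+ Pt D :=
  haveI := charP_ratFunc (k := k) p
  tw (frobenius (RatFunc k) p) ((D ^ ((p - 1) / 3))⁻¹) (inv_ne_zero (pow_ne_zero _ hD))
    (piE_aux p D hD hp3)

lemma piE_injective (D : RatFunc k) (hD : D ≠ 0) (hp3 : p % 3 = 1) :
    Function.Injective (piE p D hD hp3) := tw_injective _ _ _ _

lemma piE_some (D : RatFunc k) (hD : D ≠ 0) (hp3 : p % 3 = 1) (x y : RatFunc k)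
    (hns : (mordell (D ^ 2)).toAffine.Nonsingular x y) :
    ∃ hns', piE p D hD hp3 (.some x y hns) =
      .some (x ^ p / D ^ (2 * ((p - 1) / 3))) (y ^ p / D ^ (p - 1)) hns' := by
  haveI := charP_ratFunc (k := k) p
  have e1 : ((D ^ ((p - 1) / 3))⁻¹) ^ 2 * frobenius (RatFunc k) p x =
      x ^ p / D ^ (2 * ((p - 1) / 3)) := by
    rw [frobenius_def, inv_pow, ← pow_mul, mul_comm ((p - 1) / 3) 2, div_eq_mul_inv, mul_comm]
  have e2 : ((D ^ ((p - 1) / 3))⁻¹) ^ 3 * frobenius (RatFunc k) p y = y ^ p / D ^ (p - 1) := by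
    rw [frobenius_def, inv_pow, ← pow_mul, div_eq_mul_inv, mul_comm]
    congr 3
    omega
  have h := tw_some (frobenius (RatFunc k) p) ((D ^ ((p - 1) / 3))⁻¹)
    (inv_ne_zero (pow_ne_zero _ hD)) (piE_aux p D hD hp3) x y hns
  simp only [e1, e2] at h
  exact ⟨_, h⟩

lemma piE_zero (D : RatFunc k) (hD : D ≠ 0) (hp3 : p % 3 = 1) :
    piE p D hD hp3 .zero = .zero := rfl

end KER

end Pool.Agent.Helper23.K6
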