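import Mathlib
import Pool.Agent.Helper23.K6.Defs

/-! # Module ARITH1 -/

namespace Pool.Agent.Helper23.K6

open Polynomial Pool.Agent.Helper44

section ARITH

variable {F k : Type*} [Field F] [Fintype F] [Field k] [IsAlgClosed k] [Algebra F k]

omit [IsAlgClosed k] in
lemma mem_of_pow_card (x : k) (h : x ^ Fintype.card F = x) : ∃ a : F, algebraMap F k a = x := by
  classical
  by_contra hcon
  push Not at hcon
  have hq : 1 < Fintype.card F := Fintype.one_lt_card
  let S : Finset k := Finset.univ.image (algebraMap F k)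
  have hS : S.card = Fintype.card F := by
    rw [Finset.card_image_of_injective _ (algebraMap F k).injective, Finset.card_univ]
  have hxS : x ∉ S := by
    intro hx
    obtain ⟨a, -, ha⟩ := Finset.mem_image.1 hx
    exact hcon a ha
  have hne : (X ^ Fintype.card F - X : k[X]) ≠ 0 := FiniteField.X_pow_card_sub_X_ne_zero k hq
  have hsub : (insert x S).val ⊆ (X ^ Fintype.card F - X : k[X]).roots := by
    intro y hy
    rw [mem_roots hne, IsRoot.def, eval_sub, eval_pow, eval_X]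
    have hy' : y ∈ insert x S := hy
    rcases Finset.mem_insert.1 hy' with rfl | hy'
    · rw [h, sub_self]
    · obtain ⟨a, -, rfl⟩ := Finset.mem_image.1 hy'
      rw [← map_pow, FiniteField.pow_card, sub_self]
  have h1 := card_roots' (X ^ Fintype.card F - X : k[X])
  rw [FiniteField.X_pow_card_sub_X_natDegree_eq k hq] at h1
  have h2 : (insert x S).card ≤ Multiset.card (X ^ Fintype.card F - X : k[X]).roots :=
    Multiset.card_le_card ((Multiset.le_iff_subset (insert x S).nodup).2 hsub)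
  rw [Finset.card_insert_of_notMem hxS, hS] at h2
  omega

omit [Fintype F] [IsAlgClosed k] in
lemma ofNat_ne {n : ℕ} [n.AtLeastTwo] (h : (OfNat.ofNat n : F) ≠ 0) :
    (OfNat.ofNat n : k) ≠ 0 := by
  have h1 : algebraMap F k (OfNat.ofNat n) ≠ 0 := (_root_.map_ne_zero _).2 h
  rwa [map_ofNat] at h1

theorem arith2 (h2 : (2 : F) ≠ 0) (h3 : (3 : F) ≠ 0) (hq : Fintype.card F % 3 = 1)
    {α γ : F} (hα : α ≠ 0) (hγ : ¬ IsSquare γ) :
    ∃ β δ : k, 3 * β ^ 2 * δ = algebraMap F k α ∧ δ ^ 2 = -3 * β ^ 2 * algebraMap F k γ ∧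
      (2 / 3 * (algebraMap F k α / β)) ^ Fintype.card F ≠ 2 / 3 * (algebraMap F k α / β) := by
  classical
  have hinj := (algebraMap F k).injective
  have h2k : (2 : k) ≠ 0 := ofNat_ne (F := F) h2
  have h3k : (3 : k) ≠ 0 := ofNat_ne (F := F) h3
  have hγ0 : γ ≠ 0 := by
    rintro rfl
    exact hγ ⟨0, by simp⟩
  have hαk : algebraMap F k α ≠ 0 := (_root_.map_ne_zero _).2 hα
  have hγk : algebraMap F k γ ≠ 0 := (_root_.map_ne_zero _).2 hγ0
  obtain ⟨δ, hδ⟩ := IsAlgClosed.exists_pow_nat_eq (-(algebraMap F k α * algebraMap F k γ))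
    (n := 3) (by norm_num)
  have hδ0 : δ ≠ 0 := by
    rintro rfl
    rw [zero_pow (by norm_num)] at hδ
    exact (neg_ne_zero.2 (mul_ne_zero hαk hγk)) hδ.symm
  obtain ⟨β, hβ⟩ := IsAlgClosed.exists_pow_nat_eq (algebraMap F k α / (3 * δ))
    (n := 2) (by norm_num)
  have hβ' : 3 * β ^ 2 * δ = algebraMap F k α := by
    rw [hβ]
    field_simp
  have hβ0 : β ≠ 0 := by
    rintro rfl
    apply hαk
    rw [← hβ']
    ring
  refine ⟨β, δ, hβ', ?_, ?_⟩
  · apply mul_left_cancel₀ hδ0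
    have : δ ^ 3 = -(3 * β ^ 2 * δ * algebraMap F k γ) := by rw [hδ, hβ']
    linear_combination this
  · intro hfix
    obtain ⟨f, hf⟩ := mem_of_pow_card (F := F) _ hfix
    -- a cube root of unity
    obtain ⟨θ, hθ⟩ : ∃ θ : F, θ ^ 2 = -3 := by
      have hcard : Fintype.card Fˣ = Fintype.card F - 1 := Fintype.card_units F
      have hdvd : 3 ∣ Fintype.card Fˣ := by
        rw [hcard]
        omega
      obtain ⟨u, hu⟩ := exists_prime_orderOf_dvd_card 3 hdvd
      have hu3 : ((u : F)) ^ 3 = 1 := by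
        have h1 : u ^ 3 = 1 := by rw [← hu, pow_orderOf_eq_one]
        have h2 := congrArg Units.val h1
        rwa [Units.val_pow_eq_pow_val, Units.val_one] at h2
      have hu1 : (u : F) ≠ 1 := by
        intro h
        have : u = 1 := Units.ext h
        rw [this, orderOf_one] at hu
        omega
      have hω : (u : F) ^ 2 + u + 1 = 0 := by
        have : ((u : F) - 1) * ((u : F) ^ 2 + u + 1) = 0 := by
          linear_combination hu3
        rcases mul_eq_zero.1 this with h | h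
        · exact absurd (sub_eq_zero.1 h) hu1
        · exact h
      exact ⟨2 * u + 1, by linear_combination 4 * hω⟩
    have hfk : algebraMap F k f ≠ 0 := by
      rw [hf]
      exact mul_ne_zero (div_ne_zero h2k h3k) (div_ne_zero hαk hβ0)
    have hf0 : f ≠ 0 := fun h => hfk (by rw [h, map_zero])
    have hβF : algebraMap F k (2 * α / (3 * f)) = β := by
      simp only [map_div₀, map_mul, map_ofNat]
      rw [hf]
      field_simp
    obtain ⟨b, hb⟩ : ∃ b : F, b = 2 * α / (3 * f) := ⟨_, rfl⟩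
    rw [← hb] at hβF
    have hb0 : b ≠ 0 := by
      intro h
      apply hβ0
      rw [← hβF, h, map_zero]
    have hδF : algebraMap F k (α / (3 * b ^ 2)) = δ := by
      simp only [map_div₀, map_mul, map_ofNat, map_pow]
      rw [hβF, ← hβ']
      field_simp
    obtain ⟨d, hd⟩ : ∃ d : F, d = α / (3 * b ^ 2) := ⟨_, rfl⟩
    rw [← hd] at hδF
    have hrel : d ^ 2 = -3 * b ^ 2 * γ := by
      apply hinj
      simp only [map_mul, map_pow, map_neg, map_ofNat]
      rw [hδF, hβF]
      apply mul_left_cancel₀ hδ0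
      have : δ ^ 3 = -(3 * β ^ 2 * δ * algebraMap F k γ) := by rw [hδ, hβ']
      linear_combination this
    apply hγ
    refine ⟨θ * d / (3 * b), ?_⟩
    have h3b : 3 * b * (3 * b) ≠ 0 := mul_ne_zero (mul_ne_zero h3 hb0) (mul_ne_zero h3 hb0)
    rw [div_mul_div_comm, eq_div_iff h3b]
    linear_combination 3 * hrel - d ^ 2 * hθ

theorem arith3 (h2 : (2 : F) ≠ 0) {b c : F} (hb0 : b ≠ 0) (hb : ¬ ∃ z : F, z ^ 3 = b)
    (hc : ∃ z : F, z ^ 3 = c) (hc0 : c ≠ 0) :
    ∃ β : k, β ^ 3 = 4 * algebraMap F k (1 / (2 * b ^ 2)) ^ 2 * algebraMap F k c ∧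
      (-β) ^ Fintype.card F ≠ -β := by
  obtain ⟨β, hβ⟩ := IsAlgClosed.exists_pow_nat_eq
    (4 * algebraMap F k (1 / (2 * b ^ 2)) ^ 2 * algebraMap F k c) (n := 3) (by norm_num)
  refine ⟨β, hβ, fun hfix => ?_⟩
  obtain ⟨f, hf⟩ := mem_of_pow_card (F := F) _ hfix
  obtain ⟨z, hz⟩ := hc
  have hrel : (-f) ^ 3 = 4 * (1 / (2 * b ^ 2)) ^ 2 * c := by
    apply (algebraMap F k).injective
    simp only [map_pow, map_neg, map_mul, map_ofNat]
    rw [hf, neg_neg, hβ]
  have hf0 : f ≠ 0 := by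
    rintro rfl
    rw [neg_zero, zero_pow (by norm_num)] at hrel
    have h4 : (4 : F) ≠ 0 := by
      have : (4 : F) = 2 * 2 := by norm_num
      rw [this]
      exact mul_ne_zero h2 h2
    have : 4 * (1 / (2 * b ^ 2)) ^ 2 * c ≠ 0 :=
      mul_ne_zero (mul_ne_zero h4 (pow_ne_zero _ (one_div_ne_zero (mul_ne_zero h2
        (pow_ne_zero _ hb0))))) hc0
    exact this hrel.symm
  apply hb
  refine ⟨z / (-f * b), ?_⟩
  have hrel2 : (-f) ^ 3 * b ^ 4 = z ^ 3 := by
    rw [hrel, hz]
    field_simp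
    norm_num
  have hfb : (-f * b) ^ 3 ≠ 0 := pow_ne_zero _ (mul_ne_zero (neg_ne_zero.2 hf0) hb0)
  rw [div_pow, div_eq_iff hfb, ← hrel2]
  ring

theorem arith6 (h2 : (2 : F) ≠ 0) {α γ : F} (hα : α ≠ 0) (hγ : ¬ IsSquare γ) :
    ∃ a s : k, a ^ 3 = -algebraMap F k α ^ 2 ∧ s ^ 2 = algebraMap F k γ ∧
      (2 * a * s) ^ Fintype.card F ≠ 2 * a * s := by
  have hγ0 : γ ≠ 0 := by
    rintro rfl
    exact hγ ⟨0, by simp⟩
  obtain ⟨a, ha⟩ := IsAlgClosed.exists_pow_nat_eq (-algebraMap F k α ^ 2) (n := 3) (by norm_num)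
  obtain ⟨s, hs⟩ := IsAlgClosed.exists_pow_nat_eq (algebraMap F k γ) (n := 2) (by norm_num)
  refine ⟨a, s, ha, hs, fun hfix => ?_⟩
  obtain ⟨f, hf⟩ := mem_of_pow_card (F := F) _ hfix
  have h8 : (8 : F) ≠ 0 := by
    have : (8 : F) = 2 * 2 * 2 := by norm_num
    rw [this]
    exact mul_ne_zero (mul_ne_zero h2 h2) h2
  have hc : -8 * α ^ 2 * γ ≠ 0 :=
    mul_ne_zero (mul_ne_zero (neg_ne_zero.2 h8) (pow_ne_zero _ hα)) hγ0
  have hs' : algebraMap F k (f ^ 3 / (-8 * α ^ 2 * γ)) = s := by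
    have hck : algebraMap F k (-8 * α ^ 2 * γ) ≠ 0 := (_root_.map_ne_zero _).2 hc
    rw [map_div₀, div_eq_iff hck]
    simp only [map_pow, map_mul, map_neg, map_ofNat]
    rw [hf]
    linear_combination 8 * s ^ 3 * ha - 8 * s * algebraMap F k α ^ 2 * hs
  apply hγ
  refine ⟨f ^ 3 / (-8 * α ^ 2 * γ), ?_⟩
  apply (algebraMap F k).injective
  rw [map_mul, hs', ← hs]
  ring

/-- The Frobenius power as a ring homomorphism. -/
noncomputable def frob (F k : Type*) [Field F] [Fintype F] [Field k] [Algebra F k] : k →+* k :=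
  (FiniteField.frobeniusAlgHom F k : k →ₐ[F] k)

omit [IsAlgClosed k] in
lemma frob_apply (x : k) : frob F k x = x ^ Fintype.card F := rfl

omit [IsAlgClosed k] in
lemma frob_algebraMap (a : F) : frob F k (algebraMap F k a) = algebraMap F k a := by
  rw [frob_apply, ← map_pow, FiniteField.pow_card]

omit [IsAlgClosed k] in
lemma frob_frob (x : k) : frob F k (frob F k x) = x ^ (Fintype.card F ^ 2) := by
  rw [frob_apply, frob_apply, ← pow_mul, sq]

theorem arith12 (h2 : (2 : F) ≠ 0) {b c : F} (hb0 : b ≠ 0)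
    (hb : ¬ ∃ z : F, z ^ 3 = b) (hc : ∃ z : F, z ^ 3 = c) (hc0 : c ≠ 0) :
    ∃ a e ρ : k, e ^ 2 = a ^ 3 ∧ 2 * ρ * e ^ 2 = algebraMap F k (1 / (2 * b ^ 2)) ^ 2 ∧
      ρ ^ 2 = -algebraMap F k c ∧
      (2 * algebraMap F k (1 / (2 * b ^ 2)) * a / e) ^ (Fintype.card F ^ 2) ≠
        2 * algebraMap F k (1 / (2 * b ^ 2)) * a / e ∧
      (-ρ * (2 * algebraMap F k (1 / (2 * b ^ 2)) * a / e)) ^ (Fintype.card F ^ 2) ≠
        -ρ * (2 * algebraMap F k (1 / (2 * b ^ 2)) * a / e) := by
  have h2k : (2 : k) ≠ 0 := ofNat_ne (F := F) h2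
  have hbk : algebraMap F k b ≠ 0 := (_root_.map_ne_zero _).2 hb0
  have hck : algebraMap F k c ≠ 0 := (_root_.map_ne_zero _).2 hc0
  set α : F := 1 / (2 * b ^ 2) with hα
  have hα0 : α ≠ 0 := one_div_ne_zero (mul_ne_zero h2 (pow_ne_zero _ hb0))
  have hαk : algebraMap F k α ≠ 0 := (_root_.map_ne_zero _).2 hα0
  obtain ⟨ρ, hρ⟩ := IsAlgClosed.exists_pow_nat_eq (-algebraMap F k c) (n := 2) (by norm_num)
  have hρ0 : ρ ≠ 0 := by
    rintro rfl
    rw [zero_pow (by norm_num)] at hρ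
    exact neg_ne_zero.2 hck hρ.symm
  obtain ⟨a, ha⟩ := IsAlgClosed.exists_pow_nat_eq (algebraMap F k α ^ 2 / (2 * ρ)) (n := 3)
    (by norm_num)
  have ha0 : a ≠ 0 := by
    rintro rfl
    rw [zero_pow (by norm_num)] at ha
    exact (div_ne_zero (pow_ne_zero _ hαk) (mul_ne_zero h2k hρ0)) ha.symm
  obtain ⟨e, he⟩ := IsAlgClosed.exists_pow_nat_eq (a ^ 3) (n := 2) (by norm_num)
  have he0 : e ≠ 0 := by
    rintro rfl
    rw [zero_pow (by norm_num)] at he
    exact pow_ne_zero _ ha0 he.symm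
  -- the main claim
  have key : frob F k (frob F k (a / e)) ≠ a / e := by
    intro hfix
    have hfa : frob F k (frob F k a) = a := by
      have h1 : (a / e) ^ 2 = 1 / a := by
        rw [div_pow, he]
        field_simp
      have h3 : frob F k (frob F k (1 / a)) = 1 / a := by
        rw [← h1]
        simp only [map_pow]
        rw [hfix]
      have h4 : frob F k (frob F k (1 / a)) = 1 / frob F k (frob F k a) := by simp
      rw [h4, one_div, one_div] at h3
      exact inv_injective h3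
    obtain ⟨n, hn⟩ := mem_of_pow_card (F := F) (a * frob F k a) (by
      rw [← frob_apply (F := F), map_mul, hfa, mul_comm])
    obtain ⟨z, hz⟩ := hc
    have hρρ : (ρ * frob F k ρ) ^ 2 = algebraMap F k c ^ 2 := by
      rw [mul_pow, ← map_pow, hρ, map_neg, frob_algebraMap]
      ring
    have hn3 : algebraMap F k n ^ 3 * (4 * (ρ * frob F k ρ)) = algebraMap F k α ^ 4 := by
      have h5 : a ^ 3 * (2 * ρ) = algebraMap F k α ^ 2 := by
        rw [ha]
        field_simp
      have h6 := congrArg (frob F k) h5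
      simp only [map_mul, map_pow, map_ofNat, frob_algebraMap] at h6
      rw [hn]
      linear_combination (frob F k a ^ 3 * (2 * frob F k ρ)) * h5 + algebraMap F k α ^ 2 * h6
    have hfin : ∀ ε : F, ε ^ 3 = ε → ρ * frob F k ρ = algebraMap F k (ε * c) → ε ^ 2 = 1 →
        False := by
      intro ε hε1 hε2 hε3
      have h7 : n ^ 3 * (4 * (ε * c)) = α ^ 4 := by
        apply (algebraMap F k).injective
        simp only [map_mul, map_pow, map_ofNat]
        rw [← hn3, hε2, map_mul]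
      apply hb
      refine ⟨4 * n * z * b ^ 3 * ε, ?_⟩
      have h8 : α * (2 * b ^ 2) = 1 := by
        rw [hα]
        exact one_div_mul_cancel (mul_ne_zero h2 (pow_ne_zero _ hb0))
      have h9 : n ^ 3 * (4 * (ε * c)) * (16 * b ^ 8) = 1 := by
        rw [h7]
        have : α ^ 4 * (16 * b ^ 8) = (α * (2 * b ^ 2)) ^ 4 := by ring
        rw [this, h8, one_pow]
      calc (4 * n * z * b ^ 3 * ε) ^ 3 = 64 * n ^ 3 * z ^ 3 * b ^ 9 * ε ^ 3 := by ring
        _ = (n ^ 3 * (4 * (ε * c)) * (16 * b ^ 8)) * b := by rw [hz, hε1]; ring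
        _ = b := by rw [h9, one_mul]
    rcases sq_eq_sq_iff_eq_or_eq_neg.1 hρρ with h | h
    · exact hfin 1 (by ring) (by rw [one_mul, h]) (by ring)
    · exact hfin (-1) (by ring) (by rw [neg_one_mul, map_neg, h]) (by ring)
  refine ⟨a, e, ρ, he, ?_, hρ, ?_, ?_⟩
  · rw [he, ha]
    field_simp
  · intro h
    rw [← frob_frob] at h
    apply key
    have h1 : 2 * algebraMap F k α * a / e = algebraMap F k (2 * α) * (a / e) := by
      simp only [map_mul, map_ofNat]
      ring
    rw [h1, map_mul, map_mul, frob_algebraMap, frob_algebraMap] at h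
    exact mul_left_cancel₀ ((_root_.map_ne_zero _).2 (mul_ne_zero h2 hα0)) h
  · intro h
    rw [← frob_frob] at h
    apply key
    have hρρ : frob F k ρ ^ 2 = ρ ^ 2 := by
      rw [← map_pow, hρ, map_neg, frob_algebraMap]
    have hρ2 : frob F k (frob F k ρ) = ρ := by
      rcases sq_eq_sq_iff_eq_or_eq_neg.1 hρρ with h' | h'
      · rw [h', h']
      · rw [h', map_neg, h', neg_neg]
    have h1 : -ρ * (2 * algebraMap F k α * a / e) = -(ρ * (algebraMap F k (2 * α) * (a / e))) := by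
      simp only [map_mul, map_ofNat]
      ring
    rw [h1, map_neg, map_neg, map_mul, map_mul, map_mul, map_mul, frob_algebraMap,
      frob_algebraMap, hρ2] at h
    have h2' := neg_injective h
    exact mul_left_cancel₀ ((_root_.map_ne_zero _).2 (mul_ne_zero h2 hα0))
      (mul_left_cancel₀ hρ0 h2')

end ARITH

end Pool.Agent.Helper23.K6
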