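import Mathlib
import Pool.Agent.Helper23.K6.Defs
import Pool.Agent.Helper23.K6.Arith1

/-! # Module ARITH2 -/

namespace Pool.Agent.Helper23.K6

open Polynomial Pool.Agent.Helper44

section ARITH

variable {F k : Type*} [Field F] [Fintype F] [Field k] [IsAlgClosed k] [Algebra F k]

/-- `q ≡ 1 mod 5`. -/
theorem arith30a (h2 : (2 : F) ≠ 0) (h5 : (5 : F) ≠ 0) (hq : Fintype.card F % 5 = 1) {α γ : F}
    (hα : α ≠ 0) (hγ : ¬ IsSquare γ) :
    ∃ e w δ κ : k, e ^ 5 = algebraMap F k γ ∧ w ^ 2 = 5 ∧ δ ^ 2 = e * w * (2 - w) ∧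
      κ ^ 3 * δ = algebraMap F k α ∧
      (e ^ 3 * (2 * κ ^ 2 * δ)) ^ Fintype.card F ≠ e ^ 3 * (2 * κ ^ 2 * δ) ∧
      (-e ^ 2 * (w + 1) * (2 * κ ^ 2 * δ)) ^ Fintype.card F ≠
        -e ^ 2 * (w + 1) * (2 * κ ^ 2 * δ) ∧
      (-e * (w + 1) * (2 * κ ^ 2 * δ)) ^ Fintype.card F ≠
        -e * (w + 1) * (2 * κ ^ 2 * δ) ∧
      (2 * κ ^ 2 * δ) ^ Fintype.card F ≠ 2 * κ ^ 2 * δ := by
  classical
  have h2k : (2 : k) ≠ 0 := ofNat_ne (F := F) h2
  have hγ0 : γ ≠ 0 := by
    rintro rfl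
    exact hγ ⟨0, by simp⟩
  have hαk : algebraMap F k α ≠ 0 := (_root_.map_ne_zero _).2 hα
  have hγk : algebraMap F k γ ≠ 0 := (_root_.map_ne_zero _).2 hγ0
  -- a fifth root of unity
  obtain ⟨z, hz0, hz⟩ : ∃ z : F, z ≠ 0 ∧ z ^ 4 + z ^ 3 + z ^ 2 + z + 1 = 0 := by
    have hcard : Fintype.card Fˣ = Fintype.card F - 1 := Fintype.card_units F
    have hdvd : 5 ∣ Fintype.card Fˣ := by
      rw [hcard]
      omega
    have : Fact (Nat.Prime 5) := ⟨by norm_num⟩
    obtain ⟨u, hu⟩ := exists_prime_orderOf_dvd_card 5 hdvd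
    have hu5 : ((u : F)) ^ 5 = 1 := by
      have h1 : u ^ 5 = 1 := by rw [← hu, pow_orderOf_eq_one]
      have h2 := congrArg Units.val h1
      rwa [Units.val_pow_eq_pow_val, Units.val_one] at h2
    have hu1 : (u : F) ≠ 1 := by
      intro h
      have : u = 1 := Units.ext h
      rw [this, orderOf_one] at hu
      omega
    refine ⟨u, u.ne_zero, ?_⟩
    have : ((u : F) - 1) * ((u : F) ^ 4 + u ^ 3 + u ^ 2 + u + 1) = 0 := by
      linear_combination hu5
    rcases mul_eq_zero.1 this with h | h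
    · exact absurd (sub_eq_zero.1 h) hu1
    · exact h
  obtain ⟨s, hs⟩ : ∃ s : F, s = z + z⁻¹ := ⟨_, rfl⟩
  have hs2 : s ^ 2 + s - 1 = 0 := by
    have : z ^ 2 * (s ^ 2 + s - 1) = 0 := by
      rw [hs]
      field_simp
      linear_combination hz
    rcases mul_eq_zero.1 this with h | h
    · exact absurd (pow_eq_zero_iff (by norm_num) |>.1 h) hz0
    · exact h
  -- `w₀ = 1 + 2 s`, `g = s² (z - z⁻¹)`
  obtain ⟨w₀, hw₀⟩ : ∃ w₀ : F, w₀ = 1 + 2 * s := ⟨_, rfl⟩
  obtain ⟨g, hg⟩ : ∃ g : F, g = s ^ 2 * (z - z⁻¹) := ⟨_, rfl⟩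
  have hw2 : w₀ ^ 2 = 5 := by
    rw [hw₀]
    linear_combination 4 * hs2
  have hg2 : g ^ 2 = w₀ * (2 - w₀) := by
    have h1 : (z - z⁻¹) ^ 2 = s ^ 2 - 4 := by
      rw [hs]
      field_simp
      ring
    rw [hg, mul_pow, h1, hw₀]
    linear_combination (s ^ 4 - s ^ 3 - 2 * s ^ 2 + s + 1) * hs2
  have hw1 : w₀ + 1 ≠ 0 := by
    intro h
    have h1 : s = -1 := by
      have : 2 * (s + 1) = 0 := by
        rw [hw₀] at h
        linear_combination h
      rcases mul_eq_zero.1 this with h' | h'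
      · exact absurd h' h2
      · linear_combination h'
    rw [h1] at hs2
    have : (-1 : F) = 0 := by linear_combination hs2
    exact one_ne_zero (α := F) (by linear_combination -this)
  have hg0 : g ≠ 0 := by
    intro h
    rw [h] at hg2
    have h1 : w₀ * (2 - w₀) = 0 := by rw [← hg2]; ring
    rcases mul_eq_zero.1 h1 with h' | h'
    · rw [h'] at hw2
      exact h5 (by rw [← hw2]; ring)
    · have : w₀ = 2 := by linear_combination -h'
      rw [this] at hw2
      exact one_ne_zero (α := F) (by linear_combination -hw2)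
  obtain ⟨e, he⟩ := IsAlgClosed.exists_pow_nat_eq (algebraMap F k γ) (n := 5) (by norm_num)
  have he0 : e ≠ 0 := by
    rintro rfl
    rw [zero_pow (by norm_num)] at he
    exact hγk he.symm
  have hgk : algebraMap F k g ≠ 0 := (_root_.map_ne_zero _).2 hg0
  obtain ⟨δ, hδ⟩ := IsAlgClosed.exists_pow_nat_eq (e * algebraMap F k g ^ 2) (n := 2)
    (by norm_num)
  have hδ0 : δ ≠ 0 := by
    rintro rfl
    rw [zero_pow (by norm_num)] at hδ
    exact mul_ne_zero he0 (pow_ne_zero _ hgk) hδ.symm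
  obtain ⟨κ, hκ⟩ := IsAlgClosed.exists_pow_nat_eq (algebraMap F k α / δ) (n := 3) (by norm_num)
  have hκδ : κ ^ 3 * δ = algebraMap F k α := by
    rw [hκ]
    field_simp
  have hwk : algebraMap F k g ^ 2 = algebraMap F k w₀ * (2 - algebraMap F k w₀) := by
    rw [← map_pow, hg2]
    simp only [map_mul, map_sub, map_ofNat]
  -- the key claim
  have key : ∀ i : ℕ, i < 4 → ¬ ∃ a : F, algebraMap F k a = e ^ i * (κ ^ 2 * δ) := by
    rintro i hi ⟨a, ha⟩
    -- `e ^ (3 i) * δ` comes from `F`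
    have h1 : algebraMap F k (a ^ 3 / α ^ 2) = e ^ (3 * i) * δ := by
      rw [map_div₀, map_pow, map_pow, ha, ← hκδ]
      have hκ0 : κ ≠ 0 := by
        rintro rfl
        apply hαk
        rw [← hκδ]
        ring
      field_simp
      ring
    have h3 : algebraMap F k ((a ^ 3 / α ^ 2) ^ 2 / g ^ 2) = e ^ (6 * i + 1) := by
      rw [map_div₀, map_pow, h1, map_pow, mul_pow, hδ]
      field_simp
      ring
    have heF : ∃ b : F, algebraMap F k b = e := by
      have hF : ∀ m n : ℕ, (∃ b : F, algebraMap F k b = e ^ (5 * m + 1) ) →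
          ∃ b : F, algebraMap F k b = e := by
        rintro m n ⟨b, hb⟩
        refine ⟨b / γ ^ m, ?_⟩
        rw [map_div₀, map_pow, hb, ← he, pow_add, pow_mul, pow_one]
        field_simp
      obtain ⟨b₀, hb₀⟩ : ∃ b : F, algebraMap F k b = e ^ (6 * i + 1) := ⟨_, h3⟩
      interval_cases i
      · exact hF 0 0 ⟨b₀, by rw [hb₀]⟩
      · exact hF 4 0 ⟨b₀ ^ 3, by rw [map_pow, hb₀, ← pow_mul]⟩
      · exact hF 5 0 ⟨b₀ ^ 2, by rw [map_pow, hb₀, ← pow_mul]⟩
      · exact hF 15 0 ⟨b₀ ^ 4, by rw [map_pow, hb₀, ← pow_mul]⟩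
    obtain ⟨b, hb⟩ := heF
    have hb0 : b ≠ 0 := by
      rintro rfl
      exact he0 (by rw [← hb, map_zero])
    have hd : algebraMap F k (a ^ 3 / α ^ 2 / b ^ (3 * i)) = δ := by
      rw [map_div₀, h1, map_pow, hb]
      field_simp
    obtain ⟨d, hd'⟩ : ∃ d : F, d = a ^ 3 / α ^ 2 / b ^ (3 * i) := ⟨_, rfl⟩
    rw [← hd'] at hd
    have h4 : d ^ 2 = b * g ^ 2 := by
      apply (algebraMap F k).injective
      simp only [map_mul, map_pow]
      rw [hd, hb, hδ]
    apply hγ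
    refine ⟨(d / g) ^ 5, ?_⟩
    have h6 : b = (d / g) ^ 2 := by
      rw [div_pow, h4]
      field_simp
    have h7 : γ = b ^ 5 := by
      apply (algebraMap F k).injective
      rw [map_pow, hb, he]
    rw [h7]
    conv_lhs => rw [h6]
    ring
  have aux : ∀ (i : ℕ) (hi : i < 4) (c : F), c ≠ 0 →
      (algebraMap F k c * (e ^ i * (κ ^ 2 * δ))) ^ Fintype.card F ≠
        algebraMap F k c * (e ^ i * (κ ^ 2 * δ)) := by
    intro i hi c hc hfix
    obtain ⟨f, hf⟩ := mem_of_pow_card (F := F) _ hfix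
    have hck : algebraMap F k c ≠ 0 := (_root_.map_ne_zero _).2 hc
    refine key i hi ⟨f / c, ?_⟩
    rw [map_div₀, hf]
    field_simp
  refine ⟨e, algebraMap F k w₀, δ, κ, he, ?_, ?_, hκδ, ?_, ?_, ?_, ?_⟩
  · rw [← map_pow, hw2, map_ofNat]
  · rw [hδ, hwk]
    ring
  · rw [show e ^ 3 * (2 * κ ^ 2 * δ) = algebraMap F k 2 * (e ^ 3 * (κ ^ 2 * δ)) by
      rw [map_ofNat]; ring]
    exact aux 3 (by norm_num) 2 h2
  · rw [show -e ^ 2 * (algebraMap F k w₀ + 1) * (2 * κ ^ 2 * δ) =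
        algebraMap F k (-((w₀ + 1) * 2)) * (e ^ 2 * (κ ^ 2 * δ)) by
      simp only [map_neg, map_mul, map_add, map_one, map_ofNat]; ring]
    exact aux 2 (by norm_num) _ (neg_ne_zero.2 (mul_ne_zero hw1 h2))
  · rw [show -e * (algebraMap F k w₀ + 1) * (2 * κ ^ 2 * δ) =
        algebraMap F k (-((w₀ + 1) * 2)) * (e ^ 1 * (κ ^ 2 * δ)) by
      simp only [map_neg, map_mul, map_add, map_one, map_ofNat]; ring]
    exact aux 1 (by norm_num) _ (neg_ne_zero.2 (mul_ne_zero hw1 h2))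
  · rw [show 2 * κ ^ 2 * δ = algebraMap F k 2 * (e ^ 0 * (κ ^ 2 * δ)) by
      rw [map_ofNat]; ring]
    exact aux 0 (by norm_num) 2 h2

omit [IsAlgClosed k] in
lemma frob4 (x : k) : frob F k (frob F k (frob F k (frob F k x))) = x ^ (Fintype.card F ^ 4) := by
  simp only [frob_apply, ← pow_mul]
  congr 1
  ring

/-- `q ≢ 1 mod 5` and `b / 10` is not a cube. -/
theorem arith30b (h2 : (2 : F) ≠ 0) (h3 : (3 : F) ≠ 0) (h5 : (5 : F) ≠ 0)
    (hq : Fintype.card F % 5 ≠ 1) {b c : F} (hb0 : b ≠ 0)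
    (hb : ¬ ∃ z : F, b = 10 * z ^ 3) (hc : ∃ z : F, z ^ 3 = c) (hc0 : c ≠ 0) :
    ∃ e w δ κ : k, e ^ 5 = algebraMap F k c ∧ w ^ 2 = 5 ∧ δ ^ 2 = e * w * (2 - w) ∧
      κ ^ 3 * δ = algebraMap F k (1 / (2 * b ^ 2)) ∧
      (e ^ 3 * (2 * κ ^ 2 * δ)) ^ (Fintype.card F ^ 4) ≠ e ^ 3 * (2 * κ ^ 2 * δ) ∧
      (-e ^ 2 * (w + 1) * (2 * κ ^ 2 * δ)) ^ (Fintype.card F ^ 4) ≠
        -e ^ 2 * (w + 1) * (2 * κ ^ 2 * δ) ∧
      (-e * (w + 1) * (2 * κ ^ 2 * δ)) ^ (Fintype.card F ^ 4) ≠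
        -e * (w + 1) * (2 * κ ^ 2 * δ) ∧
      (2 * κ ^ 2 * δ) ^ (Fintype.card F ^ 4) ≠ 2 * κ ^ 2 * δ := by
  classical
  have h2k : (2 : k) ≠ 0 := ofNat_ne (F := F) h2
  have h5k : (5 : k) ≠ 0 := ofNat_ne (F := F) h5
  obtain ⟨α, hα⟩ : ∃ α : F, α = 1 / (2 * b ^ 2) := ⟨_, rfl⟩
  rw [← hα]
  have hα0 : α ≠ 0 := by
    rw [hα]
    exact one_div_ne_zero (mul_ne_zero h2 (pow_ne_zero _ hb0))
  have hα1 : α * (2 * b ^ 2) = 1 := by
    rw [hα]
    exact one_div_mul_cancel (mul_ne_zero h2 (pow_ne_zero _ hb0))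
  have hαk : algebraMap F k α ≠ 0 := (_root_.map_ne_zero _).2 hα0
  obtain ⟨z, hz⟩ := hc
  obtain ⟨e, he⟩ := pow_five_surjective hq c
  simp only at he
  have he0 : e ≠ 0 := by
    rintro rfl
    apply hc0
    rw [← he]
    ring
  have hz0 : z ≠ 0 := by
    rintro rfl
    apply hc0
    rw [← hz]
    ring
  obtain ⟨e₁, he₁⟩ : ∃ e₁ : F, e₁ ^ 3 = e := by
    refine ⟨e ^ 2 / z, ?_⟩
    rw [div_pow, hz, ← he]
    field_simp
  have hek : algebraMap F k e ≠ 0 := (_root_.map_ne_zero _).2 he0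
  obtain ⟨w, hw⟩ := IsAlgClosed.exists_pow_nat_eq (5 : k) (n := 2) (by norm_num)
  have hw0 : w ≠ 0 := by
    rintro rfl
    rw [zero_pow (by norm_num)] at hw
    exact h5k hw.symm
  have hw2 : 2 - w ≠ 0 := by
    intro h
    have h1 : w = 2 := by linear_combination -h
    rw [h1] at hw
    exact one_ne_zero (α := k) (by linear_combination -hw)
  have hw1 : w + 1 ≠ 0 := by
    intro h
    have h1 : w = -1 := by linear_combination h
    rw [h1] at hw
    have h4 : (2 : k) * 2 = 0 := by linear_combination -hw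
    exact mul_ne_zero h2k h2k h4
  obtain ⟨δ, hδ⟩ := IsAlgClosed.exists_pow_nat_eq (algebraMap F k e * w * (2 - w)) (n := 2)
    (by norm_num)
  have hδ0 : δ ≠ 0 := by
    rintro rfl
    rw [zero_pow (by norm_num)] at hδ
    exact mul_ne_zero (mul_ne_zero hek hw0) hw2 hδ.symm
  obtain ⟨κ, hκ⟩ := IsAlgClosed.exists_pow_nat_eq (algebraMap F k α / δ) (n := 3) (by norm_num)
  have hκδ : κ ^ 3 * δ = algebraMap F k α := by
    rw [hκ]
    field_simp
  have hκ0 : κ ≠ 0 := by
    rintro rfl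
    apply hαk
    rw [← hκδ]
    ring
  have hφw : frob F k w = w ∨ frob F k w = -w := by
    have h1 : frob F k w ^ 2 = w ^ 2 := by
      rw [← map_pow, hw]
      exact map_ofNat (frob F k) 5
    exact sq_eq_sq_iff_eq_or_eq_neg.1 h1
  have hφφw : frob F k (frob F k w) = w := by
    rcases hφw with h | h
    · rw [h, h]
    · rw [h, map_neg, h, neg_neg]
  -- the key claim
  have key : frob F k (frob F k (frob F k (frob F k (κ ^ 2 * δ)))) ≠ κ ^ 2 * δ := by
    intro hfix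
    obtain ⟨φ, hφ⟩ : ∃ φ : k →+* k, φ = frob F k := ⟨_, rfl⟩
    rw [← hφ] at hfix hφw hφφw
    have hφF : ∀ a : F, φ (algebraMap F k a) = algebraMap F k a := by
      intro a
      rw [hφ, frob_algebraMap]
    have hfixδ : φ (φ (φ (φ δ))) = δ := by
      have h1 : δ = algebraMap F k (1 / α ^ 2) * (κ ^ 2 * δ) ^ 3 := by
        rw [map_div₀, map_one, map_pow, ← hκδ]
        field_simp
      rw [h1]
      simp only [map_mul φ, map_pow φ, hφF]
      rw [map_mul φ, map_mul φ, map_mul φ, map_mul φ] at hfix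
      simp only [map_mul φ, map_pow φ] at hfix
      rw [hfix]
    have hfixκ : φ (φ (φ (φ κ))) = κ := by
      have h1 : κ = algebraMap F k α / (κ ^ 2 * δ) := by
        rw [← hκδ]
        field_simp
      have h3 : φ (φ (φ (φ (algebraMap F k α / (κ ^ 2 * δ))))) = algebraMap F k α / (κ ^ 2 * δ) := by
        simp only [map_div₀ φ, hφF]
        rw [hfix]
      rw [← h1] at h3
      exact h3
    -- norms
    obtain ⟨N, hN⟩ : ∃ N : k → k, ∀ x, N x = x * φ x * φ (φ x) * φ (φ (φ x)) :=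
      ⟨fun x => x * φ x * φ (φ x) * φ (φ (φ x)), fun _ => rfl⟩
    have hNmul : ∀ x y, N (x * y) = N x * N y := by
      intro x y
      simp only [hN, map_mul φ]
      ring
    have hNpow : ∀ (x : k) (n : ℕ), N (x ^ n) = N x ^ n := by
      intro x n
      simp only [hN, map_pow φ]
      ring
    have hNF : ∀ a : F, N (algebraMap F k a) = algebraMap F k a ^ 4 := by
      intro a
      simp only [hN, hφF]
      ring
    obtain ⟨m, hm⟩ := mem_of_pow_card (F := F) (N κ) (by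
      rw [← frob_apply (F := F), ← hφ, hN]
      simp only [map_mul φ]
      rw [hfixκ]
      ring)
    have hNκ : N κ ^ 3 * N δ = algebraMap F k α ^ 4 := by
      rw [← hNF, ← hκδ, hNmul, hNpow]
    -- the value of `N δ`
    obtain ⟨η, ε, hη, hε, hNδ⟩ : ∃ η ε : F, η ≠ 0 ∧ ε ^ 2 = 1 ∧
        N δ = algebraMap F k (ε * (5 * e ^ 2 * η ^ 3)) := by
      have h1 : N δ ^ 2 = algebraMap F k e ^ 4 * N (w * (2 - w)) := by
        rw [← hNpow, hδ, mul_assoc, hNmul, hNF]
      rcases hφw with h | h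
      · -- `w` in `F`
        obtain ⟨w₀, hw₀⟩ := mem_of_pow_card (F := F) w (by
          rw [← frob_apply (F := F), ← hφ, h])
        obtain ⟨η, hη⟩ : ∃ η : F, η = (1 - w₀) / 2 := ⟨_, rfl⟩
        have hw₀2 : w₀ ^ 2 = 5 := by
          apply (algebraMap F k).injective
          rw [map_pow, hw₀, hw, map_ofNat]
        have hη2 : 2 * η = 1 - w₀ := by
          rw [hη]
          field_simp
        have hη3 : η ^ 3 = 2 - w₀ := by
          have h8 : (8 : F) ≠ 0 := by
            have : (8 : F) = 2 * 2 * 2 := by norm_num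
            rw [this]
            exact mul_ne_zero (mul_ne_zero h2 h2) h2
          apply mul_left_cancel₀ h8
          have : 8 * η ^ 3 = (1 - w₀) ^ 3 := by
            rw [← hη2]
            ring
          rw [this]
          linear_combination (3 - w₀) * hw₀2
        have hη0 : η ≠ 0 := by
          rintro rfl
          apply hw2
          rw [← hw₀]
          have h9 : (2 : F) - w₀ = 0 := by rw [← hη3]; ring
          have h10 := congrArg (algebraMap F k) h9
          rwa [map_sub, map_ofNat, map_zero] at h10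
        have h4 : N (w * (2 - w)) = algebraMap F k (5 * η ^ 6) ^ 2 := by
          have h5' : w * (2 - w) = algebraMap F k (w₀ * (2 - w₀)) := by
            simp only [map_mul, map_sub, map_ofNat, hw₀]
          rw [h5', hNF, ← map_pow, ← map_pow]
          congr 1
          rw [← hη3]
          have : (5 * η ^ 6) ^ 2 = 5 ^ 2 * η ^ 12 := by ring
          rw [this, ← hw₀2]
          ring
        have h6 : N δ ^ 2 = algebraMap F k (5 * e ^ 2 * η ^ 6) ^ 2 := by
          rw [h1, h4]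
          simp only [map_mul, map_pow]
          ring
        rcases sq_eq_sq_iff_eq_or_eq_neg.1 h6 with h7 | h7
        · refine ⟨η ^ 2, 1, pow_ne_zero _ hη0, by ring, ?_⟩
          rw [h7]
          congr 1
          ring
        · refine ⟨η ^ 2, -1, pow_ne_zero _ hη0, by ring, ?_⟩
          rw [h7, ← map_neg]
          congr 1
          ring
      · have h4 : N (w * (2 - w)) = 25 := by
          have hu : φ (w * (2 - w)) = -w * (2 + w) := by
            rw [map_mul, map_sub, h, map_ofNat]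
            ring
          have hv : φ (-w * (2 + w)) = w * (2 - w) := by
            rw [map_mul, map_add, map_neg, h, map_ofNat]
            ring
          rw [hN, hu, hv, hu]
          have h6 : w * (2 - w) * (-w * (2 + w)) = 5 := by
            linear_combination (w ^ 2 + 1) * hw
          calc w * (2 - w) * (-w * (2 + w)) * (w * (2 - w)) * (-w * (2 + w))
              = (w * (2 - w) * (-w * (2 + w))) ^ 2 := by ring
            _ = 25 := by rw [h6]; norm_num
        have h6 : N δ ^ 2 = algebraMap F k (5 * e ^ 2 * 1 ^ 3) ^ 2 := by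
          rw [h1, h4]
          simp only [map_mul, map_pow, map_ofNat, map_one]
          ring
        rcases sq_eq_sq_iff_eq_or_eq_neg.1 h6 with h7 | h7
        · refine ⟨1, 1, one_ne_zero, by ring, ?_⟩
          rw [h7]
          congr 1
          ring
        · refine ⟨1, -1, one_ne_zero, by ring, ?_⟩
          rw [h7, ← map_neg]
          congr 1
          ring
    have hrel : m ^ 3 * (ε * (5 * e ^ 2 * η ^ 3)) = α ^ 4 := by
      apply (algebraMap F k).injective
      rw [map_mul, map_pow, map_pow, hm, ← hNδ, hNκ]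
    have hrel2 : 80 * b ^ 8 * e ^ 2 * (m * η) ^ 3 * ε = 1 := by
      have h1 : m ^ 3 * (ε * (5 * e ^ 2 * η ^ 3)) * (16 * b ^ 8) = 1 := by
        rw [hrel]
        have : α ^ 4 * (16 * b ^ 8) = (α * (2 * b ^ 2)) ^ 4 := by ring
        rw [this, hα1, one_pow]
      linear_combination h1
    apply hb
    refine ⟨2 * b ^ 3 * e₁ ^ 2 * (m * η) * ε, ?_⟩
    have hε3 : ε ^ 3 = ε := by
      have : ε ^ 3 = ε ^ 2 * ε := by ring
      rw [this, hε, one_mul]
    have h9 : 10 * (2 * b ^ 3 * e₁ ^ 2 * (m * η) * ε) ^ 3 =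
        (80 * b ^ 8 * (e₁ ^ 3) ^ 2 * (m * η) ^ 3 * ε ^ 3) * b := by ring
    rw [h9, he₁, hε3, hrel2, one_mul]
  have aux : ∀ c : k, c ≠ 0 → frob F k (frob F k c) = c →
      (c * (κ ^ 2 * δ)) ^ (Fintype.card F ^ 4) ≠ c * (κ ^ 2 * δ) := by
    intro c hc hcc hfix
    rw [← frob4] at hfix
    rw [map_mul, map_mul, map_mul, map_mul, hcc, hcc] at hfix
    exact key (mul_left_cancel₀ hc hfix)
  refine ⟨algebraMap F k e, w, δ, κ, ?_, hw, hδ, hκδ, ?_, ?_, ?_, ?_⟩
  · rw [← map_pow, he]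
  · rw [show algebraMap F k e ^ 3 * (2 * κ ^ 2 * δ) = (algebraMap F k e ^ 3 * 2) * (κ ^ 2 * δ) by
      ring]
    refine aux _ (mul_ne_zero (pow_ne_zero _ hek) h2k) ?_
    simp only [map_mul, map_pow, frob_algebraMap, map_ofNat]
  · rw [show -algebraMap F k e ^ 2 * (w + 1) * (2 * κ ^ 2 * δ) =
      (-algebraMap F k e ^ 2 * (w + 1) * 2) * (κ ^ 2 * δ) by ring]
    refine aux _ (mul_ne_zero (mul_ne_zero (neg_ne_zero.2 (pow_ne_zero _ hek)) hw1) h2k) ?_
    simp only [map_mul, map_pow, map_neg, map_add, map_one, frob_algebraMap, map_ofNat, hφφw]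
  · rw [show -algebraMap F k e * (w + 1) * (2 * κ ^ 2 * δ) =
      (-algebraMap F k e * (w + 1) * 2) * (κ ^ 2 * δ) by ring]
    refine aux _ (mul_ne_zero (mul_ne_zero (neg_ne_zero.2 hek) hw1) h2k) ?_
    simp only [map_mul, map_neg, map_add, map_one, frob_algebraMap, map_ofNat, hφφw]
  · rw [show 2 * κ ^ 2 * δ = 2 * (κ ^ 2 * δ) by ring]
    refine aux _ h2k ?_
    simp only [map_ofNat]

end ARITH

end Pool.Agent.Helper23.K6
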