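import Mathlib
import Pool.Agent.Helper23.K6.Defs

/-!
The derivation `d/dt` of `k(t)`.
-/

namespace Pool.Agent.Helper23.K6

open Polynomial Pool.Agent.Helper44

section generic

variable {K : Type*} [Field K]

/-- Constructor for derivations of fields. -/
def DerZ.ofFun (f : K → K) (hadd : ∀ a b, f (a + b) = f a + f b)
    (hmul : ∀ a b, f (a * b) = a * f b + b * f a) : DerZ K :=
  Derivation.mk' (AddMonoidHom.toIntLinearMap
    { toFun := f
      map_zero' := by
        have h := hadd 0 0
        rw [add_zero] at h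
        simpa using h
      map_add' := hadd }) (fun a b => by
        simp only [smul_eq_mul]
        exact hmul a b)

lemma DerZ.ofFun_apply (f : K → K) (hadd : ∀ a b, f (a + b) = f a + f b)
    (hmul : ∀ a b, f (a * b) = a * f b + b * f a) (a : K) : DerZ.ofFun f hadd hmul a = f a := rfl

lemma dz_mul (d : DerZ K) (a b : K) : d (a * b) = a * d b + b * d a := by
  rw [Derivation.leibniz]; rfl

lemma dz_pow (d : DerZ K) (a : K) (n : ℕ) : d (a ^ n) = n * a ^ (n - 1) * d a := by
  rw [Derivation.leibniz_pow]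
  simp only [smul_eq_mul, nsmul_eq_mul]
  ring

lemma dz_inv (d : DerZ K) (a : K) : d a⁻¹ = -a⁻¹ ^ 2 * d a := by
  rw [Derivation.leibniz_inv]
  rfl

lemma dz_div (d : DerZ K) (a b : K) (hb : b ≠ 0) : d (a / b) = (d a * b - a * d b) / b ^ 2 := by
  rw [Derivation.leibniz_div]
  simp only [smul_eq_mul]
  field_simp

lemma dz_one (d : DerZ K) : d 1 = 0 := Derivation.map_one_eq_zero d

lemma dz_natCast (d : DerZ K) (n : ℕ) : d (n : K) = 0 := Derivation.map_natCast d n

end generic

section DER

variable {k : Type*} [Field k] {k' : Type*} [Field k']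

/-- The derivative of a rational function. -/
noncomputable def derFun (f : RatFunc k) : RatFunc k :=
  algebraMap k[X] (RatFunc k) (derivative f.num * f.denom - f.num * derivative f.denom) /
    algebraMap k[X] (RatFunc k) f.denom ^ 2

lemma algebraMap_ne {q : k[X]} (hq : q ≠ 0) : algebraMap k[X] (RatFunc k) q ≠ 0 := by
  rwa [map_ne_zero_iff _ (RatFunc.algebraMap_injective k)]

lemma derFun_div (p q : k[X]) (hq : q ≠ 0) :
    derFun (algebraMap k[X] (RatFunc k) p / algebraMap k[X] (RatFunc k) q) =
      algebraMap k[X] (RatFunc k) (derivative p * q - p * derivative q) /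
        algebraMap k[X] (RatFunc k) q ^ 2 := by
  obtain ⟨r, hr⟩ : ∃ r, r = algebraMap k[X] (RatFunc k) p / algebraMap k[X] (RatFunc k) q :=
    ⟨_, rfl⟩
  rw [← hr, derFun]
  have h1 : r.num * q = p * r.denom := by
    rw [RatFunc.num_mul_eq_mul_denom_iff hq, hr]
  have h2 := congrArg derivative h1
  simp only [derivative_mul] at h2
  have hd := RatFunc.denom_ne_zero r
  rw [div_eq_div_iff (pow_ne_zero _ (algebraMap_ne hd)) (pow_ne_zero _ (algebraMap_ne hq)),
    ← map_pow, ← map_pow, ← map_mul, ← map_mul]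
  congr 1
  linear_combination (r.denom * q) * h2 - (derivative r.denom * q + derivative q * r.denom) * h1

lemma exists_div (f : RatFunc k) : ∃ p q : k[X], q ≠ 0 ∧
    f = algebraMap k[X] (RatFunc k) p / algebraMap k[X] (RatFunc k) q :=
  ⟨f.num, f.denom, RatFunc.denom_ne_zero f, (RatFunc.num_div_denom f).symm⟩

lemma derFun_add (f g : RatFunc k) : derFun (f + g) = derFun f + derFun g := by
  obtain ⟨p, q, hq, rfl⟩ := exists_div f
  obtain ⟨p', q', hq', rfl⟩ := exists_div g
  have h1 := algebraMap_ne hq
  have h2 := algebraMap_ne hq'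
  rw [div_add_div _ _ h1 h2, ← map_mul, ← map_mul, ← map_add, ← map_mul,
    derFun_div _ _ (mul_ne_zero hq hq'), derFun_div _ _ hq, derFun_div _ _ hq']
  simp only [derivative_add, derivative_mul, map_add, map_sub, map_mul]
  field_simp
  ring

lemma derFun_mul (f g : RatFunc k) : derFun (f * g) = f * derFun g + g * derFun f := by
  obtain ⟨p, q, hq, rfl⟩ := exists_div f
  obtain ⟨p', q', hq', rfl⟩ := exists_div g
  have h1 := algebraMap_ne hq
  have h2 := algebraMap_ne hq'
  rw [div_mul_div_comm, ← map_mul, ← map_mul,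
    derFun_div _ _ (mul_ne_zero hq hq'), derFun_div _ _ hq, derFun_div _ _ hq']
  simp only [derivative_mul, map_add, map_sub, map_mul]
  field_simp
  ring

variable (k) in
/-- The derivation `d/dt` of `k(t)`. -/
noncomputable def der : DerZ (RatFunc k) := DerZ.ofFun derFun derFun_add derFun_mul

lemma der_apply (f : RatFunc k) : der k f = derFun f := rfl

lemma der_mul (f g : RatFunc k) : der k (f * g) = f * der k g + g * der k f := derFun_mul f g

lemma der_algebraMap (f : k[X]) :
    der k (algebraMap k[X] (RatFunc k) f) = algebraMap k[X] (RatFunc k) (derivative f) := by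
  have h := derFun_div f 1 one_ne_zero
  rw [map_one, div_one] at h
  rw [der_apply, h]
  simp

lemma der_C (a : k) : der k (RatFunc.C a) = 0 := by
  rw [← RatFunc.algebraMap_C, der_algebraMap, derivative_C, map_zero]

lemma der_div (p q : k[X]) (hq : q ≠ 0) :
    der k (algebraMap k[X] (RatFunc k) p / algebraMap k[X] (RatFunc k) q) =
      algebraMap k[X] (RatFunc k) (derivative p * q - p * derivative q) /
        algebraMap k[X] (RatFunc k) q ^ 2 := derFun_div p q hq

lemma der_scl (ζ : k) (hζ : ζ ≠ 0) (f : RatFunc k) :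
    der k (scl ζ hζ f) = RatFunc.C ζ * scl ζ hζ (der k f) := by
  obtain ⟨p, q, hq, rfl⟩ := exists_div f
  have hq' : q.comp (C ζ * X) ≠ 0 := by
    intro h
    apply hq
    apply comp_scale_injective ζ hζ
    simpa using h
  rw [map_div₀, scl_algebraMap, scl_algebraMap, der_div _ _ hq', der_div _ _ hq, map_div₀,
    map_pow, scl_algebraMap, scl_algebraMap]
  have e : derivative (C ζ * X : k[X]) = C ζ := by simp
  rw [mul_div_assoc']
  congr 1
  rw [← RatFunc.algebraMap_C, ← map_mul]
  congr 1
  simp only [derivative_comp, sub_comp, mul_comp, e]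
  ring

lemma der_cf (φ : k →+* k') (f : RatFunc k) : der k' (cf φ f) = cf φ (der k f) := by
  obtain ⟨p, q, hq, rfl⟩ := exists_div f
  have hq' : q.map φ ≠ 0 := (Polynomial.map_ne_zero_iff φ.injective).2 hq
  rw [map_div₀, cf_algebraMap, cf_algebraMap, der_div _ _ hq', der_div _ _ hq, map_div₀,
    map_pow, cf_algebraMap, cf_algebraMap]
  congr 2
  simp only [Polynomial.map_sub, Polynomial.map_mul, derivative_map]

variable (p : ℕ) [hp : Fact p.Prime] [CharP k p]

lemma cast_p_ratFunc : (p : RatFunc k) = 0 := by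
  have := charP_ratFunc (k := k) p
  exact CharP.cast_eq_zero _ _

lemma der_pow_p (g : RatFunc k) : der k (g ^ p) = 0 := by
  rw [dz_pow, cast_p_ratFunc, zero_mul, zero_mul]

lemma der_mul_pow (f g : RatFunc k) : der k (f * g ^ p) = der k f * g ^ p := by
  rw [der_mul, der_pow_p]
  ring

lemma der_iterate_mul_pow (n : ℕ) (f g : RatFunc k) :
    (der k)^[n] (f * g ^ p) = (der k)^[n] f * g ^ p := by
  induction n with
  | zero => rfl
  | succ n ih => rw [Function.iterate_succ_apply', Function.iterate_succ_apply', ih, der_mul_pow]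

lemma der_iterate_algebraMap (n : ℕ) (f : k[X]) :
    (der k)^[n] (algebraMap k[X] (RatFunc k) f) =
      algebraMap k[X] (RatFunc k) (derivative^[n] f) := by
  induction n with
  | zero => rfl
  | succ n ih => rw [Function.iterate_succ_apply', Function.iterate_succ_apply', ih,
      der_algebraMap]

/-- Every rational function is a polynomial divided by a `p`-th power. -/
lemma exists_div_pow (f : RatFunc k) : ∃ n q : k[X], q ≠ 0 ∧
    f = algebraMap k[X] (RatFunc k) n * (algebraMap k[X] (RatFunc k) q)⁻¹ ^ p := by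
  obtain ⟨n, q, hq, rfl⟩ := exists_div f
  refine ⟨n * q ^ (p - 1), q, hq, ?_⟩
  have h := algebraMap_ne hq
  have e : p = (p - 1) + 1 := by have := hp.out.one_lt; omega
  have e' : (algebraMap k[X] (RatFunc k) q)⁻¹ ^ p =
      (algebraMap k[X] (RatFunc k) q)⁻¹ ^ (p - 1) * (algebraMap k[X] (RatFunc k) q)⁻¹ := by
    conv_lhs => rw [e]
    rw [pow_succ]
  rw [e', map_mul, map_pow, div_eq_mul_inv, ← mul_assoc, mul_assoc (algebraMap k[X] (RatFunc k) n),
    ← mul_pow, mul_inv_cancel₀ h, one_pow, mul_one]

lemma exists_pow_of_der_eq_zero [PerfectRing k p] (f : RatFunc k) (hf : der k f = 0) :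
    ∃ g, g ^ p = f := by
  obtain ⟨n, q, hq, rfl⟩ := exists_div_pow p f
  rw [der_mul_pow, der_algebraMap] at hf
  have hq' : (algebraMap k[X] (RatFunc k) q)⁻¹ ^ p ≠ 0 :=
    pow_ne_zero _ (inv_ne_zero (algebraMap_ne hq))
  have hn : derivative n = 0 := by
    rcases mul_eq_zero.1 hf with h | h
    · exact (map_eq_zero_iff _ (RatFunc.algebraMap_injective k)).1 h
    · exact absurd h hq'
  have h1 := expand_contract p hn hp.out.ne_zero
  have h2 : ∃ g : k[X], g ^ p = n := by
    refine ⟨(contract p n).map (frobeniusEquiv k p).symm.toRingHom, ?_⟩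
    rw [← map_frobenius_expand p, map_expand]
    rw [Polynomial.map_map]
    have e : (frobenius k p).comp (frobeniusEquiv k p).symm.toRingHom = RingHom.id k := by
      ext x
      simp
    rw [e, Polynomial.map_id, h1]
  obtain ⟨g, rfl⟩ := h2
  refine ⟨algebraMap k[X] (RatFunc k) g * (algebraMap k[X] (RatFunc k) q)⁻¹, ?_⟩
  rw [mul_pow, map_pow]

lemma iterate_derivative_p (f : k[X]) : derivative^[p] f = 0 := by
  have h := Polynomial.factorial_smul_hasseDeriv (R := k) p
  have h' := congrFun h f
  rw [← h']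
  have : ((p.factorial : ℕ) : k) = 0 := by
    rw [CharP.cast_eq_zero_iff k p]
    exact Nat.dvd_factorial hp.out.pos le_rfl
  simp only [LinearMap.smul_apply, Pi.smul_apply]
  rw [nsmul_eq_mul]
  have e : ((p.factorial : ℕ) : k[X]) = C ((p.factorial : ℕ) : k) := by simp
  rw [e, this, map_zero, zero_mul]

lemma der_iterate_p (f : RatFunc k) : (der k)^[p] f = 0 := by
  obtain ⟨n, q, hq, rfl⟩ := exists_div_pow p f
  rw [der_iterate_mul_pow, der_iterate_algebraMap, iterate_derivative_p, map_zero, zero_mul]

lemma der_iterate_add (n : ℕ) (f g : RatFunc k) :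
    (der k)^[n] (f + g) = (der k)^[n] f + (der k)^[n] g := by
  induction n generalizing f g with
  | zero => rfl
  | succ n ih => rw [Function.iterate_succ_apply, map_add, ih]; rfl

lemma der_iterate_zero (n : ℕ) : (der k)^[n] (0 : RatFunc k) = 0 := by
  induction n with
  | zero => rfl
  | succ n ih => rw [Function.iterate_succ_apply, map_zero, ih]

lemma der_iterate_neg (n : ℕ) (f : RatFunc k) : (der k)^[n] (-f) = - (der k)^[n] f := by
  induction n generalizing f with
  | zero => rfl
  | succ n ih => rw [Function.iterate_succ_apply, map_neg, ih]; rfl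

lemma der_iterate_inv_linear (a : k) (n : ℕ) :
    (der k)^[n] ((algebraMap k[X] (RatFunc k) (X - C a))⁻¹) =
      (-1) ^ n * (n.factorial : RatFunc k) *
        ((algebraMap k[X] (RatFunc k) (X - C a))⁻¹) ^ (n + 1) := by
  have hne : algebraMap k[X] (RatFunc k) (X - C a) ≠ 0 := algebraMap_ne (X_sub_C_ne_zero a)
  have h1 : der k ((algebraMap k[X] (RatFunc k) (X - C a))⁻¹) =
      -((algebraMap k[X] (RatFunc k) (X - C a))⁻¹) ^ 2 := by
    rw [dz_inv, der_algebraMap]
    simp
  induction n with
  | zero => simp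
  | succ n ih =>
    rw [Function.iterate_succ_apply', ih]
    have hc : der k ((-1) ^ n * (n.factorial : RatFunc k)) = 0 := by
      have : ((-1) ^ n * (n.factorial : RatFunc k)) = RatFunc.C ((-1) ^ n * (n.factorial : k)) := by
        simp
      rw [this, der_C]
    rw [der_mul, hc, dz_pow, h1, Nat.factorial_succ]
    simp only [Nat.cast_mul, Nat.cast_add, Nat.cast_one, Nat.add_sub_cancel]
    ring

/-- The Cartier identity for the inverse of a linear polynomial. -/
lemma cartier_linear (hodd : Odd p) (a : k) :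
    (der k)^[p - 1] ((algebraMap k[X] (RatFunc k) (X - C a))⁻¹) =
      - ((algebraMap k[X] (RatFunc k) (X - C a))⁻¹) ^ p := by
  rw [der_iterate_inv_linear]
  have h1 : (-1 : RatFunc k) ^ (p - 1) = 1 := by
    apply Even.neg_one_pow
    obtain ⟨m, hm⟩ := hodd
    exact ⟨m, by omega⟩
  have h2 : (((p - 1).factorial : ℕ) : RatFunc k) = -1 := by
    have h := ZMod.wilsons_lemma p
    have := charP_ratFunc (k := k) p
    have h' := congrArg (ZMod.castHom (dvd_refl p) (RatFunc k)) h
    rw [map_natCast, map_neg, map_one] at h'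
    exact h'
  have h3 : p - 1 + 1 = p := by have := hp.out.one_lt; omega
  rw [h1, h2, h3]
  ring

/-- `c(f) = d^{p-1}(f'/f) + (f'/f)^p`. -/
noncomputable def cc (f : RatFunc k) : RatFunc k :=
  (der k)^[p - 1] (der k f / f) + (der k f / f) ^ p

lemma cc_mul (f g : RatFunc k) (hf : f ≠ 0) (hg : g ≠ 0) :
    cc p (f * g) = cc p f + cc p g := by
  have := charP_ratFunc (k := k) p
  have e : der k (f * g) / (f * g) = der k f / f + der k g / g := by
    rw [der_mul]
    field_simp
    ring
  rw [cc, cc, cc, e, der_iterate_add, add_pow_char]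
  ring

lemma cc_C (a : k) : cc p (RatFunc.C a) = 0 := by
  rw [cc, der_C, zero_div, der_iterate_zero, zero_pow hp.out.ne_zero, add_zero]

lemma cc_one : cc p (1 : RatFunc k) = 0 := by
  have := cc_C p (1 : k)
  rwa [map_one] at this

lemma cc_linear (hodd : Odd p) (a : k) :
    cc p (algebraMap k[X] (RatFunc k) (X - C a)) = 0 := by
  have e : der k (algebraMap k[X] (RatFunc k) (X - C a)) /
      algebraMap k[X] (RatFunc k) (X - C a) = (algebraMap k[X] (RatFunc k) (X - C a))⁻¹ := by
    rw [der_algebraMap]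
    simp
  rw [cc, e, cartier_linear p hodd]
  ring

lemma cc_poly [IsAlgClosed k] (hodd : Odd p) (f : k[X]) (hf : f ≠ 0) :
    cc p (algebraMap k[X] (RatFunc k) f) = 0 := by
  have hs := IsAlgClosed.splits f
  have h := hs.eq_prod_roots
  rw [h]
  have key : ∀ s : Multiset k,
      cc p (algebraMap k[X] (RatFunc k) ((s.map (fun a => X - C a)).prod)) = 0 ∧
      algebraMap k[X] (RatFunc k) ((s.map (fun a => X - C a)).prod) ≠ 0 := by
    intro s
    induction s using Multiset.induction_on with
    | empty => simp [cc_one]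
    | cons a s ih =>
      rw [Multiset.map_cons, Multiset.prod_cons, map_mul]
      have h1 := algebraMap_ne (X_sub_C_ne_zero a)
      refine ⟨?_, mul_ne_zero h1 ih.2⟩
      rw [cc_mul p _ _ h1 ih.2, ih.1, cc_linear p hodd, add_zero]
  have hlc : f.leadingCoeff ≠ 0 := leadingCoeff_ne_zero.2 hf
  rw [map_mul, RatFunc.algebraMap_C, cc_mul p _ _ ((_root_.map_ne_zero _).2 hlc) (key _).2, cc_C,
    (key _).1, add_zero]

lemma cartier_log [IsAlgClosed k] (hodd : Odd p) (f : RatFunc k) (hf : f ≠ 0) :
    (der k)^[p - 1] (der k f / f) = - (der k f / f) ^ p := by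
  obtain ⟨n, q, hq, rfl⟩ := exists_div f
  have hn : n ≠ 0 := by
    rintro rfl
    simp at hf
  have h1 := algebraMap_ne hn
  have h2 := algebraMap_ne hq
  have h3 : cc p (algebraMap k[X] (RatFunc k) n / algebraMap k[X] (RatFunc k) q) = 0 := by
    have h := cc_mul p (algebraMap k[X] (RatFunc k) n / algebraMap k[X] (RatFunc k) q)
      (algebraMap k[X] (RatFunc k) q) (div_ne_zero h1 h2) h2
    rw [div_mul_cancel₀ _ h2, cc_poly p hodd _ hn, cc_poly p hodd _ hq, add_zero] at h
    exact h.symm
  rw [cc] at h3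
  exact eq_neg_of_add_eq_zero_left h3

end DER

end Pool.Agent.Helper23.K6
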