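import Mathlib
import Pool.Agent.Helper23.K6.Der

/-!
`D * gg P` is a polynomial of small degree.
-/

namespace Pool.Agent.Helper23.K6

open Polynomial Pool.Agent.Helper44

section generic

variable {K : Type*} [Field K]

/-- The basic relations for `g = gg P`. -/
lemma gg_rel (d : DerZ K) (D : K) (h2 : (2 : K) ≠ 0) (h3 : (3 : K) ≠ 0) (hD : D ≠ 0) (x y g : K)
    (hy : y ≠ 0) (hxy : y ^ 2 = x ^ 3 + D ^ 2) (hg : g = (d x - 2 / 3 * (d D / D) * x) / y) :
    d x = g * y + 2 / 3 * (d D / D) * x ∧ d y = 3 / 2 * x ^ 2 * g + d D / D * y := by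
  have h1 : d x = g * y + 2 / 3 * (d D / D) * x := by
    rw [hg]
    field_simp
    ring
  refine ⟨h1, ?_⟩
  have h := congrArg d hxy
  rw [map_add, dz_pow, dz_pow, dz_pow, h1] at h
  simp only [Nat.cast_ofNat] at h
  norm_num at h
  have h' : 2 * y * (d y - (3 / 2 * x ^ 2 * g + d D / D * y)) = 0 := by
    have e : d D / D * D = d D := div_mul_cancel₀ _ hD
    field_simp
    field_simp at h
    linear_combination h + (-2 * d D * D) * hxy * 0 + (-2 * d D) * hxy
  rcases mul_eq_zero.1 h' with h'' | h''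
  · exact absurd h'' (mul_ne_zero h2 hy)
  · exact sub_eq_zero.1 h''

end generic

section generic2

variable {K : Type*} [Field K]

/-- The cubic coordinates `A = (D + θ y / 3) / x`, `B = (θ y / 3 - D) / x`. -/
lemma cubic_rel (D θ x y : K) (h3 : (3 : K) ≠ 0) (hθ : θ ^ 2 = -3) (hx : x ≠ 0)
    (hxy : y ^ 2 = x ^ 3 + D ^ 2) :
    ((θ * y / 3 - D) / x) ^ 3 = ((D + θ * y / 3) / x) ^ 3 + 2 * D := by
  have e : y ^ 2 = x ^ 3 + D ^ 2 := hxy
  have h27 : (27 : K) ≠ 0 := by
    have : (27 : K) = 3 ^ 3 := by norm_num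
    rw [this]; exact pow_ne_zero _ h3
  field_simp
  linear_combination (-18 * D * y ^ 2) * hθ + 54 * D * e

lemma cubic_der (d : DerZ K) (D θ x y g : K) (h2 : (2 : K) ≠ 0) (h3 : (3 : K) ≠ 0) (hD : D ≠ 0)
    (hθ : θ ^ 2 = -3) (hdθ : d θ = 0) (hx : x ≠ 0) (hy : y ≠ 0) (hxy : y ^ 2 = x ^ 3 + D ^ 2)
    (hg : g = (d x - 2 / 3 * (d D / D) * x) / y) (s : K) (hs : s ^ 2 = 1) :
    D * d ((θ * y / 3 + s * D) / x) - d D * ((θ * y / 3 + s * D) / x) / 3 =
      -(θ / 2) * (D * g) * ((θ * y / 3 - s * D) / x) ^ 2 := by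
  obtain ⟨h1, h4⟩ := gg_rel d D h2 h3 hD x y g hy hxy hg
  have hds : d s = 0 := by
    have h := congrArg d hs
    rw [dz_pow, dz_one] at h
    have hs0 : s ≠ 0 := by
      rintro rfl
      simp at hs
    simp only [Nat.cast_ofNat] at h
    norm_num at h
    rcases h with (h | h) | h
    · exact absurd h h2
    · exact absurd h hs0
    · exact h
  have hd3 : d (3 : K) = 0 := by
    have := dz_natCast d 3
    simpa using this
  have e1 : d ((θ * y / 3 + s * D) / x) =
      ((θ * d y / 3 + s * d D) * x - (θ * y / 3 + s * D) * d x) / x ^ 2 := by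
    rw [dz_div d _ _ hx, map_add, dz_div d _ _ h3, dz_mul, dz_mul, hdθ, hds, hd3]
    field_simp
    ring
  rw [e1, h1, h4]
  have hx3 : x ^ 3 = y ^ 2 - D ^ 2 := by rw [hxy]; ring
  field_simp
  ring_nf
  simp only [hθ, hs, hx3, show θ ^ 3 = -3 * θ by rw [pow_succ, hθ]]
  ring_nf
  try simp only [hθ, hs, hx3]
  try ring_nf

end generic2

section poly

variable {k : Type*} [Field k]

lemma natDegree_Dp (α γ : k) (hα : α ≠ 0) (m : ℕ) (hm : 0 < m) : (Dp α γ m).natDegree = m := by
  rw [Dp, natDegree_C_mul hα, natDegree_X_pow_sub_C]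

lemma Dp_ne_zero (α γ : k) (hα : α ≠ 0) (m : ℕ) (hm : 0 < m) : Dp α γ m ≠ 0 := by
  intro h
  have := natDegree_Dp α γ hα m hm
  rw [h, natDegree_zero] at this
  omega

lemma DD_ne_zero (α γ : k) (hα : α ≠ 0) (m : ℕ) (hm : 0 < m) : DD α γ m ≠ 0 :=
  algebraMap_ne (Dp_ne_zero α γ hα m hm)

lemma not_sq_dvd_Dp (α γ : k) (hα : α ≠ 0) (hγ : γ ≠ 0) (m : ℕ) (hm : (m : k) ≠ 0) (z : k[X])
    (hz : Prime z) : ¬ z * z ∣ Dp α γ m := by
  intro h
  have h1 : z * z ∣ X ^ m - C γ := by
    have hu : IsUnit (C α) := isUnit_C.2 (isUnit_iff_ne_zero.2 hα)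
    rw [Dp] at h
    exact (hu.dvd_mul_left).1 h
  have hs := (separable_X_pow_sub_C γ hm hγ).squarefree
  exact hz.not_isUnit (hs z h1)

lemma pos_of_cast_ne {m : ℕ} (hm : (m : k) ≠ 0) : 0 < m := by
  rcases Nat.eq_zero_or_pos m with rfl | h
  · simp at hm
  · exact h

/-- An element of `k(t)` whose power is a polynomial is a polynomial. -/
lemma exists_poly_of_pow (f : RatFunc k) (n : ℕ) (hn : 0 < n) (g : k[X])
    (h : f ^ n = algebraMap k[X] (RatFunc k) g) : ∃ F : k[X], algebraMap k[X] (RatFunc k) F = f := by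
  apply IsIntegrallyClosed.exists_algebraMap_eq_of_isIntegral_pow hn
  rw [h]
  exact isIntegral_algebraMap

lemma no_two_torsion (α γ : k) (hα : α ≠ 0) (hγ : γ ≠ 0) (m : ℕ) (hm : (m : k) ≠ 0)
    (x : RatFunc k) : x ^ 3 + (DD α γ m) ^ 2 ≠ 0 := by
  intro h
  have hm0 := pos_of_cast_ne hm
  have h1 : x ^ 3 = algebraMap k[X] (RatFunc k) (-(Dp α γ m) ^ 2) := by
    rw [map_neg, map_pow]
    exact eq_neg_of_add_eq_zero_left h
  obtain ⟨F, rfl⟩ := exists_poly_of_pow x 3 (by norm_num) _ h1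
  rw [← map_pow] at h1
  have h2 := RatFunc.algebraMap_injective k h1
  have hnu : ¬ IsUnit (Dp α γ m) := by
    intro hu
    have := natDegree_eq_zero_of_isUnit hu
    rw [natDegree_Dp α γ hα m hm0] at this
    omega
  obtain ⟨z, hz, hzd⟩ := WfDvdMonoid.exists_irreducible_factor hnu (Dp_ne_zero α γ hα m hm0)
  have hzp : Prime z := hz.prime
  obtain ⟨D1, hD1⟩ := hzd
  have h3 : z ∣ F := by
    apply hzp.dvd_of_dvd_pow (n := 3)
    rw [h2, dvd_neg, hD1]
    exact Dvd.intro _ (by ring : z * (z * D1 ^ 2) = (z * D1) ^ 2)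
  obtain ⟨G, rfl⟩ := h3
  have h4 : z ∣ D1 := by
    apply hzp.dvd_of_dvd_pow (n := 2)
    refine ⟨-G ^ 3, ?_⟩
    have hz2 : z ^ 2 ≠ 0 := pow_ne_zero _ hzp.ne_zero
    apply mul_left_cancel₀ hz2
    rw [hD1] at h2
    linear_combination h2
  obtain ⟨D2, rfl⟩ := h4
  apply not_sq_dvd_Dp α γ hα hγ m hm z hzp
  rw [hD1]
  exact Dvd.intro _ (by ring : z * z * D2 = z * (z * D2))

lemma xder (f : k[X]) (n : ℕ) (hf : f.natDegree ≤ n) :
    (X * derivative f).natDegree ≤ n ∧ (X * derivative f).coeff n = n * f.coeff n := by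
  have hc : ∀ i, (X * derivative f).coeff i = i * f.coeff i := by
    intro i
    cases i with
    | zero => simp
    | succ i =>
      rw [coeff_X_mul, coeff_derivative]
      push_cast
      ring
  refine ⟨?_, hc n⟩
  rw [natDegree_le_iff_coeff_eq_zero]
  intro i hi
  rw [hc, coeff_eq_zero_of_natDegree_lt (lt_of_le_of_lt hf hi), mul_zero]

/-- The degree estimate. -/
lemma deg_lemma (h3 : (3 : k) ≠ 0) (D a b e H : k[X]) (l N : ℕ) (hl : 0 < l)
    (hD : D.natDegree ≤ 3 * l) (ha : a.natDegree ≤ N) (hb : b.natDegree = N) (hb0 : b ≠ 0)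
    (hlN : l ≤ N) (he : e.natDegree ≤ N - l) (c : k)
    (hH : H * b ^ 2 = C c * (D * (derivative a * e - a * derivative e) -
      C (1 / 3) * (derivative D * a * e))) : H.natDegree < 2 * l - 1 := by
  by_cases hH0 : H = 0
  · rw [hH0, natDegree_zero]; omega
  obtain ⟨E, hE⟩ : ∃ E, N = E + l := ⟨N - l, by omega⟩
  have he' : e.natDegree ≤ E := by omega
  obtain ⟨hD1, hD2⟩ := xder D (3 * l) hD
  obtain ⟨ha1, ha2⟩ := xder a N ha
  obtain ⟨he1, he2⟩ := xder e E he'
  have key : X * (H * b ^ 2) = C c * (D * ((X * derivative a) * e - a * (X * derivative e)) -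
      C (1 / 3) * ((X * derivative D) * (a * e))) := by
    rw [hH]; ring
  have d1 : ((X * derivative a) * e - a * (X * derivative e)).natDegree ≤ N + E := by
    refine (natDegree_sub_le _ _).trans (max_le ?_ ?_)
    · exact natDegree_mul_le.trans (add_le_add ha1 he')
    · exact natDegree_mul_le.trans (add_le_add ha he1)
  have c1 : ((X * derivative a) * e - a * (X * derivative e)).coeff (N + E) =
      (N : k) * a.coeff N * e.coeff E - a.coeff N * (E * e.coeff E) := by
    rw [coeff_sub, coeff_mul_add_eq_of_natDegree_le ha1 he', coeff_mul_add_eq_of_natDegree_le ha he1, ha2, he2]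
  have d2 : (a * e).natDegree ≤ N + E := natDegree_mul_le.trans (add_le_add ha he')
  have c2 : (a * e).coeff (N + E) = a.coeff N * e.coeff E := coeff_mul_add_eq_of_natDegree_le ha he'
  have d3 : (C c * (D * ((X * derivative a) * e - a * (X * derivative e)) -
      C (1 / 3) * ((X * derivative D) * (a * e)))).natDegree ≤ 3 * l + (N + E) := by
    refine (natDegree_C_mul_le _ _).trans ((natDegree_sub_le _ _).trans (max_le ?_ ?_))
    · exact natDegree_mul_le.trans (add_le_add hD d1)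
    · refine (natDegree_C_mul_le _ _).trans ?_
      exact natDegree_mul_le.trans (add_le_add hD1 d2)
  have c3 : (C c * (D * ((X * derivative a) * e - a * (X * derivative e)) -
      C (1 / 3) * ((X * derivative D) * (a * e)))).coeff (3 * l + (N + E)) = 0 := by
    rw [coeff_C_mul, coeff_sub, coeff_C_mul, coeff_mul_add_eq_of_natDegree_le hD d1,
      coeff_mul_add_eq_of_natDegree_le hD1 d2, c1, c2, hD2, hE]
    push_cast
    field_simp
    ring
  rw [← key] at d3 c3
  have hne : X * (H * b ^ 2) ≠ 0 := mul_ne_zero X_ne_zero (mul_ne_zero hH0 (pow_ne_zero _ hb0))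
  have hlt : (X * (H * b ^ 2)).natDegree < 3 * l + (N + E) := by
    refine lt_of_le_of_ne d3 ?_
    intro h
    rw [← h] at c3
    exact hne (leadingCoeff_eq_zero.1 c3)
  rw [natDegree_mul X_ne_zero (mul_ne_zero hH0 (pow_ne_zero _ hb0)), natDegree_X,
    natDegree_mul hH0 (pow_ne_zero _ hb0), natDegree_pow, hb] at hlt
  omega

/-- The polynomial data of a point with `x ≠ 0`. -/
lemma exists_abe (θ : k) (hθ : θ ^ 2 = -3) (h2 : (2 : k) ≠ 0) (h3 : (3 : k) ≠ 0)
    (α γ : k) (hα : α ≠ 0) (hγ : γ ≠ 0) (m : ℕ) (hm : (m : k) ≠ 0)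
    (x y : RatFunc k) (hx : x ≠ 0) (hxy : y ^ 2 = x ^ 3 + (DD α γ m) ^ 2) :
    ∃ a b e : k[X], e ≠ 0 ∧ b ^ 3 = a ^ 3 + 2 * Dp α γ m * e ^ 3 ∧ IsCoprime a b ∧
      (RatFunc.C θ * y / 3 + DD α γ m) / x =
        algebraMap k[X] (RatFunc k) a / algebraMap k[X] (RatFunc k) e ∧
      (RatFunc.C θ * y / 3 - DD α γ m) / x =
        algebraMap k[X] (RatFunc k) b / algebraMap k[X] (RatFunc k) e := by
  have h3' := three_ne_zero_ratFunc h3
  have hθ' : (RatFunc.C θ : RatFunc k) ^ 2 = -3 := by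
    rw [← map_pow, hθ, map_neg, map_ofNat]
  obtain ⟨A, hA⟩ : ∃ A, A = (RatFunc.C θ * y / 3 + DD α γ m) / x := ⟨_, rfl⟩
  obtain ⟨B, hB⟩ : ∃ B, B = (RatFunc.C θ * y / 3 - DD α γ m) / x := ⟨_, rfl⟩
  have hAB : B ^ 3 = A ^ 3 + 2 * DD α γ m := by
    rw [hA, hB, add_comm (RatFunc.C θ * y / 3)]
    exact cubic_rel (DD α γ m) (RatFunc.C θ) x y h3' hθ' hx hxy
  have he := RatFunc.denom_ne_zero A
  have he' := algebraMap_ne he
  have hAe : A = algebraMap k[X] (RatFunc k) A.num / algebraMap k[X] (RatFunc k) A.denom :=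
    (RatFunc.num_div_denom A).symm
  have h1 : (B * algebraMap k[X] (RatFunc k) A.denom) ^ 3 =
      algebraMap k[X] (RatFunc k) (A.num ^ 3 + 2 * Dp α γ m * A.denom ^ 3) := by
    rw [mul_pow, hAB]
    simp only [map_add, map_mul, map_pow, map_ofNat]
    rw [← DD]
    have : A * algebraMap k[X] (RatFunc k) A.denom = algebraMap k[X] (RatFunc k) A.num :=
      (div_eq_iff he').1 (RatFunc.num_div_denom A) |>.symm
    rw [← this]
    ring
  obtain ⟨b, hb⟩ := exists_poly_of_pow _ 3 (by norm_num) _ h1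
  rw [← hb, ← map_pow] at h1
  have h4 := RatFunc.algebraMap_injective k h1
  refine ⟨A.num, b, A.denom, he, h4, ?_, ?_, ?_⟩
  · apply isCoprime_of_prime_dvd
    · rintro ⟨ha0, hb0⟩
      rw [ha0, hb0] at h4
      have : 2 * Dp α γ m * A.denom ^ 3 = 0 := by
        rw [zero_pow (by norm_num), zero_add] at h4
        exact h4.symm
      have h2' : (2 : k[X]) ≠ 0 := by
        have : (2 : k[X]) = C 2 := (map_ofNat C 2).symm
        rw [this]; exact C_ne_zero.2 h2
      exact mul_ne_zero (mul_ne_zero h2' (Dp_ne_zero α γ hα m (pos_of_cast_ne hm)))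
        (pow_ne_zero _ he) this
    · intro z hz hza hzb
      have hcop : IsCoprime A.num A.denom := RatFunc.isCoprime_num_denom A
      have hze : IsCoprime z A.denom := IsCoprime.of_isCoprime_of_dvd_left hcop hza
      obtain ⟨a1, ha1⟩ := hza
      obtain ⟨b1, hb1⟩ := hzb
      have h5 : z ^ 3 ∣ (2 * Dp α γ m) * A.denom ^ 3 := by
        refine ⟨b1 ^ 3 - a1 ^ 3, ?_⟩
        rw [hb1, ha1] at h4
        linear_combination -h4
      have h6 : z ^ 3 ∣ 2 * Dp α γ m := (hze.pow).dvd_of_dvd_mul_right h5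
      have h7 : z * z ∣ 2 * Dp α γ m := dvd_trans ⟨z, by ring⟩ h6
      have hu : IsUnit (2 : k[X]) := by
        have : (2 : k[X]) = C 2 := (map_ofNat C 2).symm
        rw [this, isUnit_C]
        exact isUnit_iff_ne_zero.2 h2
      exact not_sq_dvd_Dp α γ hα hγ m hm z hz ((hu.dvd_mul_left).1 h7)
  · rw [← hA]; exact hAe
  · rw [← hB, hb]
    field_simp

lemma y_ne_zero_of (α γ : k) (hα : α ≠ 0) (hγ : γ ≠ 0) (m : ℕ) (hm : (m : k) ≠ 0)
    (x y : RatFunc k) (hxy : y ^ 2 = x ^ 3 + (DD α γ m) ^ 2) : y ≠ 0 := by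
  rintro rfl
  apply no_two_torsion α γ hα hγ m hm x
  rw [← hxy]
  ring

theorem exists_poly (θ : k) (hθ : θ ^ 2 = -3) (h2 : (2 : k) ≠ 0) (h3 : (3 : k) ≠ 0)
    (α γ : k) (hα : α ≠ 0) (hγ : γ ≠ 0) (l : ℕ) (hl : ((3 * l : ℕ) : k) ≠ 0)
    (P : Pt (DD α γ (3 * l))) :
    ∃ H : k[X], H.natDegree < 2 * l - 1 ∧
      DD α γ (3 * l) * gg (der k) (DD α γ (3 * l)) P = algebraMap k[X] (RatFunc k) H := by
  have hl0 : 0 < l := by
    have := pos_of_cast_ne hl
    omega
  cases P with
  | zero =>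
    refine ⟨0, by rw [natDegree_zero]; omega, ?_⟩
    show DD α γ (3 * l) * 0 = _
    rw [mul_zero, map_zero]
  | some x y hns =>
    have hxy : y ^ 2 = x ^ 3 + (DD α γ (3 * l)) ^ 2 := (mordell_equation _ _ _).1 hns.1
    have hy := y_ne_zero_of α γ hα hγ (3 * l) hl x y hxy
    by_cases hx : x = 0
    · refine ⟨0, by rw [natDegree_zero]; omega, ?_⟩
      show DD α γ (3 * l) * ((der k x - _ * x) / y) = _
      rw [hx, map_zero, map_zero, mul_zero, sub_zero, zero_div, mul_zero]
    · have h2' := two_ne_zero_ratFunc h2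
      have h3' := three_ne_zero_ratFunc h3
      have hD := DD_ne_zero α γ hα (3 * l) (by omega)
      have hθ' : (RatFunc.C θ : RatFunc k) ^ 2 = -3 := by
        rw [← map_pow, hθ, map_neg, map_ofNat]
      have hθ0 : θ ≠ 0 := by
        rintro rfl
        apply h3
        linear_combination hθ
      obtain ⟨g, hg⟩ : ∃ g, g = (der k x - 2 / 3 * (der k (DD α γ (3 * l)) /
        DD α γ (3 * l)) * x) / y := ⟨_, rfl⟩
      have hgg : gg (der k) (DD α γ (3 * l)) (.some x y hns) = g := hg.symm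
      rw [hgg]
      have e1 := cubic_der (der k) (DD α γ (3 * l)) (RatFunc.C θ) x y g h2' h3' hD hθ'
        (der_C θ) hx hy hxy hg 1 (by norm_num)
      have e2 := cubic_der (der k) (DD α γ (3 * l)) (RatFunc.C θ) x y g h2' h3' hD hθ'
        (der_C θ) hx hy hxy hg (-1) (by norm_num)
      obtain ⟨a, b, e, he, habe, hcop, hA, hB⟩ := exists_abe θ hθ h2 h3 α γ hα hγ (3 * l) hl x y
        hx hxy
      have i1 : (RatFunc.C θ * y / 3 + 1 * DD α γ (3 * l)) / x =
          algebraMap k[X] (RatFunc k) a / algebraMap k[X] (RatFunc k) e := by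
        rw [one_mul]; exact hA
      have i2 : (RatFunc.C θ * y / 3 - 1 * DD α γ (3 * l)) / x =
          algebraMap k[X] (RatFunc k) b / algebraMap k[X] (RatFunc k) e := by
        rw [one_mul]; exact hB
      have i3 : (RatFunc.C θ * y / 3 + -1 * DD α γ (3 * l)) / x =
          algebraMap k[X] (RatFunc k) b / algebraMap k[X] (RatFunc k) e := by
        rw [← hB]; ring
      have i4 : (RatFunc.C θ * y / 3 - -1 * DD α γ (3 * l)) / x =
          algebraMap k[X] (RatFunc k) a / algebraMap k[X] (RatFunc k) e := by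
        rw [← hA]; ring
      rw [i1, i2, der_div _ _ he, DD, der_algebraMap, ← DD] at e1
      rw [i3, i4, der_div _ _ he, DD, der_algebraMap, ← DD] at e2
      obtain ⟨G, hG⟩ : ∃ G, G = DD α γ (3 * l) * g := ⟨_, rfl⟩
      rw [← hG] at e1 e2 ⊢
      have he' := algebraMap_ne he
      have hθC : (RatFunc.C θ : RatFunc k) ≠ 0 := (_root_.map_ne_zero _).2 hθ0
      have hcC : (RatFunc.C (-(2 / θ)) : RatFunc k) = -(2 / RatFunc.C θ) := by
        rw [map_neg, map_div₀, map_ofNat]
      have h13 : (RatFunc.C (1 / 3) : RatFunc k) = 1 / 3 := by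
        rw [map_div₀, map_one, map_ofNat]
      have f1 : G * algebraMap k[X] (RatFunc k) (b ^ 2) = algebraMap k[X] (RatFunc k)
          (C (-(2 / θ)) * (Dp α γ (3 * l) * (derivative a * e - a * derivative e) -
            C (1 / 3) * (derivative (Dp α γ (3 * l)) * a * e))) := by
        simp only [map_mul, map_sub, map_pow, RatFunc.algebraMap_C]
        rw [hcC, h13]
        simp only [map_mul, map_sub] at e1
        rw [DD] at e1
        field_simp at e1 ⊢
        linear_combination e1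
      have f2 : G * algebraMap k[X] (RatFunc k) (a ^ 2) = algebraMap k[X] (RatFunc k)
          (C (-(2 / θ)) * (Dp α γ (3 * l) * (derivative b * e - b * derivative e) -
            C (1 / 3) * (derivative (Dp α γ (3 * l)) * b * e))) := by
        simp only [map_mul, map_sub, map_pow, RatFunc.algebraMap_C]
        rw [hcC, h13]
        simp only [map_mul, map_sub] at e2
        rw [DD] at e2
        field_simp at e2 ⊢
        linear_combination e2
      obtain ⟨u, v, huv⟩ : IsCoprime (a ^ 2) (b ^ 2) := hcop.pow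
      have hH : ∃ H : k[X], G = algebraMap k[X] (RatFunc k) H := by
        refine ⟨u * (C (-(2 / θ)) * (Dp α γ (3 * l) * (derivative b * e - b * derivative e) -
            C (1 / 3) * (derivative (Dp α γ (3 * l)) * b * e))) +
            v * (C (-(2 / θ)) * (Dp α γ (3 * l) * (derivative a * e - a * derivative e) -
            C (1 / 3) * (derivative (Dp α γ (3 * l)) * a * e))), ?_⟩
        rw [map_add, map_mul (algebraMap k[X] (RatFunc k)) u, map_mul (algebraMap k[X] (RatFunc k)) v,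
          ← f1, ← f2]
        have huv' := congrArg (algebraMap k[X] (RatFunc k)) huv
        rw [map_add, map_mul, map_mul, map_one] at huv'
        linear_combination (-G) * huv'
      obtain ⟨H, hH⟩ := hH
      refine ⟨H, ?_, hH⟩
      rw [hH, ← map_mul] at f1 f2
      have f1' := RatFunc.algebraMap_injective k f1
      have f2' := RatFunc.algebraMap_injective k f2
      have hDdeg : (Dp α γ (3 * l)).natDegree = 3 * l := natDegree_Dp α γ hα _ (by omega)
      have hD0 := Dp_ne_zero α γ hα (3 * l) (by omega)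
      have h22 : (2 : k[X]) = C 2 := (map_ofNat C 2).symm
      have hdeg2 : (2 * Dp α γ (3 * l) * e ^ 3).natDegree = 3 * l + 3 * e.natDegree := by
        rw [mul_assoc, h22, natDegree_C_mul h2, natDegree_mul hD0 (pow_ne_zero _ he),
          natDegree_pow, hDdeg]
      have hdeg3 : 2 * Dp α γ (3 * l) * e ^ 3 = b ^ 3 - a ^ 3 := by
        linear_combination -habe
      have hdeg4 : 3 * l + 3 * e.natDegree ≤ max (3 * b.natDegree) (3 * a.natDegree) := by
        rw [← hdeg2, hdeg3, ← natDegree_pow, ← natDegree_pow]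
        exact natDegree_sub_le _ _
      rcases le_total a.natDegree b.natDegree with hle | hle
      · have hmax : max (3 * b.natDegree) (3 * a.natDegree) = 3 * b.natDegree := by omega
        rw [hmax] at hdeg4
        have hb0 : b ≠ 0 := by
          rintro rfl
          rw [natDegree_zero] at hdeg4
          omega
        exact deg_lemma h3 (Dp α γ (3 * l)) a b e H l b.natDegree hl0 hDdeg.le hle rfl hb0
          (by omega) (by omega) _ f1'
      · have hmax : max (3 * b.natDegree) (3 * a.natDegree) = 3 * a.natDegree := by omega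
        rw [hmax] at hdeg4
        have ha0 : a ≠ 0 := by
          rintro rfl
          rw [natDegree_zero] at hdeg4
          omega
        exact deg_lemma h3 (Dp α γ (3 * l)) b a e H l a.natDegree hl0 hDdeg.le hle rfl ha0
          (by omega) (by omega) _ f2'

end poly

end Pool.Agent.Helper23.K6
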