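import Mathlib
import Pool.Agent.Helper23.K6.Poly

/-!
The kernel of `gg` is the image of the Frobenius endomorphism `piE`.
-/

namespace Pool.Agent.Helper23.K6

open Polynomial Pool.Agent.Helper44

section KER

variable {k : Type*} [Field k] [DecidableEq (RatFunc k)] (p : ℕ) [hp : Fact p.Prime] [CharP k p]

theorem exists_piE [PerfectRing k p] (h2 : (2 : k) ≠ 0) (h3 : (3 : k) ≠ 0)
    (D : RatFunc k) (hD : D ≠ 0) (hp3 : p % 3 = 1) (hno : ∀ x : RatFunc k, x ^ 3 + D ^ 2 ≠ 0)
    (P : Pt D) (hP : gg (der k) D P = 0) :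
    ∃ P₁, piE p D hD hp3 P₁ = P := by
  haveI := charP_ratFunc (k := k) p
  cases P with
  | zero => exact ⟨.zero, rfl⟩
  | some x y hns =>
    have h2' := two_ne_zero_ratFunc h2
    have h3' := three_ne_zero_ratFunc h3
    have hxy : y ^ 2 = x ^ 3 + D ^ 2 := (mordell_equation _ _ _).1 hns.1
    have hy : y ≠ 0 := by
      rintro rfl
      apply hno x
      rw [← hxy]; ring
    obtain ⟨M, hM⟩ : ∃ M, p = 3 * M + 1 := ⟨p / 3, by omega⟩
    have hM0 : 0 < M := by
      have := hp.out.one_lt
      omega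
    have hMp : (p - 1) / 3 = M := by omega
    have hMp' : p - 1 = 3 * M := by omega
    have hcast : 3 * (M : RatFunc k) = -1 := by
      have h := CharP.cast_eq_zero (RatFunc k) p
      rw [hM] at h
      push_cast at h
      linear_combination h
    obtain ⟨h1, h4⟩ := gg_rel (der k) D h2' h3' hD x y 0 hy hxy hP.symm
    rw [zero_mul, zero_add] at h1
    rw [mul_zero, zero_add] at h4
    have e1 : der k (x * D ^ (2 * M)) = 0 := by
      rw [dz_mul, dz_pow, h1]
      have e : D ^ (2 * M) = D ^ (2 * M - 1) * D := by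
        rw [← pow_succ]; congr 1; omega
      rw [e]
      push_cast
      field_simp
      linear_combination (x * D ^ (2 * M - 1) * (der k D) * 2) * hcast
    have e2 : der k (y * D ^ (3 * M)) = 0 := by
      rw [dz_mul, dz_pow, h4]
      have e : D ^ (3 * M) = D ^ (3 * M - 1) * D := by
        rw [← pow_succ]; congr 1; omega
      rw [e]
      push_cast
      field_simp
      linear_combination (y * D ^ (3 * M - 1) * (der k D)) * hcast
    obtain ⟨X₁, hX⟩ := exists_pow_of_der_eq_zero p _ e1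
    obtain ⟨Y₁, hY⟩ := exists_pow_of_der_eq_zero p _ e2
    have hcurve : Y₁ ^ 2 = X₁ ^ 3 + D ^ 2 := by
      apply frobenius_inj (RatFunc k) p
      rw [map_add, map_pow, map_pow, map_pow]
      simp only [frobenius_def]
      rw [hX, hY]
      have : D ^ p = D ^ (3 * M) * D := by rw [hM, pow_succ]
      rw [this]
      have e3 : (D ^ (2 * M)) ^ 3 = (D ^ (3 * M)) ^ 2 := by
        rw [← pow_mul, ← pow_mul]; congr 1; ring
      linear_combination (D ^ (3 * M)) ^ 2 * hxy - x ^ 3 * e3
    have hns₁ := mordell_nonsingular (D ^ 2) X₁ Y₁ (pow_ne_zero 2 hD) h2' h3' hcurve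
    refine ⟨.some X₁ Y₁ hns₁, ?_⟩
    obtain ⟨hns', h5⟩ := piE_some p D hD hp3 X₁ Y₁ hns₁
    rw [h5]
    simp only [WeierstrassCurve.Affine.Point.some.injEq]
    rw [hX, hY, hMp, hMp']
    exact ⟨mul_div_cancel_right₀ _ (pow_ne_zero _ hD), mul_div_cancel_right₀ _ (pow_ne_zero _ hD)⟩

end KER

end Pool.Agent.Helper23.K6
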