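import Mathlib
import Pool.Agent.Helper23.K6.Ker
import Pool.Agent.Helper44.K6.Log

/-!
The polynomial `h(P)`, its coefficient vector, and the operators `opZ`.
-/

namespace Pool.Agent.Helper23.K6

open Polynomial Pool.Agent.Helper44

section HH

variable {k : Type*} [Field k] [DecidableEq (RatFunc k)]

omit [DecidableEq (RatFunc k)] in
/-- The standing hypotheses. -/
structure Good (p : ℕ) (α γ : k) (l : ℕ) : Prop where
  hp3 : p % 3 = 1
  hα : α ≠ 0
  hγ : γ ≠ 0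
  hl : (l : k) ≠ 0
  hθ : ∃ θ : k, θ ^ 2 = -3
  h2 : (2 : k) ≠ 0
  h3 : (3 : k) ≠ 0

/-- The polynomial `h(P)`. -/
noncomputable def HH (α γ : k) (l : ℕ) (P : Pt (DD α γ (3 * l))) : k[X] :=
  open Classical in
  if h : ∃ H : k[X], H.natDegree < 2 * l - 1 ∧
      DD α γ (3 * l) * gg (der k) (DD α γ (3 * l)) P = algebraMap k[X] (RatFunc k) H
  then h.choose else 0

/-- The coefficient vector of `h(P)`. -/
noncomputable def hv (α γ : k) (l : ℕ) (P : Pt (DD α γ (3 * l))) (j : ZMod (3 * l)) : k :=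
  if j.val = 0 then 0 else (HH α γ l P).coeff (j.val - 1)

variable {p : ℕ} {α γ : k} {l : ℕ}

omit [DecidableEq (RatFunc k)] in
lemma Good.hl3 (hG : Good p α γ l) : ((3 * l : ℕ) : k) ≠ 0 := by
  push_cast
  exact mul_ne_zero hG.h3 hG.hl

omit [DecidableEq (RatFunc k)] in
lemma Good.hl0 (hG : Good p α γ l) : 0 < l := pos_of_cast_ne hG.hl

omit [DecidableEq (RatFunc k)] in
lemma Good.hD (hG : Good p α γ l) : DD α γ (3 * l) ≠ 0 :=
  DD_ne_zero α γ hG.hα (3 * l) (by have := hG.hl0; omega)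

omit [DecidableEq (RatFunc k)] in
lemma Good.hno (hG : Good p α γ l) (x : RatFunc k) : x ^ 3 + (DD α γ (3 * l)) ^ 2 ≠ 0 :=
  no_two_torsion α γ hG.hα hG.hγ (3 * l) hG.hl3 x

omit [DecidableEq (RatFunc k)] in
lemma HH_spec (hG : Good p α γ l) (P : Pt (DD α γ (3 * l))) :
    (HH α γ l P).natDegree < 2 * l - 1 ∧
      DD α γ (3 * l) * gg (der k) (DD α γ (3 * l)) P =
        algebraMap k[X] (RatFunc k) (HH α γ l P) := by
  obtain ⟨θ, hθ⟩ := hG.hθ
  have h := exists_poly θ hθ hG.h2 hG.h3 α γ hG.hα hG.hγ l hG.hl3 P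
  rw [HH, dif_pos h]
  exact h.choose_spec

omit [DecidableEq (RatFunc k)] in
lemma HH_eq (hG : Good p α γ l) (P : Pt (DD α γ (3 * l))) (H : k[X])
    (h : DD α γ (3 * l) * gg (der k) (DD α γ (3 * l)) P = algebraMap k[X] (RatFunc k) H) :
    HH α γ l P = H := by
  apply RatFunc.algebraMap_injective k
  rw [← h, (HH_spec hG P).2]

lemma HH_add (hG : Good p α γ l) (P Q : Pt (DD α γ (3 * l))) :
    HH α γ l (P + Q) = HH α γ l P + HH α γ l Q := by
  apply HH_eq hG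
  rw [gg_add (der k) _ (two_ne_zero_ratFunc hG.h2) (three_ne_zero_ratFunc hG.h3) hG.hD hG.hno,
    mul_add, (HH_spec hG P).2, (HH_spec hG Q).2, map_add]

lemma hv_add (hG : Good p α γ l) (P Q : Pt (DD α γ (3 * l))) (j : ZMod (3 * l)) :
    hv α γ l (P + Q) j = hv α γ l P j + hv α γ l Q j := by
  simp only [hv]
  split_ifs
  · rw [add_zero]
  · rw [HH_add hG, coeff_add]

/-- `hv` as an additive homomorphism. -/
noncomputable def hvHom (hG : Good p α γ l) : Pt (DD α γ (3 * l)) →+ (ZMod (3 * l) → k) where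
  toFun P := hv α γ l P
  map_zero' := by
    have h := fun j => hv_add hG (0 : Pt (DD α γ (3 * l))) 0 j
    rw [add_zero] at h
    funext j
    exact left_eq_add.1 (h j)
  map_add' P Q := funext (hv_add hG P Q)

lemma hvHom_apply (hG : Good p α γ l) (P : Pt (DD α γ (3 * l))) :
    hvHom hG P = hv α γ l P := rfl

omit [DecidableEq (RatFunc k)] in
lemma hv_eq_zero_of_le (hG : Good p α γ l) (P : Pt (DD α γ (3 * l))) (j : ZMod (3 * l))
    (hj : 2 * l ≤ j.val) : hv α γ l P j = 0 := by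
  have hl := hG.hl0
  rw [hv, if_neg (by omega)]
  apply coeff_eq_zero_of_natDegree_lt
  have := (HH_spec hG P).1
  omega

omit [DecidableEq (RatFunc k)] in
lemma hv_zero (P : Pt (DD α γ (3 * l))) : hv α γ l P 0 = 0 := by
  rw [hv, if_pos]
  exact ZMod.val_zero

omit [DecidableEq (RatFunc k)] in
lemma ne_zero_of_pow_eq_one' {ζ : k} {m : ℕ} (hm : 0 < m) (hζ : ζ ^ m = 1) : ζ ≠ 0 := by
  rintro rfl
  rw [zero_pow (by omega)] at hζ
  exact zero_ne_one hζ

omit [DecidableEq (RatFunc k)] in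
lemma scl_DD (ζ : k) (hζ0 : ζ ≠ 0) (m : ℕ) (hζ : ζ ^ m = 1) (α γ : k) :
    scl ζ hζ0 (DD α γ m) = DD α γ m := by
  rw [DD, scl_algebraMap]
  congr 1
  rw [Dp, mul_comp, sub_comp, C_comp, C_comp, pow_comp, X_comp, mul_pow, ← C_pow, hζ, C_1, one_mul]

omit [DecidableEq (RatFunc k)] in
lemma opZ_aux (ζ u : k) (m : ℕ) (hζ0 : ζ ≠ 0) (hζ : ζ ^ m = 1) (hu : u ^ 3 = 1) :
    (RatFunc.C (u ^ 2)) ^ 6 * scl ζ hζ0 ((DD α γ m) ^ 2) = (DD α γ m) ^ 2 := by
  rw [map_pow (scl ζ hζ0), scl_DD ζ hζ0 m hζ, ← map_pow]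
  have : (u ^ 2) ^ 6 = 1 := by
    have : (u ^ 2) ^ 6 = (u ^ 3) ^ 4 := by ring
    rw [this, hu, one_pow]
  rw [this, map_one, one_mul]

/-- The operator `(x(t), y(t)) ↦ (u x(ζ t), y(ζ t))`. -/
noncomputable def opZ (hG : Good p α γ l) (ζ u : k) (hζ : ζ ^ (3 * l) = 1) (hu : u ^ 3 = 1) :
    Pt (DD α γ (3 * l)) →+ Pt (DD α γ (3 * l)) :=
  tw (scl ζ (ne_zero_of_pow_eq_one' (by have := hG.hl0; omega) hζ)) (RatFunc.C (u ^ 2))
    ((_root_.map_ne_zero _).2 (pow_ne_zero _ (ne_zero_of_pow_eq_one' (by norm_num) hu)))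
    (opZ_aux ζ u (3 * l) _ hζ hu)

lemma HH_opZ (hG : Good p α γ l) (ζ u : k) (hζ : ζ ^ (3 * l) = 1) (hu : u ^ 3 = 1)
    (P : Pt (DD α γ (3 * l))) :
    HH α γ l (opZ hG ζ u hζ hu P) = C (ζ * u) * (HH α γ l P).comp (C ζ * X) := by
  have hζ0 : ζ ≠ 0 := ne_zero_of_pow_eq_one' (by have := hG.hl0; omega) hζ
  have hu0 : u ≠ 0 := ne_zero_of_pow_eq_one' (by norm_num) hu
  apply HH_eq hG
  rw [opZ, gg_tw (c := RatFunc.C ζ) (dK := der k) (dL := der k)]
  · have e1 : (RatFunc.C (u ^ 2) : RatFunc k)⁻¹ = RatFunc.C u := by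
      rw [← map_inv₀]
      congr 1
      apply inv_eq_of_mul_eq_one_right
      rw [← pow_succ, hu]
    rw [e1]
    have e2 : DD α γ (3 * l) * (RatFunc.C ζ * RatFunc.C u *
        scl ζ hζ0 (gg (der k) (DD α γ (3 * l)) P)) = RatFunc.C (ζ * u) *
        scl ζ hζ0 (DD α γ (3 * l) * gg (der k) (DD α γ (3 * l)) P) := by
      rw [map_mul (scl ζ hζ0), scl_DD ζ hζ0 _ hζ, map_mul]
      ring
    rw [e2, (HH_spec hG P).2, scl_algebraMap, map_mul (algebraMap k[X] (RatFunc k)),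
      RatFunc.algebraMap_C]
  · exact hG.hD
  · intro f
    exact der_scl _ _ f
  · exact der_C _
  · exact two_ne_zero_ratFunc hG.h2

lemma hv_opZ (hG : Good p α γ l) (ζ u : k) (hζ : ζ ^ (3 * l) = 1) (hu : u ^ 3 = 1)
    (P : Pt (DD α γ (3 * l))) (j : ZMod (3 * l)) :
    hv α γ l (opZ hG ζ u hζ hu P) j = ζ ^ j.val * u * hv α γ l P j := by
  simp only [hv]
  split_ifs with h
  · rw [mul_zero]
  · rw [HH_opZ, coeff_C_mul, comp_C_mul_X_coeff]
    have : ζ ^ j.val = ζ ^ (j.val - 1) * ζ := by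
      rw [← pow_succ]
      congr 1
      omega
    rw [this]
    ring

lemma gg_eq_zero_of_hv (hG : Good p α γ l) (P : Pt (DD α γ (3 * l)))
    (h : ∀ j, hv α γ l P j = 0) : gg (der k) (DD α γ (3 * l)) P = 0 := by
  have hl := hG.hl0
  have hH : HH α γ l P = 0 := by
    ext i
    rw [coeff_zero]
    by_cases hi : i < 2 * l - 1
    · have hlt : i + 1 < 3 * l := by omega
      have h1 := h ((i + 1 : ℕ) : ZMod (3 * l))
      rw [hv, ZMod.val_natCast_of_lt hlt, if_neg (by omega)] at h1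
      simpa using h1
    · apply coeff_eq_zero_of_natDegree_lt
      have := (HH_spec hG P).1
      omega
  have h1 := (HH_spec hG P).2
  rw [hH, map_zero] at h1
  exact (mul_eq_zero.1 h1).resolve_left hG.hD

lemma hv_of_gg (hG : Good p α γ l) (P : Pt (DD α γ (3 * l)))
    (h : gg (der k) (DD α γ (3 * l)) P = 0) (j) : hv α γ l P j = 0 := by
  have : HH α γ l P = 0 := HH_eq hG P 0 (by rw [h, mul_zero, map_zero])
  rw [hv, this]
  simp

variable [hp : Fact p.Prime] [CharP k p]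

lemma exists_piE_of_hv [PerfectRing k p] (hG : Good p α γ l) (hD : DD α γ (3 * l) ≠ 0)
    (P : Pt (DD α γ (3 * l))) (h : ∀ j, hv α γ l P j = 0) :
    ∃ P₁, piE p (DD α γ (3 * l)) hD hG.hp3 P₁ = P :=
  exists_piE p hG.h2 hG.h3 _ hD hG.hp3 hG.hno P (gg_eq_zero_of_hv hG P h)

end HH

end Pool.Agent.Helper23.K6
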