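import Mathlib
import Pool.Agent.Helper23.K6.HH
import Pool.Agent.Helper44.K6.Cart

/-!
The Cartier relation for the coefficient vectors.
-/

namespace Pool.Agent.Helper23.K6

open Polynomial Pool.Agent.Helper44

section CartRel

variable {k : Type*} [Field k] {p : ℕ} [hp : Fact p.Prime] [CharP k p] {α γ : k} {l : ℕ}

lemma coeff_pow_p (H : k[X]) (i : ℕ) : (H ^ p).coeff (p * i) = H.coeff i ^ p := by
  rw [← map_frobenius_expand p, coeff_map, mul_comm p i, coeff_expand_mul hp.out.pos,
    frobenius_def]

lemma desc_cast (a : ℕ) :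
    (((p * a + (p - 1)).descFactorial (p - 1) : ℕ) : k) = -1 := by
  have hp1 := hp.out.one_lt
  rw [Nat.descFactorial_eq_factorial_mul_choose, Nat.cast_mul]
  have h1 : (((p - 1).factorial : ℕ) : k) = -1 := by
    have h := ZMod.wilsons_lemma p
    have h' := congrArg (ZMod.castHom (dvd_refl p) k) h
    rw [map_natCast, map_neg, map_one] at h'
    exact h'
  have h2 : (((p * a + (p - 1)).choose (p - 1) : ℕ) : k) = 1 := by
    have h := Choose.choose_modEq_choose_mod_mul_choose_div_nat (n := p * a + (p - 1))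
      (k := p - 1) (p := p)
    have e1 : (p * a + (p - 1)) % p = p - 1 := by
      rw [Nat.mul_add_mod]
      exact Nat.mod_eq_of_lt (by omega)
    have e2 : (p - 1) % p = p - 1 := Nat.mod_eq_of_lt (by omega)
    have e3 : (p - 1) / p = 0 := Nat.div_eq_of_lt (by omega)
    rw [e1, e2, e3, Nat.choose_self, Nat.choose_zero_right, mul_one] at h
    have h3 := (CharP.natCast_eq_natCast k p).2 h
    rw [h3, Nat.cast_one]
  rw [h1, h2, mul_one]

lemma desc_cast_smul (a : ℕ) (x : k) :
    (p * a + (p - 1)).descFactorial (p - 1) • x = -x := by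
  rw [nsmul_eq_mul, desc_cast]
  ring

lemma choose_ne_zero (n q : ℕ) (hn : n < p) (hq : q ≤ n) : ((n.choose q : ℕ) : k) ≠ 0 := by
  intro h
  rw [CharP.cast_eq_zero_iff k p] at h
  have h1 : n.choose q ∣ n.factorial := by
    refine ⟨q.factorial * (n - q).factorial, ?_⟩
    rw [← mul_assoc, Nat.choose_mul_factorial_mul_factorial hq]
  have h2 := (hp.out.dvd_factorial).1 (h.trans h1)
  omega

omit [CharP k p] in
lemma coeff_Dp_pow (m n : ℕ) (hm : 0 < m) (q : ℕ) :
    (Dp α γ m ^ n).coeff (m * q) = α ^ n * ((-γ) ^ (n - q) * (n.choose q : k)) ∧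
    ∀ i, ¬ m ∣ i → (Dp α γ m ^ n).coeff i = 0 := by
  have e : Dp α γ m ^ n = expand k m (C (α ^ n) * (X - C γ) ^ n) := by
    simp only [Dp, mul_pow, map_mul, map_pow, map_sub, expand_X, expand_C]
  rw [e]
  constructor
  · have e2 : (X - C γ : k[X]) = X + C (-γ) := by rw [map_neg]; ring
    rw [mul_comm m q, coeff_expand_mul hm, coeff_C_mul, e2, coeff_X_add_C_pow]
  · intro i hi
    rw [coeff_expand hm, if_neg hi]

/-- The coefficient form of `cart`. -/
lemma cart_coeff [IsAlgClosed k] (hG : Good p α γ l)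
    (P : Pt (DD α γ (3 * l))) (a q i : ℕ) (ha : 0 < a) (hi : 0 < i) (hi' : i < 3 * l)
    (h : p * a = 3 * l * q + i) :
    (((p - 1) / 2).choose ((p - 1) / 3) : k) * (HH α γ l P).coeff (a - 1) ^ p =
      (Dp α γ (3 * l) ^ (2 * ((p - 1) / 3))).coeff (3 * l * q) * (HH α γ l P).coeff (i - 1) := by
  have hl := hG.hl0
  have hp1 := hp.out.one_lt
  obtain ⟨hdeg, hH⟩ := HH_spec hG P
  have hc := cart hG.hp3 hG.h3 α γ (3 * l) hG.hD hG.hno P _ hH
  have hc' := congrArg (fun f => f.coeff (p * (a - 1))) hc
  rw [coeff_iterate_derivative, neg_mul, coeff_neg, coeff_C_mul, coeff_pow_p, desc_cast_smul] at hc'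
  have hidx : p * (a - 1) + (p - 1) = 3 * l * q + (i - 1) := by
    obtain ⟨a', rfl⟩ : ∃ a', a = a' + 1 := ⟨a - 1, by omega⟩
    rw [Nat.add_sub_cancel]
    rw [mul_add, mul_one] at h
    omega
  rw [hidx] at hc'
  have hprod : (HH α γ l P * Dp α γ (3 * l) ^ (2 * ((p - 1) / 3))).coeff (3 * l * q + (i - 1)) =
      (Dp α γ (3 * l) ^ (2 * ((p - 1) / 3))).coeff (3 * l * q) * (HH α γ l P).coeff (i - 1) := by
    rw [coeff_mul]
    rw [Finset.sum_eq_single (i - 1, 3 * l * q)]
    · rw [mul_comm]
    · rintro ⟨x, y⟩ hxy hne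
      rw [Finset.HasAntidiagonal.mem_antidiagonal] at hxy
      simp only at hxy ⊢
      by_cases hy : 3 * l ∣ y
      · obtain ⟨q', rfl⟩ := hy
        have hx : (HH α γ l P).coeff x = 0 := by
          apply coeff_eq_zero_of_natDegree_lt
          refine lt_of_lt_of_le hdeg ?_
          by_contra hlt
          push Not at hlt
          apply hne
          have hqq : q' = q := by
            have h1 : (x + 3 * l * q') / (3 * l) = q' := by
              rw [Nat.add_mul_div_left _ _ (by omega : 0 < 3 * l), Nat.div_eq_of_lt (by omega),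
                zero_add]
            have h2 : (3 * l * q + (i - 1)) / (3 * l) = q := by
              rw [add_comm, Nat.add_mul_div_left _ _ (by omega : 0 < 3 * l),
                Nat.div_eq_of_lt (by omega), zero_add]
            rw [← h1, hxy, h2]
          subst hqq
          have : x = i - 1 := by omega
          rw [this]
        rw [hx, zero_mul]
      · rw [(coeff_Dp_pow (3 * l) _ (by omega) q).2 y hy, mul_zero]
    · intro hn
      exfalso
      apply hn
      rw [Finset.HasAntidiagonal.mem_antidiagonal]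
      exact add_comm _ _
  rw [hprod] at hc'
  linear_combination (1 : k) * hc'

theorem cartier_rel [IsAlgClosed k] (hG : Good p α γ l) :
    ∃ μ : ZMod (3 * l) → k, (∀ j, μ j ≠ 0) ∧
      ∀ P j, hv α γ l P ((p : ZMod (3 * l)) * j) = μ j * hv α γ l P j ^ p := by
  classical
  have hl := hG.hl0
  have hp1 := hp.out.one_lt
  have hp3 := hG.hp3
  haveI : NeZero (3 * l) := ⟨by omega⟩
  have hA : (((p - 1) / 2).choose ((p - 1) / 3) : k) ≠ 0 :=
    choose_ne_zero _ _ (by omega) (by omega)
  let M : ℕ := 2 * ((p - 1) / 3)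
  let E : ZMod (3 * l) → k := fun j =>
    (Dp α γ (3 * l) ^ M).coeff (3 * l * (p * j.val / (3 * l)))
  have hE : ∀ j : ZMod (3 * l), j.val < 2 * l → E j ≠ 0 := by
    intro j hj
    have hq : p * j.val / (3 * l) ≤ M := by
      rw [Nat.div_le_iff_le_mul_add_pred (by omega)]
      obtain ⟨M', hM'⟩ : ∃ M', p = 3 * M' + 1 := ⟨p / 3, by omega⟩
      have hM2 : M = 2 * M' := by
        show 2 * ((p - 1) / 3) = 2 * M'
        omega
      rw [hM2, hM']
      have h1 : j.val ≤ 2 * l - 1 := by omega
      calc (3 * M' + 1) * j.val ≤ (3 * M' + 1) * (2 * l - 1) := Nat.mul_le_mul_left _ h1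
        _ ≤ 3 * l * (2 * M') + (3 * l - 1) := by
          obtain ⟨l', rfl⟩ : ∃ l', l = l' + 1 := ⟨l - 1, by omega⟩
          have e1 : 2 * (l' + 1) - 1 = 2 * l' + 1 := by omega
          have e2 : 3 * (l' + 1) - 1 = 3 * l' + 2 := by omega
          rw [e1, e2]
          nlinarith
    show (Dp α γ (3 * l) ^ M).coeff (3 * l * (p * j.val / (3 * l))) ≠ 0
    rw [(coeff_Dp_pow (3 * l) M (by omega) _).1]
    refine mul_ne_zero (pow_ne_zero _ hG.hα) (mul_ne_zero (pow_ne_zero _ (neg_ne_zero.2 hG.hγ))
      (choose_ne_zero _ _ ?_ hq))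
    show 2 * ((p - 1) / 3) < p
    omega
  let μ : ZMod (3 * l) → k := fun j =>
    if 0 < j.val ∧ j.val < 2 * l then (((p - 1) / 2).choose ((p - 1) / 3) : k) / E j else 1
  have hval : ∀ j : ZMod (3 * l), ((p : ZMod (3 * l)) * j).val = p * j.val % (3 * l) := by
    intro j
    have : (p : ZMod (3 * l)) * j = ((p * j.val : ℕ) : ZMod (3 * l)) := by
      push_cast
      rw [ZMod.natCast_val, ZMod.cast_id]
    rw [this, ZMod.val_natCast]
  have hpl : p.Coprime (3 * l) := by
    rw [hp.out.coprime_iff_not_dvd]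
    intro h
    exact hG.hl3 ((CharP.cast_eq_zero_iff k p _).2 h)
  have hpu : IsUnit (p : ZMod (3 * l)) := (ZMod.isUnit_iff_coprime _ _).2 hpl
  have hrel : ∀ P (j : ZMod (3 * l)), 0 < j.val → j.val < 2 * l →
      hv α γ l P ((p : ZMod (3 * l)) * j) = μ j * hv α γ l P j ^ p := by
    intro P j h0 h1
    have hi : 0 < ((p : ZMod (3 * l)) * j).val := by
      rw [Nat.pos_iff_ne_zero]
      intro h
      rw [ZMod.val_eq_zero] at h
      have : j = 0 := by
        apply hpu.mul_left_cancel
        rw [h, mul_zero]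
      rw [this, ZMod.val_zero] at h0
      exact lt_irrefl _ h0
    have hi' := ZMod.val_lt ((p : ZMod (3 * l)) * j)
    have hdiv : p * j.val = 3 * l * (p * j.val / (3 * l)) + ((p : ZMod (3 * l)) * j).val := by
      rw [hval]
      exact (Nat.div_add_mod _ _).symm
    have hc := cart_coeff hG P j.val _ _ h0 hi hi' hdiv
    have hμj : μ j = (((p - 1) / 2).choose ((p - 1) / 3) : k) / E j := by
      show (if 0 < j.val ∧ j.val < 2 * l then _ else _) = _
      rw [if_pos ⟨h0, h1⟩]
    rw [hμj, hv, if_neg (by omega), hv, if_neg (by omega), div_mul_eq_mul_div, hc]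
    rw [eq_div_iff (hE j h1), mul_comm]
  refine ⟨μ, ?_, ?_⟩
  · intro j
    show (if 0 < j.val ∧ j.val < 2 * l then _ else _) ≠ 0
    split_ifs with h
    · exact div_ne_zero hA (hE j h.2)
    · exact one_ne_zero
  · intro P j
    rcases Nat.eq_zero_or_pos j.val with h0 | h0
    · rw [ZMod.val_eq_zero] at h0
      rw [h0, mul_zero, hv_zero, zero_pow hp.out.ne_zero, mul_zero]
    · by_cases h1 : j.val < 2 * l
      · exact hrel P j h0 h1
      · have hj0 : hv α γ l P j = 0 := hv_eq_zero_of_le hG P j (by omega)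
        rw [hj0, zero_pow hp.out.ne_zero, mul_zero]
        by_contra hne
        -- the support is stable under multiplication by p
        let T : Finset (ZMod (3 * l)) := Finset.univ.filter (fun i => hv α γ l P i ≠ 0)
        have hmem : ∀ i, i ∈ T ↔ hv α γ l P i ≠ 0 := by
          intro i
          rw [Finset.mem_filter]
          exact ⟨fun h => h.2, fun h => ⟨Finset.mem_univ _, h⟩⟩
        have hsub : T.image (fun i => (p : ZMod (3 * l)) * i) ⊆ T := by
          intro i hi
          rw [Finset.mem_image] at hi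
          obtain ⟨i', hi', rfl⟩ := hi
          rw [hmem] at hi' ⊢
          have h2 : 0 < i'.val := by
            rw [Nat.pos_iff_ne_zero]
            intro h
            rw [ZMod.val_eq_zero] at h
            rw [h] at hi'
            exact hi' (hv_zero P)
          have h3 : i'.val < 2 * l := by
            by_contra h
            exact hi' (hv_eq_zero_of_le hG P i' (by omega))
          rw [hrel P i' h2 h3]
          refine mul_ne_zero ?_ (pow_ne_zero _ hi')
          show (if 0 < i'.val ∧ i'.val < 2 * l then _ else _) ≠ 0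
          rw [if_pos ⟨h2, h3⟩]
          exact div_ne_zero hA (hE i' h3)
        have heq : T.image (fun i => (p : ZMod (3 * l)) * i) = T := by
          apply Finset.eq_of_subset_of_card_le hsub
          rw [Finset.card_image_of_injective _ (fun a b h => hpu.mul_left_cancel h)]
        have h4 : (p : ZMod (3 * l)) * j ∈ T := (hmem _).2 hne
        rw [← heq, Finset.mem_image] at h4
        obtain ⟨i, hi, hij⟩ := h4
        have h5 : i = j := hpu.mul_left_cancel hij
        rw [h5, hmem] at hi
        exact hi hj0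

end CartRel

end Pool.Agent.Helper23.K6
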