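import Mathlib
import Pool.Agent.Helper23.K6.Defs

/-!
Module `COUNT` for `MP_3da457_ag`: the `F_p`-dimension of a space of vectors fixed by a
Frobenius-semilinear map is at most the dimension of the ambient coordinate space.
-/

namespace Pool.Agent.Helper23.K6

open Polynomial Pool.Agent.Helper44

section COUNT

/-- Vectors fixed by a `p`-semilinear map which are independent over `F_p` are independent
over `k`. -/
lemma count_indep {k : Type*} [Field k] (p : ℕ) [Fact p.Prime] [CharP k p] {ι : Type*}
    (σ : ι → ι) (hσ : Function.Surjective σ) (μ : ι → k) (s : Finset (ι → k)) :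
    (∀ v ∈ s, ∀ i, v (σ i) = μ i * v i ^ p) →
    (∀ a : (ι → k) → ℤ, ∑ v ∈ s, (a v : k) • v = 0 → ∀ v ∈ s, (a v : k) = 0) →
    ∀ c : (ι → k) → k, ∑ v ∈ s, c v • v = 0 → ∀ v ∈ s, c v = 0 := by
  classical
  induction s using Finset.strongInduction with
  | H s ih =>
    intro hV hli c hc v₀ hv₀
    by_contra hne
    -- scaled relation
    set d : (ι → k) → k := fun v => c v / c v₀ with hd
    have hd₀ : d v₀ = 1 := div_self hne
    have hdsum : ∑ v ∈ s, d v • v = 0 := by
      have : ∑ v ∈ s, d v • v = (c v₀)⁻¹ • ∑ v ∈ s, c v • v := by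
        rw [Finset.smul_sum]
        refine Finset.sum_congr rfl fun v _ => ?_
        rw [smul_smul]
        exact congrArg (· • v) (div_eq_inv_mul _ _)
      rw [this, hc, smul_zero]
    have hdp : ∑ v ∈ s, (d v) ^ p • v = 0 := by
      funext j
      obtain ⟨i, rfl⟩ := hσ j
      have h1 : ∑ v ∈ s, d v * v i = 0 := by
        have := congrFun hdsum i
        simpa [Finset.sum_apply] using this
      have h2 : ∑ v ∈ s, (d v) ^ p * (v i) ^ p = 0 := by
        have h3 := sum_pow_char p s (fun v => d v * v i)
        rw [h1, zero_pow (Fact.out : p.Prime).ne_zero] at h3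
        simp only [mul_pow] at h3
        exact h3.symm
      have h4 : (∑ v ∈ s, (d v) ^ p • v) (σ i) = μ i * ∑ v ∈ s, (d v) ^ p * (v i) ^ p := by
        rw [Finset.sum_apply, Finset.mul_sum]
        refine Finset.sum_congr rfl fun v hv => ?_
        rw [Pi.smul_apply, smul_eq_mul, hV v hv i]
        ring
      rw [h4, h2, mul_zero]
      rfl
    -- the shorter relation
    have hshort : ∑ v ∈ s.erase v₀, ((d v) ^ p - d v) • v = 0 := by
      have h1 : ∑ v ∈ s, ((d v) ^ p - d v) • v = 0 := by
        simp only [sub_smul]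
        rw [Finset.sum_sub_distrib, hdp, hdsum, sub_zero]
      rw [← Finset.add_sum_erase s _ hv₀] at h1
      simpa [hd₀] using h1
    have hfix : ∀ v ∈ s.erase v₀, (d v) ^ p - d v = 0 := by
      refine ih (s.erase v₀) (Finset.erase_ssubset hv₀)
        (fun v hv => hV v (Finset.mem_of_mem_erase hv)) ?_ _ hshort
      intro a ha v hv
      have h1 := hli (fun w => if w = v₀ then 0 else a w) (by
        rw [← Finset.add_sum_erase s _ hv₀]
        simp only [if_true, Int.cast_zero, zero_smul, zero_add]
        rw [← ha]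
        refine Finset.sum_congr rfl fun w hw => ?_
        rw [if_neg (Finset.ne_of_mem_erase hw)]) v (Finset.mem_of_mem_erase hv)
      simpa [Finset.ne_of_mem_erase hv] using h1
    have hint : ∀ v ∈ s, ∃ n : ℤ, (n : k) = d v := by
      intro v hv
      by_cases hvv : v = v₀
      · exact ⟨1, by rw [hvv, hd₀]; simp⟩
      · exact (mem_bot_iff_intCast p k).1 ((Subfield.mem_bot_iff_pow_eq_self k p).2
          (sub_eq_zero.1 (hfix v (Finset.mem_erase.2 ⟨hvv, hv⟩))))
    choose! n hn using hint
    have h0 := hli n (by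
      rw [← hdsum]
      exact Finset.sum_congr rfl fun v hv => by rw [hn v hv]) v₀ hv₀
    rw [hn v₀ hv₀, hd₀] at h0
    exact one_ne_zero h0

theorem card_le {k : Type*} [Field k] (p : ℕ) [Fact p.Prime] [CharP k p] {ι : Type*} [Fintype ι]
    (σ : ι → ι) (hσ : Function.Bijective σ) (μ : ι → k) (hμ : ∀ i, μ i ≠ 0)
    (V : AddSubgroup (ι → k)) (hV : ∀ v ∈ V, ∀ i, v (σ i) = μ i * v i ^ p) (T : Finset ι)
    (hT : ∀ v ∈ V, ∀ i, i ∉ T → v i = 0) :
    Finite V ∧ Nat.card V ≤ p ^ T.card := by
  classical
  let _ := ZMod.algebra k p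
  let W : Submodule (ZMod p) (ι → k) := AddSubgroup.toZModSubmodule p V
  have hW : ∀ v, v ∈ W ↔ v ∈ V := fun v => by
    simp [W]
  have hrank : Module.rank (ZMod p) W ≤ (T.card : ℕ) := by
    refine rank_le fun s hs => ?_
    -- the vectors restricted to `T` are independent over `k`
    have hs' : ∀ a : W → ZMod p, ∑ v ∈ s, a v • v = 0 → ∀ v ∈ s, a v = 0 := by
      intro a ha v hv
      have := linearIndepOn_finset_iff.1 (show LinearIndepOn (ZMod p) (fun v : W => v) (s : Set W)
        from hs) a ha v hv
      exact this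
    have key := count_indep (k := k) p σ hσ.2 μ (s.image (Subtype.val : W → (ι → k))) (by
        intro v hv
        obtain ⟨w, -, rfl⟩ := Finset.mem_image.1 hv
        exact hV _ ((hW _).1 w.2)) (by
        intro a ha v hv
        obtain ⟨w, hw, rfl⟩ := Finset.mem_image.1 hv
        rw [Finset.sum_image (fun x _ y _ h => Subtype.ext h)] at ha
        have h1 := hs' (fun w => (a w.1 : ZMod p)) (by
          apply Subtype.ext
          rw [Submodule.coe_sum, Submodule.coe_zero, ← ha]
          refine Finset.sum_congr rfl fun x _ => ?_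
          rw [Submodule.coe_smul]
          funext i
          rw [Pi.smul_apply, Pi.smul_apply, Algebra.smul_def, map_intCast, smul_eq_mul]) w hw
        have h2 : algebraMap (ZMod p) k ((a w.1 : ℤ) : ZMod p) = 0 := by rw [h1, map_zero]
        simpa using h2)
    have hli : LinearIndependent k (fun (w : s) (i : T) => (w : W).1 i) := by
      rw [Fintype.linearIndependent_iff]
      intro g hg w
      let c : (ι → k) → k := fun v => if h : ∃ hv : v ∈ W, (⟨v, hv⟩ : W) ∈ s then
        g ⟨⟨v, h.1⟩, h.2⟩ else 0
      have hc : ∀ w : s, c (w : W).1 = g w := by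
        intro w
        have h : ∃ hv : (w : W).1 ∈ W, (⟨(w : W).1, hv⟩ : W) ∈ s := ⟨(w : W).2, w.2⟩
        simp only [c]
        rw [dif_pos h]
      have hsum : ∑ v ∈ s.image (Subtype.val : W → (ι → k)), c v • v = 0 := by
        rw [Finset.sum_image (fun x _ y _ h => Subtype.ext h), ← Finset.sum_coe_sort s]
        funext i
        rw [Finset.sum_apply]
        by_cases hi : i ∈ T
        · have h1 := congrFun hg ⟨i, hi⟩
          rw [Finset.sum_apply] at h1
          rw [Pi.zero_apply] at h1 ⊢
          rw [← h1]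
          refine Finset.sum_congr rfl fun w _ => ?_
          rw [Pi.smul_apply, Pi.smul_apply, hc w]
        · refine Finset.sum_eq_zero fun w _ => ?_
          rw [Pi.smul_apply, hT _ ((hW _).1 (w : W).2) i hi, smul_zero]
      rw [← hc w]
      exact key c hsum _ (Finset.mem_image_of_mem _ w.2)
    have := hli.fintype_card_le_finrank
    simpa using this
  have hfin : Module.Finite (ZMod p) W :=
    Module.rank_lt_aleph0_iff.1 (hrank.trans_lt (Cardinal.natCast_lt_aleph0))
  have hfinrank : Module.finrank (ZMod p) W ≤ T.card := by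
    exact Module.finrank_le_of_rank_le hrank
  have hcard : Nat.card W = p ^ Module.finrank (ZMod p) W := by
    rw [Module.natCard_eq_pow_finrank (K := ZMod p), Nat.card_zmod]
  have e : Nat.card V = Nat.card W := Nat.card_congr
    { toFun := fun v => ⟨v.1, (hW _).2 v.2⟩
      invFun := fun w => ⟨w.1, (hW _).1 w.2⟩
      left_inv := fun _ => rfl
      right_inv := fun _ => rfl }
  have hp : 0 < p := (Fact.out : p.Prime).pos
  constructor
  · refine Nat.finite_of_card_ne_zero ?_
    rw [e, hcard]
    exact (pow_pos hp _).ne'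
  · rw [e, hcard]
    exact Nat.pow_le_pow_right hp hfinrank

end COUNT

end Pool.Agent.Helper23.K6
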