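import Mathlib
import Pool.Agent.Helper23.K6.Defs

/-!
Heights of points of `y ^ 2 = x ^ 3 + D ^ 2` over `k(t)`.
-/

namespace Pool.Agent.Helper23.K6

open Polynomial Pool.Agent.Helper44

section HT

variable {k : Type*} [Field k]

lemma ht_div_le (U V : k[X]) (hV : V ≠ 0) :
    ht (algebraMap k[X] (RatFunc k) U / algebraMap k[X] (RatFunc k) V) ≤
      max U.natDegree V.natDegree := by
  rw [ht]
  apply max_le_max
  · by_cases hU : U = 0
    · subst hU
      simp
    · exact natDegree_le_of_dvd (RatFunc.num_div_dvd U hV) hU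
  · exact natDegree_le_of_dvd (RatFunc.denom_div_dvd U V) hV

lemma ht_pow (r : RatFunc k) (n : ℕ) : ht (r ^ n) = n * ht r := by
  have hc : IsCoprime (r.num ^ n) (r.denom ^ n) := (RatFunc.isCoprime_num_denom r).pow
  have hr : r ^ n = algebraMap k[X] (RatFunc k) (r.num ^ n) /
      algebraMap k[X] (RatFunc k) (r.denom ^ n) := by
    rw [map_pow, map_pow, ← div_pow, RatFunc.num_div_denom]
  rw [hr, ht_div _ _ (pow_ne_zero _ (RatFunc.denom_ne_zero r)) hc, natDegree_pow, natDegree_pow,
    Nat.mul_max_mul_left]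
  rfl

/-- `y d ^ 2` is a polynomial. -/
lemma exists_b (Dpol : k[X]) (x y : RatFunc k)
    (h : y ^ 2 = x ^ 3 + (algebraMap k[X] (RatFunc k) Dpol) ^ 2) :
    ∃ b : k[X], y * (algebraMap k[X] (RatFunc k) x.denom) ^ 2 = algebraMap k[X] (RatFunc k) b ∧
      b.natDegree ≤ 2 * ht x + Dpol.natDegree := by
  have hd : algebraMap k[X] (RatFunc k) x.denom ≠ 0 := RatFunc.algebraMap_ne_zero
    (RatFunc.denom_ne_zero x)
  have hx : x * algebraMap k[X] (RatFunc k) x.denom = algebraMap k[X] (RatFunc k) x.num :=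
    ((div_eq_iff hd).1 (RatFunc.num_div_denom x)).symm
  have h2 : (y * (algebraMap k[X] (RatFunc k) x.denom) ^ 2) ^ 2 =
      algebraMap k[X] (RatFunc k) (x.num ^ 3 * x.denom + Dpol ^ 2 * x.denom ^ 4) := by
    simp only [map_add, map_mul, map_pow]
    rw [← hx]
    linear_combination (algebraMap k[X] (RatFunc k) x.denom) ^ 4 * h
  have hint : IsIntegral k[X] (y * (algebraMap k[X] (RatFunc k) x.denom) ^ 2) := by
    refine ⟨X ^ 2 - C (x.num ^ 3 * x.denom + Dpol ^ 2 * x.denom ^ 4), ?_, ?_⟩
    · exact monic_X_pow_sub_C _ two_ne_zero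
    · rw [eval₂_sub, eval₂_X_pow, eval₂_C, h2, sub_self]
  obtain ⟨b, hb⟩ := (IsIntegrallyClosed.isIntegral_iff).1 hint
  refine ⟨b, hb.symm, ?_⟩
  rw [← hb, ← map_pow] at h2
  have h3 := RatFunc.algebraMap_injective k h2
  have h4 : 2 * b.natDegree = (x.num ^ 3 * x.denom + Dpol ^ 2 * x.denom ^ 4).natDegree := by
    rw [← h3, natDegree_pow]
  have hn : x.num.natDegree ≤ ht x := le_max_left _ _
  have hdd : x.denom.natDegree ≤ ht x := le_max_right _ _
  have h5 : (x.num ^ 3 * x.denom + Dpol ^ 2 * x.denom ^ 4).natDegree ≤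
      4 * ht x + 2 * Dpol.natDegree := by
    refine (natDegree_add_le _ _).trans (max_le ?_ ?_)
    · refine natDegree_mul_le.trans ?_
      rw [natDegree_pow]
      omega
    · refine natDegree_mul_le.trans ?_
      rw [natDegree_pow, natDegree_pow]
      omega
  omega

lemma mul_denom (x : RatFunc k) : x * algebraMap k[X] (RatFunc k) x.denom =
    algebraMap k[X] (RatFunc k) x.num :=
  ((div_eq_iff (RatFunc.algebraMap_ne_zero (RatFunc.denom_ne_zero x))).1
    (RatFunc.num_div_denom x)).symm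

/-- The height of the sum, in the generic case. -/
lemma ht_add_le (Dpol : k[X]) (x₁ y₁ x₂ y₂ x₃ : RatFunc k)
    (h₁ : y₁ ^ 2 = x₁ ^ 3 + (algebraMap k[X] (RatFunc k) Dpol) ^ 2)
    (h₂ : y₂ ^ 2 = x₂ ^ 3 + (algebraMap k[X] (RatFunc k) Dpol) ^ 2) (hx : x₁ ≠ x₂)
    (h₃ : (x₁ - x₂) ^ 2 * x₃ = (y₁ - y₂) ^ 2 - (x₁ + x₂) * (x₁ - x₂) ^ 2) :
    ht x₃ ≤ 2 * ht x₁ + 2 * ht x₂ + 2 * Dpol.natDegree := by
  obtain ⟨b₁, hb₁, hd₁⟩ := exists_b Dpol x₁ y₁ h₁
  obtain ⟨b₂, hb₂, hd₂⟩ := exists_b Dpol x₂ y₂ h₂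
  have hn1 : x₁.num.natDegree ≤ ht x₁ := le_max_left _ _
  have hdd1 : x₁.denom.natDegree ≤ ht x₁ := le_max_right _ _
  have hn2 : x₂.num.natDegree ≤ ht x₂ := le_max_left _ _
  have hdd2 : x₂.denom.natDegree ≤ ht x₂ := le_max_right _ _
  have hm1 := mul_denom x₁
  have hm2 := mul_denom x₂
  have he1 : algebraMap k[X] (RatFunc k) x₁.denom ≠ 0 := RatFunc.algebraMap_ne_zero
    (RatFunc.denom_ne_zero x₁)
  have he2 : algebraMap k[X] (RatFunc k) x₂.denom ≠ 0 := RatFunc.algebraMap_ne_zero
    (RatFunc.denom_ne_zero x₂)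
  set V : k[X] := (x₁.num * x₂.denom - x₂.num * x₁.denom) ^ 2 with hV
  set U : k[X] := x₁.num * x₂.num * (x₁.num * x₂.denom + x₂.num * x₁.denom) +
    2 * (Dpol ^ 2 * x₁.denom ^ 2 * x₂.denom ^ 2) - 2 * (b₁ * b₂) with hU
  have hVK : algebraMap k[X] (RatFunc k) V = (algebraMap k[X] (RatFunc k) x₁.denom) ^ 2 *
      (algebraMap k[X] (RatFunc k) x₂.denom) ^ 2 * (x₁ - x₂) ^ 2 := by
    rw [hV]
    simp only [map_sub, map_mul, map_pow]
    rw [← hm1, ← hm2]
    ring
  have hUK : algebraMap k[X] (RatFunc k) U = (algebraMap k[X] (RatFunc k) x₁.denom) ^ 2 *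
      (algebraMap k[X] (RatFunc k) x₂.denom) ^ 2 * ((x₁ - x₂) ^ 2 * x₃) := by
    rw [hU]
    simp only [map_sub, map_add, map_mul, map_pow, map_ofNat]
    rw [← hm1, ← hm2, ← hb₁, ← hb₂, h₃]
    linear_combination -(algebraMap k[X] (RatFunc k) x₁.denom) ^ 2 *
      (algebraMap k[X] (RatFunc k) x₂.denom) ^ 2 * h₁ - (algebraMap k[X] (RatFunc k) x₁.denom) ^ 2 *
      (algebraMap k[X] (RatFunc k) x₂.denom) ^ 2 * h₂
  have hne : (x₁ - x₂) ^ 2 ≠ 0 := pow_ne_zero _ (sub_ne_zero.2 hx)
  have hVK0 : algebraMap k[X] (RatFunc k) V ≠ 0 := by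
    rw [hVK]
    exact mul_ne_zero (mul_ne_zero (pow_ne_zero _ he1) (pow_ne_zero _ he2)) hne
  have hV0 : V ≠ 0 := by
    intro h0
    rw [h0, map_zero] at hVK0
    exact hVK0 rfl
  have hx3 : x₃ = algebraMap k[X] (RatFunc k) U / algebraMap k[X] (RatFunc k) V := by
    rw [eq_div_iff hVK0, hUK, hVK]
    ring
  rw [hx3]
  refine (ht_div_le U V hV0).trans (max_le ?_ ?_)
  · rw [hU]
    refine (natDegree_sub_le _ _).trans (max_le ?_ ?_)
    · refine (natDegree_add_le _ _).trans (max_le ?_ ?_)
      · refine natDegree_mul_le.trans ?_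
        have e1 : (x₁.num * x₂.num).natDegree ≤ x₁.num.natDegree + x₂.num.natDegree :=
          natDegree_mul_le
        have e2 : (x₁.num * x₂.denom + x₂.num * x₁.denom).natDegree ≤ ht x₁ + ht x₂ := by
          refine (natDegree_add_le _ _).trans (max_le ?_ ?_)
          · refine natDegree_mul_le.trans ?_
            omega
          · refine natDegree_mul_le.trans ?_
            omega
        omega
      · have : (2 : k[X]) = C 2 := (map_ofNat C 2).symm
        rw [this]
        refine (natDegree_C_mul_le _ _).trans ?_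
        refine natDegree_mul_le.trans ?_
        have e1 : (Dpol ^ 2 * x₁.denom ^ 2).natDegree ≤
            2 * Dpol.natDegree + 2 * x₁.denom.natDegree := by
          refine natDegree_mul_le.trans ?_
          rw [natDegree_pow, natDegree_pow]
        rw [natDegree_pow]
        omega
    · have : (2 : k[X]) = C 2 := (map_ofNat C 2).symm
      rw [this]
      refine (natDegree_C_mul_le _ _).trans ?_
      refine natDegree_mul_le.trans ?_
      omega
  · rw [hV, natDegree_pow]
    have e2 : (x₁.num * x₂.denom - x₂.num * x₁.denom).natDegree ≤ ht x₁ + ht x₂ := by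
      refine (natDegree_sub_le _ _).trans (max_le ?_ ?_)
      · refine natDegree_mul_le.trans ?_
        omega
      · refine natDegree_mul_le.trans ?_
        omega
    omega

/-- The height of the double. -/
lemma ht_dbl_le (Dpol : k[X]) (h2 : (2 : k) ≠ 0) (x y x₃ : RatFunc k)
    (h : y ^ 2 = x ^ 3 + (algebraMap k[X] (RatFunc k) Dpol) ^ 2) (hy : y ≠ 0)
    (h₃ : 4 * y ^ 2 * x₃ = 9 * x ^ 4 - 8 * x * y ^ 2) :
    ht x₃ ≤ 4 * ht x + 2 * Dpol.natDegree := by
  have hn1 : x.num.natDegree ≤ ht x := le_max_left _ _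
  have hdd1 : x.denom.natDegree ≤ ht x := le_max_right _ _
  have hm1 := mul_denom x
  have he1 : algebraMap k[X] (RatFunc k) x.denom ≠ 0 := RatFunc.algebraMap_ne_zero
    (RatFunc.denom_ne_zero x)
  have h4 : (4 : RatFunc k) ≠ 0 := by
    have : (4 : RatFunc k) = 2 ^ 2 := by norm_num
    rw [this]; exact pow_ne_zero _ (two_ne_zero_ratFunc h2)
  set V : k[X] := C 4 * (x.denom * (x.num ^ 3 + Dpol ^ 2 * x.denom ^ 3)) with hV
  set U : k[X] := x.num * (x.num ^ 3 - C 8 * (Dpol ^ 2 * x.denom ^ 3)) with hU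
  have hVK : algebraMap k[X] (RatFunc k) V = (algebraMap k[X] (RatFunc k) x.denom) ^ 4 *
      (4 * y ^ 2) := by
    rw [hV]
    simp only [map_add, map_mul, map_pow, map_ofNat]
    rw [← hm1, h]
    ring
  have hUK : algebraMap k[X] (RatFunc k) U = (algebraMap k[X] (RatFunc k) x.denom) ^ 4 *
      (4 * y ^ 2 * x₃) := by
    rw [hU]
    simp only [map_sub, map_mul, map_pow, map_ofNat]
    rw [← hm1, h₃, h]
    ring
  have hVK0 : algebraMap k[X] (RatFunc k) V ≠ 0 := by
    rw [hVK]
    exact mul_ne_zero (pow_ne_zero _ he1) (mul_ne_zero h4 (pow_ne_zero _ hy))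
  have hV0 : V ≠ 0 := by
    intro h0
    rw [h0, map_zero] at hVK0
    exact hVK0 rfl
  have hx3 : x₃ = algebraMap k[X] (RatFunc k) U / algebraMap k[X] (RatFunc k) V := by
    rw [eq_div_iff hVK0, hUK, hVK]
    ring
  have e3 : (Dpol ^ 2 * x.denom ^ 3).natDegree ≤ 2 * Dpol.natDegree + 3 * x.denom.natDegree := by
    refine natDegree_mul_le.trans ?_
    rw [natDegree_pow, natDegree_pow]
  rw [hx3]
  refine (ht_div_le U V hV0).trans (max_le ?_ ?_)
  · rw [hU]
    refine natDegree_mul_le.trans ?_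
    have : (x.num ^ 3 - C 8 * (Dpol ^ 2 * x.denom ^ 3)).natDegree ≤
        3 * ht x + 2 * Dpol.natDegree := by
      refine (natDegree_sub_le _ _).trans (max_le ?_ ?_)
      · rw [natDegree_pow]; omega
      · refine (natDegree_C_mul_le _ _).trans ?_
        omega
    omega
  · rw [hV]
    refine (natDegree_C_mul_le _ _).trans ?_
    refine natDegree_mul_le.trans ?_
    have : (x.num ^ 3 + Dpol ^ 2 * x.denom ^ 3).natDegree ≤
        3 * ht x + 2 * Dpol.natDegree := by
      refine (natDegree_add_le _ _).trans (max_le ?_ ?_)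
      · rw [natDegree_pow]; omega
      · omega
    omega

/-- The height of `y / D`. -/
lemma ht_slope_le (Dpol : k[X]) (hD : Dpol ≠ 0) (x y : RatFunc k)
    (h : y ^ 2 = x ^ 3 + (algebraMap k[X] (RatFunc k) Dpol) ^ 2) :
    2 * ht (y / algebraMap k[X] (RatFunc k) Dpol) ≤ 3 * ht x + 2 * Dpol.natDegree := by
  have hn1 : x.num.natDegree ≤ ht x := le_max_left _ _
  have hdd1 : x.denom.natDegree ≤ ht x := le_max_right _ _
  have hm1 := mul_denom x
  have he1 : algebraMap k[X] (RatFunc k) x.denom ≠ 0 := RatFunc.algebraMap_ne_zero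
    (RatFunc.denom_ne_zero x)
  have hD' : algebraMap k[X] (RatFunc k) Dpol ≠ 0 := RatFunc.algebraMap_ne_zero hD
  have e3 : (x.denom ^ 3 * Dpol ^ 2).natDegree ≤ 3 * x.denom.natDegree + 2 * Dpol.natDegree := by
    refine natDegree_mul_le.trans ?_
    rw [natDegree_pow, natDegree_pow]
  rw [← ht_pow]
  have hx3 : (y / algebraMap k[X] (RatFunc k) Dpol) ^ 2 =
      algebraMap k[X] (RatFunc k) (x.num ^ 3 + x.denom ^ 3 * Dpol ^ 2) /
        algebraMap k[X] (RatFunc k) (x.denom ^ 3 * Dpol ^ 2) := by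
    simp only [map_add, map_mul, map_pow]
    rw [← hm1, div_pow, h]
    field_simp
  rw [hx3]
  refine (ht_div_le _ _ (mul_ne_zero (pow_ne_zero _ (RatFunc.denom_ne_zero x))
    (pow_ne_zero _ hD))).trans (max_le ?_ ?_)
  · refine (natDegree_add_le _ _).trans (max_le ?_ ?_)
    · rw [natDegree_pow]; omega
    · omega
  · omega

/-- The height of the `x`-coordinate. -/
noncomputable def hgt {D : RatFunc k} : Pt D → ℕ
  | .zero => 0
  | .some x _ _ => ht x

variable [DecidableEq (RatFunc k)]

lemma hgt_add_le (Dpol : k[X]) (h2 : (2 : k) ≠ 0)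
    (P Q : Pt (algebraMap k[X] (RatFunc k) Dpol)) :
    hgt (P + Q) ≤ 2 * hgt P + 2 * hgt Q + 2 * Dpol.natDegree := by
  cases P with
  | zero =>
    have : WeierstrassCurve.Affine.Point.zero + Q = Q := zero_add Q
    rw [this]
    omega
  | some x₁ y₁ h₁ =>
    cases Q with
    | zero =>
      have : WeierstrassCurve.Affine.Point.some x₁ y₁ h₁ + WeierstrassCurve.Affine.Point.zero =
        .some x₁ y₁ h₁ := add_zero _
      rw [this]
      omega
    | some x₂ y₂ h₂ =>
      have e₁ := (mordell_equation _ _ _).1 h₁.1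
      have e₂ := (mordell_equation _ _ _).1 h₂.1
      have hneg : ∀ x y : RatFunc k,
          (mordell ((algebraMap k[X] (RatFunc k) Dpol) ^ 2)).toAffine.negY x y = -y := by
        intro x y; simp [WeierstrassCurve.Affine.negY, mordell]
      by_cases hx : x₁ = x₂
      · by_cases hy : y₁ = -y₂
        · rw [WeierstrassCurve.Affine.Point.add_of_Y_eq hx (by rw [hneg]; exact hy)]
          exact Nat.zero_le _
        · -- doubling
          have hyy : y₁ = y₂ := by
            have : (y₁ - y₂) * (y₁ + y₂) = 0 := by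
              rw [hx] at e₁
              linear_combination e₁ - e₂
            rcases mul_eq_zero.1 this with h' | h'
            · exact sub_eq_zero.1 h'
            · exact absurd (eq_neg_of_add_eq_zero_left h') hy
          subst hx
          subst hyy
          have hne : y₁ ≠ (mordell ((algebraMap k[X] (RatFunc k) Dpol) ^ 2)).toAffine.negY
            x₁ y₁ := by rw [hneg]; exact hy
          have hy0 : y₁ ≠ 0 := by
            rintro rfl
            exact hy (by simp)
          have h2' := two_ne_zero_ratFunc h2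
          rw [WeierstrassCurve.Affine.Point.add_self_of_Y_ne hne]
          simp only [hgt]
          have key := ht_dbl_le Dpol h2 x₁ y₁
            ((mordell ((algebraMap k[X] (RatFunc k) Dpol) ^ 2)).toAffine.addX x₁ x₁
              ((mordell ((algebraMap k[X] (RatFunc k) Dpol) ^ 2)).toAffine.slope x₁ x₁ y₁ y₁))
            e₁ hy0 (by
              rw [WeierstrassCurve.Affine.slope_of_Y_ne rfl hne, hneg]
              simp only [WeierstrassCurve.Affine.addX, mordell]
              have hyy : y₁ - -y₁ = 2 * y₁ := by ring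
              rw [hyy]
              field_simp
              ring)
          omega
      · rw [WeierstrassCurve.Affine.Point.add_of_X_ne hx]
        simp only [hgt]
        refine ht_add_le Dpol x₁ y₁ x₂ y₂ _ e₁ e₂ hx ?_
        rw [WeierstrassCurve.Affine.slope_of_X_ne hx]
        simp only [WeierstrassCurve.Affine.addX, mordell]
        have hd : x₁ - x₂ ≠ 0 := sub_ne_zero.2 hx
        field_simp
        ring

theorem exists_height (Dpol : k[X]) (hD : Dpol ≠ 0) (h2 : (2 : k) ≠ 0) (h3 : (3 : k) ≠ 0) :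
    ∃ Fh : Pt (algebraMap k[X] (RatFunc k) Dpol) → ℕ,
      (∀ P Q, Fh (P + Q) ≤ 2 * Fh P + 2 * Fh Q) ∧ (∀ P, Fh (P + P) ≤ 4 * Fh P) ∧
      (∀ P, Fh (-P) = Fh P) ∧
      ∃ c : ℕ, ∀ P, ht (slopeFun (algebraMap k[X] (RatFunc k) Dpol) P) ≤ c * Fh P := by
  refine ⟨fun P => hgt P + Dpol.natDegree, ?_, ?_, ?_, 2, ?_⟩
  · intro P Q
    have := hgt_add_le Dpol h2 P Q
    simp only
    omega
  · intro P
    have := hgt_add_le Dpol h2 P P
    simp only
    omega
  · intro P
    cases P with
    | zero => rfl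
    | some x y h => rfl
  · intro P
    cases P with
    | zero =>
      simp [slopeFun, ht]
    | some x y h =>
      have := ht_slope_le Dpol hD x y ((mordell_equation _ _ _).1 h.1)
      simp only [slopeFun, hgt]
      omega

lemma ht_piE (p : ℕ) [hp : Fact p.Prime] [CharP k p] (D : RatFunc k) (hD : D ≠ 0)
    (hp3 : p % 3 = 1) (P : Pt D) :
    ht (slopeFun D (piE p D hD hp3 P)) = p * ht (slopeFun D P) := by
  cases P with
  | zero =>
    rw [piE_zero]
    simp [slopeFun, ht]
  | some x y hns =>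
    obtain ⟨hns', e⟩ := piE_some p D hD hp3 x y hns
    rw [e]
    simp only [slopeFun]
    rw [← ht_pow, div_div, ← pow_succ, Nat.sub_add_cancel hp.out.one_le, div_pow]

/-- A point of height `0` is killed by `3`. -/
lemma gg_of_ht_eq_zero (α γ : k) (hα : α ≠ 0) (hγ : γ ≠ 0) (m : ℕ) (hm : (m : k) ≠ 0)
    (h2 : (2 : k) ≠ 0) (h3 : (3 : k) ≠ 0) (P : Pt (DD α γ m))
    (h : ht (slopeFun (DD α γ m) P) = 0) : 3 • P = 0 := by
  cases P with
  | zero => exact smul_zero (M := ℕ) (A := Pt (DD α γ m)) 3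
  | some x y hns =>
    have he := (mordell_equation _ _ _).1 hns.1
    have hm0 : m ≠ 0 := by
      rintro rfl
      exact hm (by simp)
    have hD : Dp α γ m ≠ 0 := by
      rw [Dp]
      exact mul_ne_zero (C_ne_zero.2 hα) (monic_X_pow_sub_C γ hm0).ne_zero
    have hDD : DD α γ m ≠ 0 := RatFunc.algebraMap_ne_zero hD
    simp only [slopeFun] at h
    -- `y / D` is constant
    obtain ⟨a, ha⟩ : ∃ a : k, y / DD α γ m = RatFunc.C a := by
      rw [ht] at h
      have hn : (y / DD α γ m).num.natDegree = 0 := by omega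
      have hd : (y / DD α γ m).denom.natDegree = 0 := by omega
      have hd1 : (y / DD α γ m).denom = 1 := (RatFunc.monic_denom _).natDegree_eq_zero.1 hd
      obtain ⟨a, ha⟩ := natDegree_eq_zero.1 hn
      refine ⟨a, ?_⟩
      rw [← RatFunc.num_div_denom (y / DD α γ m), hd1, map_one, div_one, ← ha,
        RatFunc.algebraMap_C]
    have hy : y = RatFunc.C a * DD α γ m := by
      rw [← ha, div_mul_cancel₀ _ hDD]
    have hx3 : x ^ 3 = RatFunc.C (a ^ 2 - 1) * DD α γ m ^ 2 := by
      rw [map_sub, map_pow, map_one]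
      rw [hy] at he
      linear_combination -he
    have hx0 : x = 0 := by
      by_contra hx0
      have ha1 : a ^ 2 - 1 ≠ 0 := by
        intro h0
        rw [h0, map_zero, zero_mul] at hx3
        exact hx0 (pow_eq_zero_iff (by norm_num) |>.1 hx3)
      -- a simple irreducible factor
      have hnu : ¬ IsUnit (X ^ m - C γ : k[X]) := by
        intro hu
        have := natDegree_eq_zero_of_isUnit hu
        rw [natDegree_X_pow_sub_C] at this
        exact hm0 this
      obtain ⟨q, hq, hqd⟩ := WfDvdMonoid.exists_irreducible_factor hnu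
        (monic_X_pow_sub_C γ hm0).ne_zero
      have hsq : Squarefree (X ^ m - C γ : k[X]) :=
        (separable_X_pow_sub_C γ hm hγ).squarefree
      have hm1 := mul_denom x
      have hnn : x.num ≠ 0 := RatFunc.num_ne_zero hx0
      have hdn : x.denom ≠ 0 := RatFunc.denom_ne_zero x
      have hpoly : x.num ^ 3 = C (a ^ 2 - 1) * (Dp α γ m) ^ 2 * x.denom ^ 3 := by
        apply RatFunc.algebraMap_injective k
        rw [map_pow, ← hm1, mul_pow, hx3, map_mul, map_mul, map_pow, map_pow, RatFunc.algebraMap_C]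
        rfl
      rw [Dp] at hpoly
      have hqp : Prime q := hq.prime
      have hE1 : emultiplicity q (X ^ m - C γ : k[X]) = 1 := by
        apply le_antisymm
        · rcases (squarefree_iff_emultiplicity_le_one _).1 hsq q with h' | h'
          · exact h'
          · exact absurd h' hq.not_isUnit
        · have := (pow_dvd_iff_le_emultiplicity (a := q) (k := 1)
            (b := (X ^ m - C γ : k[X]))).1 (by simpa using hqd)
          simpa using this
      have hE2 := congrArg (emultiplicity q) hpoly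
      have hu1 : emultiplicity q (C (a ^ 2 - 1)) = 0 :=
        emultiplicity_of_isUnit_right hq.not_isUnit (isUnit_C.2 (isUnit_iff_ne_zero.2 ha1))
      have hu2 : emultiplicity q (C α) = 0 :=
        emultiplicity_of_isUnit_right hq.not_isUnit (isUnit_C.2 (isUnit_iff_ne_zero.2 hα))
      rw [emultiplicity_pow hqp, emultiplicity_mul hqp, emultiplicity_mul hqp,
        emultiplicity_pow hqp, emultiplicity_pow hqp, emultiplicity_mul hqp, hu1, hu2, hE1,
        (FiniteMultiplicity.of_prime_left hqp hnn).emultiplicity_eq_multiplicity,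
        (FiniteMultiplicity.of_prime_left hqp hdn).emultiplicity_eq_multiplicity] at hE2
      norm_cast at hE2
      omega
    subst hx0
    have hya : y ^ 2 = DD α γ m ^ 2 := by
      rw [he]; ring
    have hy0 : y ≠ 0 := by
      rintro rfl
      apply hDD
      have : DD α γ m ^ 2 = 0 := by rw [← hya]; ring
      exact (pow_eq_zero_iff (by norm_num)).1 this
    have h2' := two_ne_zero_ratFunc h2
    have hneg : ∀ x y : RatFunc k,
        (mordell ((DD α γ m) ^ 2)).toAffine.negY x y = -y := by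
      intro x y; simp [WeierstrassCurve.Affine.negY, mordell]
    have hne : y ≠ (mordell ((DD α γ m) ^ 2)).toAffine.negY 0 y := by
      rw [hneg]
      intro h'
      have : (2 : RatFunc k) * y = 0 := by linear_combination h'
      rcases mul_eq_zero.1 this with h'' | h''
      · exact h2' h''
      · exact hy0 h''
    have hdbl : (WeierstrassCurve.Affine.Point.some 0 y hns : Pt (DD α γ m)) +
        WeierstrassCurve.Affine.Point.some 0 y hns =
        -(WeierstrassCurve.Affine.Point.some 0 y hns : Pt (DD α γ m)) := by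
      rw [WeierstrassCurve.Affine.Point.add_self_of_Y_ne hne]
      rw [WeierstrassCurve.Affine.Point.neg_some]
      simp only [WeierstrassCurve.Affine.Point.some.injEq]
      rw [WeierstrassCurve.Affine.slope_of_Y_ne rfl hne]
      simp [WeierstrassCurve.Affine.addX, WeierstrassCurve.Affine.addY,
        WeierstrassCurve.Affine.negAddY, WeierstrassCurve.Affine.negY, mordell]
    have h3' : (3 : ℕ) = 2 + 1 := rfl
    rw [h3', add_smul, two_smul, one_smul, hdbl, neg_add_cancel]

lemma ht_of_isOfFinAddOrder (D : RatFunc k) (hD : D ≠ 0) (h2 : (2 : k) ≠ 0) (h3 : (3 : k) ≠ 0)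
    (P : Pt D) (h : IsOfFinAddOrder P) : ht (slopeFun D P) = 0 := by
  by_contra hne
  exact infinite_order D hD h2 h3 P (Nat.pos_of_ne_zero hne) h

end HT

end Pool.Agent.Helper23.K6
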