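import Mathlib
import Pool.Agent.Helper23.K6.HH

/-!
Operators on the group of points.
-/

namespace Pool.Agent.Helper23.K6

open Polynomial Pool.Agent.Helper44

section generic

variable {G H : Type*} [AddCommGroup G] [AddCommGroup H]

omit [AddCommGroup H] in
lemma end_add (f g : AddMonoid.End G) (x : G) : (f + g) x = f x + g x := rfl

omit [AddCommGroup H] in
lemma end_mul (f g : AddMonoid.End G) (x : G) : (f * g) x = f (g x) := rfl

lemma aeval_comm (h : G →+ H) (Z : AddMonoid.End G) (Z' : AddMonoid.End H)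
    (hc : ∀ x, h (Z x) = Z' (h x)) (f : ℤ[X]) (x : G) :
    h (aeval Z f x) = aeval Z' f (h x) := by
  induction f using Polynomial.induction_on' generalizing x with
  | add f g hf hg =>
    rw [map_add, map_add, end_add, end_add, map_add, hf, hg]
  | monomial n a =>
    have hpow : ∀ (n : ℕ) (x : G), h ((Z ^ n) x) = (Z' ^ n) (h x) := by
      intro n
      induction n with
      | zero => intro x; simp
      | succ n ih =>
        intro x
        rw [pow_succ, pow_succ, end_mul, end_mul, ih, hc]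
    rw [aeval_monomial, aeval_monomial, end_mul, end_mul]
    have e1 : ∀ y : G, (algebraMap ℤ (AddMonoid.End G) a) y = a • y := by
      intro y
      rw [eq_intCast]
      exact AddMonoid.End.intCast_apply a y
    have e2 : ∀ y : H, (algebraMap ℤ (AddMonoid.End H) a) y = a • y := by
      intro y
      rw [eq_intCast]
      exact AddMonoid.End.intCast_apply a y
    rw [e1, e2, map_zsmul, hpow]

lemma aeval_mul_apply {k : Type*} [Field k] (z : k) (f : ℤ[X]) (y : k) :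
    aeval (Module.toAddMonoidEnd k k z) f y = aeval z f * y := by
  have h := Polynomial.aeval_algHom_apply (Module.toAddMonoidEnd k k).toIntAlgHom z f
  change (aeval ((Module.toAddMonoidEnd k k).toIntAlgHom z)) f y = _
  rw [h]
  rfl

lemma aeval_comm_mul {k : Type*} [Field k] (h : G →+ k) (Z : AddMonoid.End G) (z : k)
    (hc : ∀ x, h (Z x) = z * h x) (f : ℤ[X]) (x : G) :
    h (aeval Z f x) = aeval z f * h x := by
  rw [← aeval_mul_apply]
  exact aeval_comm h Z (Module.toAddMonoidEnd k k z) hc f x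

end generic

section ops

variable {k : Type*} [Field k] [DecidableEq (RatFunc k)] {p : ℕ} {α γ : k} {l : ℕ}

omit [DecidableEq (RatFunc k)] in
lemma Good.zne (hG : Good p α γ l) {ζ : k} (hζ : ζ ^ (3 * l) = 1) : ζ ≠ 0 :=
  ne_zero_of_pow_eq_one' (by have := hG.hl0; omega) hζ

omit [DecidableEq (RatFunc k)] in
lemma ratFunc_hom_ext {k' : Type*} [Field k'] {φ ψ : RatFunc k →+* RatFunc k'}
    (h : ∀ f : k[X], φ (algebraMap k[X] (RatFunc k) f) = ψ (algebraMap k[X] (RatFunc k) f)) :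
    φ = ψ := by
  ext f
  obtain ⟨n, q, hq, rfl⟩ := exists_div f
  rw [map_div₀, map_div₀, h, h]

omit [DecidableEq (RatFunc k)] in
lemma scl_comp (ζ₁ ζ₂ : k) (h₁ : ζ₁ ≠ 0) (h₂ : ζ₂ ≠ 0) (f : RatFunc k) :
    scl ζ₁ h₁ (scl ζ₂ h₂ f) = scl (ζ₁ * ζ₂) (mul_ne_zero h₁ h₂) f := by
  have : (scl ζ₁ h₁).comp (scl ζ₂ h₂) = scl (ζ₁ * ζ₂) (mul_ne_zero h₁ h₂) := by
    apply ratFunc_hom_ext
    intro f
    rw [RingHom.comp_apply, scl_algebraMap, scl_algebraMap, scl_algebraMap, comp_assoc]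
    congr 2
    simp only [mul_comp, C_comp, X_comp, map_mul]
    ring
  rw [← this, RingHom.comp_apply]

omit [DecidableEq (RatFunc k)] in
lemma scl_one (h : (1 : k) ≠ 0) (f : RatFunc k) : scl 1 h f = f := by
  have : scl 1 h = RingHom.id (RatFunc k) := by
    apply ratFunc_hom_ext
    intro f
    rw [scl_algebraMap, map_one, one_mul, comp_X]
    rfl
  rw [this, RingHom.id_apply]

omit [DecidableEq (RatFunc k)] in
lemma scl_C (ζ : k) (h : ζ ≠ 0) (a : k) : scl ζ h (RatFunc.C a) = RatFunc.C a := by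
  rw [← RatFunc.algebraMap_C, scl_algebraMap, C_comp]

lemma opZ_some (hG : Good p α γ l) (ζ u : k) (hζ : ζ ^ (3 * l) = 1) (hu : u ^ 3 = 1)
    (x y : RatFunc k) (hns : (mordell ((DD α γ (3 * l)) ^ 2)).toAffine.Nonsingular x y) :
    ∃ hns', opZ hG ζ u hζ hu (.some x y hns) =
      .some (RatFunc.C u * scl ζ (hG.zne hζ) x)
        (scl ζ (hG.zne hζ) y) hns' := by
  have hζ0 : ζ ≠ 0 := ne_zero_of_pow_eq_one' (by have := hG.hl0; omega) hζ
  have e1 : (RatFunc.C (u ^ 2) : RatFunc k) ^ 2 * scl ζ hζ0 x = RatFunc.C u * scl ζ hζ0 x := by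
    rw [← map_pow]
    congr 2
    have : (u ^ 2) ^ 2 = u ^ 3 * u := by ring
    rw [this, hu, one_mul]
  have e2 : (RatFunc.C (u ^ 2) : RatFunc k) ^ 3 * scl ζ hζ0 y = scl ζ hζ0 y := by
    rw [← map_pow]
    have : (u ^ 2) ^ 3 = (u ^ 3) ^ 2 := by ring
    rw [this, hu, one_pow, map_one, one_mul]
  have h := tw_some (scl ζ hζ0) (RatFunc.C (u ^ 2))
    ((_root_.map_ne_zero _).2 (pow_ne_zero _ (ne_zero_of_pow_eq_one' (by norm_num) hu)))
    (opZ_aux ζ u (3 * l) hζ0 hζ hu) x y hns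
  simp only [e1, e2] at h
  exact ⟨_, h⟩

lemma opZ_zero (hG : Good p α γ l) (ζ u : k) (hζ : ζ ^ (3 * l) = 1) (hu : u ^ 3 = 1) :
    opZ hG ζ u hζ hu .zero = .zero := rfl

lemma opZ_comp (hG : Good p α γ l) (ζ₁ u₁ ζ₂ u₂ ζ u : k) (hζ₁ : ζ₁ ^ (3 * l) = 1)
    (hu₁ : u₁ ^ 3 = 1) (hζ₂ : ζ₂ ^ (3 * l) = 1) (hu₂ : u₂ ^ 3 = 1) (hζ : ζ ^ (3 * l) = 1)
    (hu : u ^ 3 = 1) (e1 : ζ = ζ₁ * ζ₂) (e2 : u = u₁ * u₂) (P : Pt (DD α γ (3 * l))) :
    opZ hG ζ₁ u₁ hζ₁ hu₁ (opZ hG ζ₂ u₂ hζ₂ hu₂ P) = opZ hG ζ u hζ hu P := by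
  subst e1 e2
  cases P with
  | zero => rfl
  | some x y hns =>
    obtain ⟨h1, e1⟩ := opZ_some hG ζ₂ u₂ hζ₂ hu₂ x y hns
    obtain ⟨h2, e2⟩ := opZ_some hG (ζ₁ * ζ₂) (u₁ * u₂) hζ hu x y hns
    rw [e1, e2]
    obtain ⟨h3, e3⟩ := opZ_some hG ζ₁ u₁ hζ₁ hu₁ _ _ h1
    rw [e3]
    simp only [WeierstrassCurve.Affine.Point.some.injEq]
    rw [map_mul, scl_C, scl_comp, scl_comp, map_mul]
    exact ⟨by ring, rfl⟩

lemma opZ_one (hG : Good p α γ l) (h1 : (1 : k) ^ (3 * l) = 1) (h2 : (1 : k) ^ 3 = 1)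
    (P : Pt (DD α γ (3 * l))) : opZ hG 1 1 h1 h2 P = P := by
  cases P with
  | zero => rfl
  | some x y hns =>
    obtain ⟨h1, e1⟩ := opZ_some hG 1 1 h1 h2 x y hns
    rw [e1]
    simp only [WeierstrassCurve.Affine.Point.some.injEq]
    rw [scl_one, scl_one, map_one, one_mul]
    exact ⟨rfl, rfl⟩

lemma opZ_congr (hG : Good p α γ l) {ζ u ζ' u' : k} (hζ : ζ ^ (3 * l) = 1) (hu : u ^ 3 = 1)
    (hζ' : ζ' ^ (3 * l) = 1) (hu' : u' ^ 3 = 1) (e1 : ζ = ζ') (e2 : u = u')
    (P : Pt (DD α γ (3 * l))) : opZ hG ζ u hζ hu P = opZ hG ζ' u' hζ' hu' P := by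
  subst e1 e2; rfl

/-- `1 + [ε] + [ε²] = 0`. -/
lemma opZ_sum (hG : Good p α γ l) (ε : k) (h1 : (1 : k) ^ (3 * l) = 1) (hε : ε ^ 3 = 1)
    (hε' : ε ^ 2 + ε + 1 = 0) (hε2 : (ε ^ 2) ^ 3 = 1) (P : Pt (DD α γ (3 * l))) :
    P + opZ hG 1 ε h1 hε P = - opZ hG 1 (ε ^ 2) h1 hε2 P := by
  cases P with
  | zero =>
    rw [opZ_zero, opZ_zero]
    change (0 : Pt (DD α γ (3 * l))) + 0 = -0
    rw [add_zero, neg_zero]
  | some x y hns =>
    obtain ⟨h2, e2⟩ := opZ_some hG 1 ε h1 hε x y hns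
    obtain ⟨h3, e3⟩ := opZ_some hG 1 (ε ^ 2) h1 hε2 x y hns
    have hxy : y ^ 2 = x ^ 3 + (DD α γ (3 * l)) ^ 2 := (mordell_equation _ _ _).1 hns.1
    have hy := y_ne_zero_of α γ hG.hα hG.hγ (3 * l) hG.hl3 x y hxy
    rw [e2, e3, WeierstrassCurve.Affine.Point.neg_some]
    have hneg : ∀ x y : RatFunc k, (mordell ((DD α γ (3 * l)) ^ 2)).toAffine.negY x y = -y := by
      intro x y; simp [WeierstrassCurve.Affine.negY, mordell]
    simp only [scl_one] at h2 h3 ⊢
    have hCε : (RatFunc.C ε : RatFunc k) ^ 2 + RatFunc.C ε + 1 = 0 := by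
      have := congrArg (RatFunc.C : k →+* RatFunc k) hε'
      simpa only [map_add, map_pow, map_one, map_zero] using this
    have hε1 : (RatFunc.C ε : RatFunc k) ≠ 1 := by
      intro h
      rw [h] at hCε
      apply three_ne_zero_ratFunc hG.h3
      linear_combination hCε
    by_cases hx : x = 0
    · subst hx
      have h2' := two_ne_zero_ratFunc hG.h2
      have hne : y ≠ (mordell ((DD α γ (3 * l)) ^ 2)).toAffine.negY 0 y := by
        rw [hneg]
        intro h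
        have : (2 : RatFunc k) * y = 0 := by linear_combination h
        exact (mul_ne_zero h2' hy) this
      simp only [mul_zero]
      rw [WeierstrassCurve.Affine.Point.add_self_of_Y_ne hne]
      simp only [WeierstrassCurve.Affine.Point.some.injEq]
      rw [WeierstrassCurve.Affine.slope_of_Y_ne rfl hne]
      simp only [WeierstrassCurve.Affine.addX, WeierstrassCurve.Affine.addY,
        WeierstrassCurve.Affine.negAddY, WeierstrassCurve.Affine.negY, mordell]
      simp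
    · have hne : x ≠ RatFunc.C ε * x := by
        intro h
        apply hε1
        have : (RatFunc.C ε - 1) * x = 0 := by linear_combination -h
        rcases mul_eq_zero.1 this with h' | h'
        · exact sub_eq_zero.1 h'
        · exact absurd h' hx
      rw [WeierstrassCurve.Affine.Point.add_of_X_ne hne]
      simp only [WeierstrassCurve.Affine.Point.some.injEq]
      rw [WeierstrassCurve.Affine.slope_of_X_ne hne]
      simp only [WeierstrassCurve.Affine.addX, WeierstrassCurve.Affine.addY,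
        WeierstrassCurve.Affine.negAddY, WeierstrassCurve.Affine.negY, mordell, sub_self, zero_div]
      rw [map_pow]
      constructor
      · linear_combination (-x) * hCε
      · ring

variable [hp : Fact p.Prime] [CharP k p]

lemma piE_opZ (hG : Good p α γ l) (ζ u : k) (hζ : ζ ^ (3 * l) = 1) (hu : u ^ 3 = 1)
    (P : Pt (DD α γ (3 * l))) :
    piE p (DD α γ (3 * l)) hG.hD hG.hp3 (opZ hG ζ u hζ hu P) =
      opZ hG ζ u hζ hu (piE p (DD α γ (3 * l)) hG.hD hG.hp3 P) := by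
  cases P with
  | zero => rfl
  | some x y hns =>
    obtain ⟨h1, e1⟩ := opZ_some hG ζ u hζ hu x y hns
    obtain ⟨h2, e2⟩ := piE_some p (DD α γ (3 * l)) hG.hD hG.hp3 x y hns
    rw [e1, e2]
    obtain ⟨h3, e3⟩ := opZ_some hG ζ u hζ hu _ _ h2
    obtain ⟨h4, e4⟩ := piE_some p (DD α γ (3 * l)) hG.hD hG.hp3 _ _ h1
    rw [e3, e4]
    simp only [WeierstrassCurve.Affine.Point.some.injEq]
    have hup : u ^ p = u := by
      have : p = 3 * (p / 3) + 1 := by have := hG.hp3; omega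
      rw [this, pow_add, pow_mul, hu, one_pow, one_mul, pow_one]
    rw [map_div₀, map_div₀, map_pow, map_pow, map_pow, map_pow, scl_DD _ _ _ hζ, mul_pow, ← map_pow,
      hup]
    exact ⟨by ring, rfl⟩

end ops

end Pool.Agent.Helper23.K6
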