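import Mathlib

/-! Module PIGEON: abstract lattice pigeonhole with heights (MP_3da457_ag, negative half). -/

namespace Pool.Agent.Helper23.K6

/-- growth of heights of multiples -/
lemma pigeon_mul {G : Type*} [AddCommGroup G] (Fh : G → ℕ)
    (hF1 : ∀ P Q, Fh (P + Q) ≤ 2 * Fh P + 2 * Fh Q) (hF2 : ∀ P, Fh (P + P) ≤ 4 * Fh P)
    (s : ℕ) (P : G) :
    ∃ M : ℕ, ∀ L n : ℕ, n < 2 ^ (s * L) → Fh (n • P) + 2 * M ≤ 4 * M * (2 * 4 ^ s) ^ L := by
  have hpow : ∀ (j : ℕ) (R : G), Fh (2 ^ j • R) ≤ 4 ^ j * Fh R := by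
    intro j
    induction j with
    | zero => intro R; simp
    | succ j ih =>
      intro R
      have h1 : (2 ^ (j + 1)) • R = (2 ^ j) • R + (2 ^ j) • R := by
        rw [pow_succ, mul_two, add_smul]
      rw [h1]
      refine (hF2 _).trans ?_
      calc 4 * Fh (2 ^ j • R) ≤ 4 * (4 ^ j * Fh R) := Nat.mul_le_mul_left _ (ih R)
        _ = 4 ^ (j + 1) * Fh R := by ring
  obtain ⟨M, hM⟩ : ∃ M : ℕ, ∀ d < 2 ^ s, Fh (d • P) ≤ M :=
    ⟨∑ d ∈ Finset.range (2 ^ s), Fh (d • P), fun d hd =>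
      Finset.single_le_sum (f := fun d => Fh (d • P)) (fun i _ => Nat.zero_le _)
        (Finset.mem_range.2 hd)⟩
  refine ⟨M, fun L => ?_⟩
  induction L with
  | zero =>
    intro n hn
    have : n = 0 := by simpa using hn
    subst this
    have := hM 0 (by positivity)
    simp only [pow_zero, mul_one]
    omega
  | succ L ih =>
    intro n hn
    have hn' : n / 2 ^ s < 2 ^ (s * L) := by
      rw [Nat.div_lt_iff_lt_mul (by positivity), ← pow_add]
      rwa [show s * L + s = s * (L + 1) by ring]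
    have h1 : n • P = (2 ^ s) • ((n / 2 ^ s) • P) + (n % 2 ^ s) • P := by
      rw [smul_smul, ← add_smul, Nat.div_add_mod]
    have h2 := hM (n % 2 ^ s) (Nat.mod_lt _ (by positivity))
    have h3 := ih (n / 2 ^ s) hn'
    have h4 := hpow s ((n / 2 ^ s) • P)
    have h5 := hF1 ((2 ^ s) • ((n / 2 ^ s) • P)) ((n % 2 ^ s) • P)
    rw [← h1] at h5
    have hK : 2 ≤ 2 * 4 ^ s := by
      have : 1 ≤ 4 ^ s := Nat.one_le_pow _ _ (by norm_num)
      omega
    calc Fh (n • P) + 2 * M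
        ≤ 2 * (4 ^ s * Fh ((n / 2 ^ s) • P)) + 2 * M + 2 * M := by omega
      _ ≤ (2 * 4 ^ s) * Fh ((n / 2 ^ s) • P) + (2 * 4 ^ s) * (2 * M) := by
          have : 2 * (2 * M) ≤ (2 * 4 ^ s) * (2 * M) := Nat.mul_le_mul_right _ hK
          nlinarith
      _ = (2 * 4 ^ s) * (Fh ((n / 2 ^ s) • P) + 2 * M) := by ring
      _ ≤ (2 * 4 ^ s) * (4 * M * (2 * 4 ^ s) ^ L) := Nat.mul_le_mul_left _ h3
      _ = 4 * M * (2 * 4 ^ s) ^ (L + 1) := by ring

/-- growth of heights of linear combinations -/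
lemma pigeon_sum {G : Type*} [AddCommGroup G] (Fh : G → ℕ)
    (hF1 : ∀ P Q, Fh (P + Q) ≤ 2 * Fh P + 2 * Fh Q) (hF2 : ∀ P, Fh (P + P) ≤ 4 * Fh P)
    (s : ℕ) {r : ℕ} (Q : Fin r → G) (T : Finset (Fin r)) :
    ∃ C : ℕ, ∀ (L : ℕ) (n : Fin r → ℕ), (∀ i, n i < 2 ^ (s * L)) →
      Fh (∑ i ∈ T, n i • Q i) ≤ C * (2 * 4 ^ s) ^ L := by
  classical
  induction T using Finset.induction_on with
  | empty =>
    refine ⟨Fh 0, fun L n _ => ?_⟩
    rw [Finset.sum_empty]
    exact Nat.le_mul_of_pos_right _ (by positivity)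
  | insert i T hi ih =>
    obtain ⟨C, hC⟩ := ih
    obtain ⟨M, hM⟩ := pigeon_mul Fh hF1 hF2 s (Q i)
    refine ⟨2 * (4 * M) + 2 * C, fun L n hn => ?_⟩
    rw [Finset.sum_insert hi]
    have h1 := hF1 (n i • Q i) (∑ i ∈ T, n i • Q i)
    have h2 := hM L (n i) (hn i)
    have h3 := hC L n hn
    calc _ ≤ 2 * Fh (n i • Q i) + 2 * Fh (∑ i ∈ T, n i • Q i) := h1
      _ ≤ 2 * (4 * M * (2 * 4 ^ s) ^ L) + 2 * (C * (2 * 4 ^ s) ^ L) := by omega
      _ = _ := by ring

/-- pigeonhole through the kernel of `hh` -/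
lemma pigeon_iter {G : Type*} [AddCommGroup G] (π : G →+ G) (hπ : Function.Injective π)
    (p : ℕ) (S : AddSubgroup G) (hSπ : ∀ P, π P ∈ S → P ∈ S)
    {V : Type*} [AddCommGroup V] (hh : G →+ V) (hker : ∀ P ∈ S, hh P = 0 → ∃ P₁, π P₁ = P)
    (t : ℕ) (hfin : Finite (S.map hh)) (hcard : Nat.card (S.map hh) ≤ p ^ t) :
    ∀ (N : ℕ) (X : Finset G), (∀ x ∈ X, x ∈ S) → p ^ (t * N) < X.card →
      ∃ x ∈ X, ∃ y ∈ X, x ≠ y ∧ ∃ z ∈ S, x - y = π^[N] z := by
  classical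
  intro N
  induction N with
  | zero =>
    intro X hX hc
    rw [mul_zero, pow_zero] at hc
    obtain ⟨x, hx, y, hy, hxy⟩ := Finset.one_lt_card.1 hc
    exact ⟨x, hx, y, hy, hxy, x - y, S.sub_mem (hX x hx) (hX y hy), rfl⟩
  | succ N ih =>
    intro X hX hc
    have hfs : (↑(S.map hh) : Set V).Finite := hfin
    set T : Finset V := hfs.toFinset with hT
    have hTc : T.card ≤ p ^ t := by
      rw [hT, ← Nat.card_eq_card_finite_toFinset hfs]
      exact hcard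
    have hmaps : ∀ x ∈ X, hh x ∈ T := fun x hx => by
      rw [hT, Set.Finite.mem_toFinset]
      exact ⟨x, hX x hx, rfl⟩
    have hmul : T.card * p ^ (t * N) < X.card := by
      refine lt_of_le_of_lt (Nat.mul_le_mul_right _ hTc) ?_
      rwa [← pow_add, show t + t * N = t * (N + 1) by ring]
    obtain ⟨v, -, hv⟩ := Finset.exists_lt_card_fiber_of_mul_lt_card_of_maps_to hmaps hmul
    set Y := X.filter (fun x => hh x = v) with hY
    have hYne : Y.Nonempty := Finset.card_pos.1 (lt_of_le_of_lt (Nat.zero_le _) hv)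
    obtain ⟨y0, hy0⟩ := hYne
    have hYX : ∀ y ∈ Y, y ∈ X ∧ hh y = v := fun y hy => Finset.mem_filter.1 hy
    have hw : ∀ y : G, ∃ w : G, y ∈ Y → π w = y - y0 := by
      intro y
      by_cases hy : y ∈ Y
      · have h1 : hh (y - y0) = 0 := by rw [map_sub, (hYX y hy).2, (hYX y0 hy0).2, sub_self]
        obtain ⟨w, hw⟩ := hker (y - y0) (S.sub_mem (hX y (hYX y hy).1) (hX y0 (hYX y0 hy0).1)) h1
        exact ⟨w, fun _ => hw⟩
      · exact ⟨0, fun h => absurd h hy⟩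
    choose w hw using hw
    have hinj : Set.InjOn w (Y : Set G) := by
      intro a ha b hb hab
      have h1 := hw a ha
      have h2 := hw b hb
      rw [hab, h2] at h1
      exact (sub_left_injective h1).symm
    have hWc : p ^ (t * N) < (Y.image w).card := by
      rw [Finset.card_image_of_injOn hinj]; exact hv
    have hWS : ∀ x ∈ Y.image w, x ∈ S := by
      intro x hx
      obtain ⟨y, hy, rfl⟩ := Finset.mem_image.1 hx
      refine hSπ _ ?_
      rw [hw y hy]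
      exact S.sub_mem (hX y (hYX y hy).1) (hX y0 (hYX y0 hy0).1)
    obtain ⟨a, ha, b, hb, hab, z, hz, hzab⟩ := ih _ hWS hWc
    obtain ⟨x, hx, rfl⟩ := Finset.mem_image.1 ha
    obtain ⟨y, hy, rfl⟩ := Finset.mem_image.1 hb
    refine ⟨x, (hYX x hx).1, y, (hYX y hy).1, fun h => hab (by rw [h]), z, hz, ?_⟩
    rw [Function.iterate_succ_apply', ← hzab, map_sub, hw x hx, hw y hy]
    abel

theorem pigeon {G : Type*} [AddCommGroup G] (π : G →+ G) (hπ : Function.Injective π)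
    (p : ℕ) (hp : 2 ≤ p) (Fh NN : G → ℕ) (hF1 : ∀ P Q, Fh (P + Q) ≤ 2 * Fh P + 2 * Fh Q)
    (hF2 : ∀ P, Fh (P + P) ≤ 4 * Fh P) (hFneg : ∀ P, Fh (-P) = Fh P)
    (c : ℕ) (hNF : ∀ P, NN P ≤ c * Fh P) (hNπ : ∀ P, NN (π P) = p * NN P)
    (S : AddSubgroup G) (hSπ : ∀ P, π P ∈ S → P ∈ S)
    {V : Type*} [AddCommGroup V] (hh : G →+ V) (hker : ∀ P ∈ S, hh P = 0 → ∃ P₁, π P₁ = P)
    (t : ℕ) (hfin : Finite (S.map hh)) (hcard : Nat.card (S.map hh) ≤ p ^ t)
    (r : ℕ) (Q : Fin r → G) (hQS : ∀ i, Q i ∈ S)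
    (hind : ∀ n : Fin r → ℤ, n ≠ 0 → NN (∑ i, n i • Q i) ≠ 0) : r ≤ 2 * t := by
  classical
  by_contra hcon
  have hr : 2 * t + 1 ≤ r := by omega
  set s : ℕ := 2 * t + 1 with hs
  obtain ⟨C, hC⟩ := pigeon_sum Fh hF1 hF2 s Q Finset.univ
  set C' : ℕ := 4 * c * C + 1 with hC'
  set L : ℕ := p * C' with hL
  have hL1 : 1 ≤ L := Nat.mul_pos (by omega) (by omega)
  set B : ℕ := C' * (2 * 4 ^ s) ^ L with hB
  have hB1 : 1 ≤ B := Nat.mul_pos (by omega) (by positivity)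
  have hex : ∃ N, B < p ^ N := ⟨B, Nat.lt_pow_self (by omega)⟩
  obtain ⟨N, hN, hNmin⟩ : ∃ N, B < p ^ N ∧ ∀ j < N, p ^ j ≤ B :=
    ⟨Nat.find hex, Nat.find_spec hex, fun j hj => not_lt.1 (Nat.find_min hex hj)⟩
  have hN1 : 1 ≤ N := by
    by_contra h
    have : N = 0 := by omega
    rw [this, pow_zero] at hN
    omega
  have hKL : (2 * 4 ^ s) ^ L = 2 ^ ((2 * s + 1) * L) := by
    rw [show (4 : ℕ) = 2 ^ 2 by norm_num, ← pow_mul, ← pow_succ', ← pow_mul]
  have hNup : p ^ N < 2 ^ ((2 * s + 2) * L) := by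
    have h1 : p ^ (N - 1) ≤ B := hNmin _ (by omega)
    have h2 : p ^ N = p * p ^ (N - 1) := by
      rw [← pow_succ']; congr 1; omega
    calc p ^ N = p * p ^ (N - 1) := h2
      _ ≤ p * B := Nat.mul_le_mul_left _ h1
      _ = L * 2 ^ ((2 * s + 1) * L) := by rw [hB, hL, hKL]; ring
      _ < 2 ^ L * 2 ^ ((2 * s + 1) * L) :=
          Nat.mul_lt_mul_of_pos_right Nat.lt_two_pow_self (by positivity)
      _ = 2 ^ ((2 * s + 2) * L) := by rw [← pow_add]; congr 1; ring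
  set X : Finset G := (Fintype.piFinset fun _ : Fin r => Finset.range (2 ^ (s * L))).image
    (fun n => ∑ i, n i • Q i) with hX
  have hNN0 : NN 0 = 0 := by
    have := hNπ 0
    rw [map_zero] at this
    by_contra h
    have h2 : 1 ≤ NN 0 := Nat.one_le_iff_ne_zero.2 h
    nlinarith
  have hdiff : ∀ n n' : Fin r → ℕ, ∑ i, n i • Q i - ∑ i, n' i • Q i =
      ∑ i, ((n i : ℤ) - (n' i : ℤ)) • Q i := by
    intro n n'
    rw [← Finset.sum_sub_distrib]
    refine Finset.sum_congr rfl fun i _ => ?_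
    rw [sub_smul, natCast_zsmul, natCast_zsmul]
  have hne : ∀ n n' : Fin r → ℕ, n ≠ n' → NN (∑ i, n i • Q i - ∑ i, n' i • Q i) ≠ 0 := by
    intro n n' h
    rw [hdiff]
    refine hind _ fun h0 => h ?_
    funext i
    have := congrFun h0 i
    simp only [Pi.zero_apply] at this
    omega
  have hXc : X.card = 2 ^ (s * L * r) := by
    rw [hX, Finset.card_image_of_injective]
    · rw [Fintype.card_piFinset]
      simp [← pow_mul]
    · intro n n' h
      by_contra hnn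
      apply hne n n' hnn
      simp only at h
      rw [h, sub_self, hNN0]
  have hXS : ∀ x ∈ X, x ∈ S := by
    intro x hx
    obtain ⟨n, -, rfl⟩ := Finset.mem_image.1 hx
    exact S.sum_mem fun i _ => S.nsmul_mem (hQS i) _
  have hcount : p ^ (t * N) < X.card := by
    rw [hXc, mul_comm t N, pow_mul]
    calc (p ^ N) ^ t ≤ (2 ^ ((2 * s + 2) * L)) ^ t := Nat.pow_le_pow_left hNup.le _
      _ = 2 ^ ((2 * s + 2) * L * t) := by rw [← pow_mul]
      _ < 2 ^ (s * L * r) := by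
          refine Nat.pow_lt_pow_right (by norm_num) ?_
          calc (2 * s + 2) * L * t = (4 * t * t + 4 * t) * L := by rw [hs]; ring
            _ < (4 * t * t + 4 * t + 1) * L := Nat.mul_lt_mul_of_pos_right (by omega) hL1
            _ = s * L * (2 * t + 1) := by rw [hs]; ring
            _ ≤ s * L * r := Nat.mul_le_mul_left _ hr
  obtain ⟨x, hx, y, hy, hxy, z, hz, hxyz⟩ :=
    pigeon_iter π hπ p S hSπ hh hker t hfin hcard N X hXS hcount
  obtain ⟨n, hn, rfl⟩ := Finset.mem_image.1 hx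
  obtain ⟨n', hn', rfl⟩ := Finset.mem_image.1 hy
  have hnn : n ≠ n' := fun h => hxy (by rw [h])
  have hiter : ∀ j : ℕ, NN (π^[j] z) = p ^ j * NN z := by
    intro j
    induction j with
    | zero => simp
    | succ j ih => rw [Function.iterate_succ_apply', hNπ, ih]; ring
  have h1 := hne n n' hnn
  rw [hxyz, hiter] at h1
  have hz1 : 1 ≤ NN z := by
    by_contra h
    have : NN z = 0 := by omega
    exact h1 (by rw [this, mul_zero])
  have hlow : p ^ N ≤ NN (∑ i, n i • Q i - ∑ i, n' i • Q i) := by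
    rw [hxyz, hiter]
    exact Nat.le_mul_of_pos_right _ hz1
  have hup : NN (∑ i, n i • Q i - ∑ i, n' i • Q i) ≤ c * (4 * (C * (2 * 4 ^ s) ^ L)) := by
    refine (hNF _).trans (Nat.mul_le_mul_left _ ?_)
    rw [sub_eq_add_neg]
    have e1 := hF1 (∑ i, n i • Q i) (-∑ i, n' i • Q i)
    rw [hFneg] at e1
    have e2 := hC L n fun i => Finset.mem_range.1 (Fintype.mem_piFinset.1 hn i)
    have e3 := hC L n' fun i => Finset.mem_range.1 (Fintype.mem_piFinset.1 hn' i)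
    omega
  have hBc : c * (4 * (C * (2 * 4 ^ s) ^ L)) ≤ B := by
    rw [hB, hC']
    nlinarith [Nat.zero_le ((2 * 4 ^ s) ^ L)]
  omega

end Pool.Agent.Helper23.K6
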