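import Mathlib
import Pool.Agent.Helper23.K6.Ops
import Pool.Agent.Helper23.K6.Pigeon
import Pool.Agent.Helper23.K6.Count
import Pool.Agent.Helper23.K6.Ht

/-!
CLAIM A: which coefficients of `h(P)` can be nonzero.
-/

namespace Pool.Agent.Helper23.K6

open Polynomial Pool.Agent.Helper44

section aux

lemma clear_den (u : ℚ[X]) : ∃ U : ℤ[X], ∃ b : ℤ, b ≠ 0 ∧
    U.map (Int.castRingHom ℚ) = C (b : ℚ) * u := by
  obtain ⟨b, hb0, hb⟩ := IsLocalization.integerNormalization_spec (nonZeroDivisors ℤ) u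
  refine ⟨IsLocalization.integerNormalization (nonZeroDivisors ℤ) u, b,
    nonZeroDivisors.ne_zero hb0, ?_⟩
  have : (algebraMap ℤ ℚ) = Int.castRingHom ℚ := rfl
  rw [← this, hb]
  ext i
  simp

lemma exists_bezout (n : ℕ) (hn : 0 < n) (f : ℤ[X]) (hf : f ≠ 0)
    (hdeg : f.natDegree < n.totient) :
    ∃ a b : ℤ[X], ∃ N : ℤ, N ≠ 0 ∧ a * f + b * cyclotomic n ℤ = C N := by
  have hirr := cyclotomic.irreducible_rat hn
  have hf' : f.map (Int.castRingHom ℚ) ≠ 0 :=
    (Polynomial.map_ne_zero_iff (RingHom.injective_int _)).2 hf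
  have hnd : ¬ cyclotomic n ℚ ∣ f.map (Int.castRingHom ℚ) := by
    intro h
    have h1 := natDegree_le_of_dvd h hf'
    rw [natDegree_cyclotomic, natDegree_map_eq_of_injective (RingHom.injective_int _)] at h1
    omega
  obtain ⟨u, v, huv⟩ := (hirr.coprime_iff_not_dvd).2 hnd
  obtain ⟨U, b, hb, hU⟩ := clear_den u
  obtain ⟨V, c, hc, hV⟩ := clear_den v
  refine ⟨C b * V, C c * U, b * c, mul_ne_zero hb hc, ?_⟩
  apply Polynomial.map_injective (Int.castRingHom ℚ) (RingHom.injective_int _)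
  simp only [Polynomial.map_add, Polynomial.map_mul, Polynomial.map_C, hU, hV, map_cyclotomic]
  simp only [eq_intCast, map_mul, Int.cast_mul]
  linear_combination (C (b : ℚ) * C (c : ℚ)) * huv

lemma card_half {k : Type*} [Field k] [DecidableEq k] (n : ℕ) (z ε : k) (hz : IsPrimitiveRoot z n)
    (hε : ε ^ 2 + ε + 1 = 0) (h3 : (3 : k) ≠ 0) (hn : 0 < n) :
    2 * ((primitiveRoots n k).filter (fun w => w ^ (n / 3) = ε)).card ≤ n.totient := by
  have hε3 : ε ^ 3 = 1 := by linear_combination (ε - 1) * hε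
  have hε0 : ε ≠ 0 := by
    rintro rfl
    simp at hε
  rw [← hz.card_primitiveRoots]
  have hcard : ((primitiveRoots n k).filter (fun w => w ^ (n / 3) = ε)).card =
      (((primitiveRoots n k).filter (fun w => w ^ (n / 3) = ε)).image (fun w => w⁻¹)).card := by
    rw [Finset.card_image_of_injective _ inv_injective]
  have hdisj : Disjoint ((primitiveRoots n k).filter (fun w => w ^ (n / 3) = ε))
      (((primitiveRoots n k).filter (fun w => w ^ (n / 3) = ε)).image (fun w => w⁻¹)) := by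
    rw [Finset.disjoint_left]
    intro w hw hw'
    rw [Finset.mem_filter] at hw
    rw [Finset.mem_image] at hw'
    obtain ⟨v, hv, hvw⟩ := hw'
    rw [Finset.mem_filter] at hv
    have h1 := hw.2
    rw [← hvw, inv_pow, hv.2] at h1
    have h2 : ε ^ 2 = 1 := by
      rw [pow_two]
      nth_rewrite 1 [← h1]
      exact inv_mul_cancel₀ hε0
    have h3' : ε = 1 := by
      have : ε ^ 3 = ε ^ 2 * ε := by ring
      rw [this, h2, one_mul] at hε3
      exact hε3
    rw [h3'] at hε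
    apply h3
    linear_combination hε
  have hsub : ((primitiveRoots n k).filter (fun w => w ^ (n / 3) = ε)) ∪
      (((primitiveRoots n k).filter (fun w => w ^ (n / 3) = ε)).image (fun w => w⁻¹)) ⊆
      primitiveRoots n k := by
    intro w hw
    rw [Finset.mem_union] at hw
    rcases hw with hw | hw
    · exact (Finset.mem_filter.1 hw).1
    · rw [Finset.mem_image] at hw
      obtain ⟨v, hv, rfl⟩ := hw
      rw [Finset.mem_filter, mem_primitiveRoots hn] at hv
      rw [mem_primitiveRoots hn]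
      exact hv.1.inv
  have h := Finset.card_le_card hsub
  rw [Finset.card_union_of_disjoint hdisj, ← hcard] at h
  omega

/-- `Φ_n` divides `X^{2n/3} + X^{n/3} + 1`. -/
lemma cyclotomic_dvd_three (n : ℕ) (hn : 0 < n) (h3 : 3 ∣ n) :
    cyclotomic n ℤ ∣ (X ^ (n / 3)) ^ 2 + X ^ (n / 3) + 1 := by
  obtain ⟨m, rfl⟩ := h3
  have hm : 0 < m := by omega
  have e : 3 * m / 3 = m := by omega
  rw [e]
  have h := X_pow_sub_one_mul_cyclotomic_dvd_X_pow_sub_one_of_dvd ℤ (d := m) (n := 3 * m)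
    (by rw [Nat.mem_properDivisors]; exact ⟨Dvd.intro_left 3 rfl, by omega⟩)
  have e2 : (X ^ (3 * m) - 1 : ℤ[X]) = (X ^ m - 1) * ((X ^ m) ^ 2 + X ^ m + 1) := by
    rw [mul_comm 3 m, pow_mul]
    ring
  rw [e2] at h
  have hne : (X ^ m - 1 : ℤ[X]) ≠ 0 := X_pow_sub_C_ne_zero hm 1
  exact (mul_dvd_mul_iff_left hne).1 h

end aux

section abs

/-- The projection step: from `h P ≠ 0` to a point of the isotypic subgroup. -/
lemma abs_isotypic {G : Type*} [AddCommGroup G] {k : Type*} [Field k] (h3 : (3 : k) ≠ 0)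
    (Z : AddMonoid.End G) (E₁ E₂ : G →+ G) (h : G →+ k) (z ε : k) (m n : ℕ) (hm : (m : k) ≠ 0)
    (hn : 0 < n) (hn3 : 3 ∣ n) (hnm : n ∣ m) (hz : IsPrimitiveRoot z n) (hε : ε = z ^ (n / 3))
    (hε' : ε ^ 2 + ε + 1 = 0) (hcj : ∀ Q, h (Z Q) = z * h Q) (hE₂ : ∀ Q, h (E₂ Q) = ε ^ 2 * h Q)
    (hZm : Z ^ m = 1) (hsum : ∀ Q, Q + E₁ Q = - E₂ Q) (hE12 : ∀ Q, E₁ (E₂ Q) = Q)
    (hcomm : ∀ Q, Z (E₂ Q) = E₂ (Z Q)) (P : G) (hj : h P ≠ 0) :
    ∃ Q : G, aeval Z (cyclotomic n ℤ) Q = 0 ∧ (Z ^ (n / 3)) Q = E₁ Q ∧ h Q ≠ 0 := by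
  have hval := aeval_comm_mul h Z z hcj
  -- factorisation of X^m - 1
  obtain ⟨R, hR⟩ : cyclotomic n ℤ ∣ X ^ m - 1 :=
    (cyclotomic.dvd_X_pow_sub_one n ℤ).trans (by
      obtain ⟨c, hc⟩ := hnm
      rw [hc]
      exact pow_one_sub_dvd_pow_mul_sub_one X n c)
  have hm0 : 0 < m := by
    rcases Nat.eq_zero_or_pos m with rfl | h
    · simp at hm
    · exact h
  have hzm : z ^ m = 1 := by
    obtain ⟨c, hc⟩ := hnm
    rw [hc, pow_mul, hz.pow_eq_one, one_pow]
  have hΦz : aeval z (cyclotomic n ℤ) = 0 := by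
    have hnk : NeZero (n : k) := ⟨by
      intro h
      apply hm
      obtain ⟨c, hc⟩ := hnm
      rw [hc, Nat.cast_mul, h, zero_mul]⟩
    have h1 := (isRoot_cyclotomic_iff (n := n) (R := k) (μ := z)).2 hz
    rw [aeval_def, eval₂_eq_eval_map]
    have e : (algebraMap ℤ k) = Int.castRingHom k := rfl
    rw [e, map_cyclotomic]
    exact h1
  have hRz : aeval z R ≠ 0 := by
    intro h0
    have h1 := congrArg derivative hR
    have h2 := congrArg (aeval z) h1
    rw [derivative_mul, map_add, map_mul, map_mul, hΦz, h0, mul_zero, zero_mul, add_zero,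
      derivative_sub, derivative_X_pow, derivative_one, sub_zero, map_mul, map_pow, aeval_X,
      map_natCast] at h2
    have h3 : (m : k) * z ^ (m - 1) = 0 := by
      rw [← h2]
      congr 1
      simp
    rcases mul_eq_zero.1 h3 with h | h
    · exact hm h
    · have hz0 : z ≠ 0 := ne_zero_of_pow_eq_one' hm0 hzm
      exact pow_ne_zero _ hz0 h
  -- Q1
  obtain ⟨Q₁, hQ₁⟩ : ∃ Q₁, Q₁ = aeval Z R P := ⟨_, rfl⟩
  have hΦQ₁ : aeval Z (cyclotomic n ℤ) Q₁ = 0 := by
    rw [hQ₁, ← end_mul, ← map_mul, ← hR]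
    rw [map_sub, map_pow, aeval_X, hZm, map_one, sub_self]
    rfl
  have hQ₁j : h Q₁ ≠ 0 := by
    rw [hQ₁, hval R P]
    exact mul_ne_zero hRz hj
  have hcommpow : ∀ (i : ℕ) (Q), (Z ^ i) (E₂ Q) = E₂ ((Z ^ i) Q) := by
    intro i
    induction i with
    | zero => intro Q; rfl
    | succ i ih =>
      intro Q
      rw [pow_succ, end_mul, end_mul, hcomm, ih]
  have hquad : (Z ^ (n / 3)) ((Z ^ (n / 3)) Q₁) + (Z ^ (n / 3)) Q₁ + Q₁ = 0 := by
    obtain ⟨c, hc⟩ := cyclotomic_dvd_three n hn hn3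
    have h1 : aeval Z ((X ^ (n / 3)) ^ 2 + X ^ (n / 3) + 1 : ℤ[X]) Q₁ = 0 := by
      rw [hc, mul_comm, map_mul, end_mul, hΦQ₁, map_zero]
    rw [map_add, map_add, map_one, map_pow, map_pow, aeval_X, end_add, end_add, pow_two,
      end_mul] at h1
    exact h1
  refine ⟨(Z ^ (n / 3)) Q₁ - E₂ Q₁, ?_, ?_, ?_⟩
  · rw [map_sub]
    have h1 : aeval Z (cyclotomic n ℤ) ((Z ^ (n / 3)) Q₁) = 0 := by
      have : (Z ^ (n / 3)) = aeval Z (X ^ (n / 3) : ℤ[X]) := by rw [map_pow, aeval_X]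
      rw [this, ← end_mul, ← map_mul, mul_comm, map_mul, end_mul, hΦQ₁, map_zero]
    have h2 : aeval Z (cyclotomic n ℤ) (E₂ Q₁) = 0 := by
      have := aeval_comm E₂ Z Z (fun x => (hcomm x).symm) (cyclotomic n ℤ) Q₁
      rw [← this, hΦQ₁, map_zero]
    rw [h1, h2, sub_zero]
  · rw [map_sub, map_sub, hE12]
    rw [hcommpow]
    have h2 := hsum ((Z ^ (n / 3)) Q₁)
    have h3 : E₂ ((Z ^ (n / 3)) Q₁) = -((Z ^ (n / 3)) Q₁ + E₁ ((Z ^ (n / 3)) Q₁)) := by
      rw [h2, neg_neg]
    rw [h3]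
    have h4 : (Z ^ (n / 3)) ((Z ^ (n / 3)) Q₁) = -((Z ^ (n / 3)) Q₁ + Q₁) := by
      rw [eq_neg_iff_add_eq_zero, ← add_assoc]
      exact hquad
    rw [h4]
    abel
  · have h1 : h ((Z ^ (n / 3)) Q₁) = z ^ (n / 3) * h Q₁ := by
      have := hval (X ^ (n / 3)) Q₁
      rw [map_pow, map_pow, aeval_X, aeval_X] at this
      exact this
    rw [map_sub, h1, hE₂, ← hε, ← sub_mul]
    refine mul_ne_zero ?_ hQ₁j
    intro h0
    have h5 : ε = 1 := by
      have h6 : ε ^ 2 = ε := (sub_eq_zero.1 h0).symm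
      have h7 : ε ^ 3 = 1 := by linear_combination (ε - 1) * hε'
      have h8 : ε ≠ 0 := by
        rintro rfl
        simp at hε'
      have h9 : ε * ε = ε * 1 := by rw [mul_one, ← pow_two, h6]
      exact mul_left_cancel₀ h8 h9
    rw [h5] at hε'
    apply h3
    linear_combination hε'

theorem abs_claim {G : Type*} [AddCommGroup G] {k : Type*} [Field k] (p : ℕ) [hp : Fact p.Prime]
    [CharP k p] (m l : ℕ) (hml : m = 3 * l) (hl : 0 < l) (hmk : (m : k) ≠ 0) (h3 : (3 : k) ≠ 0)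
    (ζ u : k) (hζ : IsPrimitiveRoot ζ m) (hu : u ^ 3 = 1)
    (hv : G →+ (ZMod m → k)) (hwin : ∀ P (j : ZMod m), 2 * l ≤ j.val → hv P j = 0)
    (μ : ZMod m → k) (hμ : ∀ j, μ j ≠ 0)
    (hcart : ∀ P j, hv P ((p : ZMod m) * j) = μ j * hv P j ^ p)
    (Z : AddMonoid.End G) (hZ : ∀ P (j : ZMod m), hv (Z P) j = ζ ^ j.val * u * hv P j)
    (hZm : Z ^ m = 1) (E : ∀ w : k, w ^ 3 = 1 → (G →+ G))
    (hE1 : ∀ w hw P j, hv (E w hw P) j = w * hv P j)
    (hE2 : ∀ w hw P, Z (E w hw P) = E w hw (Z P))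
    (hE3 : ∀ w hw hw2, w ^ 2 + w + 1 = 0 → ∀ P, P + E w hw P = - E (w ^ 2) hw2 P)
    (hE4 : ∀ w hw hw2 P, E w hw (E (w ^ 2) hw2 P) = P)
    (π : G →+ G) (hπ : Function.Injective π) (hπZ : ∀ P, π (Z P) = Z (π P))
    (hπE : ∀ w hw P, π (E w hw P) = E w hw (π P)) (hker : ∀ P, hv P = 0 → ∃ P₁, π P₁ = P)
    (Fh NN : G → ℕ) (hF1 : ∀ P Q, Fh (P + Q) ≤ 2 * Fh P + 2 * Fh Q)
    (hF2 : ∀ P, Fh (P + P) ≤ 4 * Fh P) (hFneg : ∀ P, Fh (-P) = Fh P)
    (c : ℕ) (hNF : ∀ P, NN P ≤ c * Fh P) (hNπ : ∀ P, NN (π P) = p * NN P)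
    (htors : ∀ P, IsOfFinAddOrder P → NN P = 0) (hN0 : ∀ P, NN P = 0 → 3 • P = 0)
    (P : G) (j : ZMod m) (hj : hv P j ≠ 0) (hdvd : 3 ∣ orderOf (ζ ^ j.val * u)) (s : ℕ)
    (hs : s.Coprime m) (hs3 : s % 3 = 1) : ((s : ZMod m) * j).val < 2 * l := by
  classical
  by_contra hcon
  push Not at hcon
  have hm0 : 0 < m := by omega
  haveI : NeZero m := ⟨by omega⟩
  -- notation
  obtain ⟨z, hzdef⟩ : ∃ z, z = ζ ^ j.val * u := ⟨_, rfl⟩
  rw [← hzdef] at hdvd
  obtain ⟨n, hndef⟩ : ∃ n, n = orderOf z := ⟨_, rfl⟩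
  rw [← hndef] at hdvd
  have hum : u ^ m = 1 := by rw [hml, pow_mul, hu, one_pow]
  have hzm : z ^ m = 1 := by
    rw [hzdef, mul_pow, hum, mul_one, ← pow_mul, mul_comm, pow_mul, hζ.pow_eq_one, one_pow]
  have hnm : n ∣ m := by
    rw [hndef]
    exact orderOf_dvd_of_pow_eq_one hzm
  have hn0 : 0 < n := Nat.pos_of_dvd_of_pos hnm hm0
  have hz : IsPrimitiveRoot z n := by
    rw [hndef]
    exact IsPrimitiveRoot.orderOf z
  obtain ⟨ε, hε⟩ : ∃ ε, ε = z ^ (n / 3) := ⟨_, rfl⟩
  have hεprim : IsPrimitiveRoot ε 3 := by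
    rw [hε]
    exact hz.pow hn0 (by omega)
  have hε3 : ε ^ 3 = 1 := hεprim.pow_eq_one
  have hε' : ε ^ 2 + ε + 1 = 0 := by
    have h1 : (ε - 1) * (ε ^ 2 + ε + 1) = 0 := by linear_combination hε3
    rcases mul_eq_zero.1 h1 with h | h
    · exact absurd (sub_eq_zero.1 h) (hεprim.ne_one (by norm_num))
    · exact h
  have hε23 : (ε ^ 2) ^ 3 = 1 := by rw [← pow_mul, mul_comm, pow_mul, hε3, one_pow]
  -- evaluation homs
  let hvj : ZMod m → (G →+ k) := fun i =>
    { toFun := fun P => hv P i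
      map_zero' := congrFun (map_zero hv) i
      map_add' := fun P Q => congrFun (map_add hv P Q) i }
  have hvj_apply : ∀ i P, hvj i P = hv P i := fun _ _ => rfl
  obtain ⟨Q, hQ1, hQ2, hQ3⟩ := abs_isotypic h3 Z (E ε hε3) (E (ε ^ 2) hε23) (hvj j) z ε m n hmk hn0
    hdvd hnm hz hε hε' (fun Q => by rw [hvj_apply, hvj_apply, hZ, hzdef])
    (fun Q => by rw [hvj_apply, hvj_apply, hE1]) hZm (hE3 ε hε3 hε23 hε') (hE4 ε hε3 hε23)
    (hE2 _ _) P hj
  rw [hvj_apply] at hQ3
  -- the subgroup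
  let S : AddSubgroup G := (aeval Z (cyclotomic n ℤ)).ker ⊓ (Z ^ (n / 3)).eqLocus (E ε hε3)
  have hS : ∀ R, R ∈ S ↔ aeval Z (cyclotomic n ℤ) R = 0 ∧ (Z ^ (n / 3)) R = E ε hε3 R := by
    intro R
    rfl
  have hπf : ∀ (f : ℤ[X]) (R : G), π (aeval Z f R) = aeval Z f (π R) :=
    fun f R => aeval_comm π Z Z hπZ f R
  have hZpow : ∀ (i : ℕ), Z ^ i = aeval Z (X ^ i : ℤ[X]) := fun i => by rw [map_pow, aeval_X]
  have hSπ : ∀ R, π R ∈ S → R ∈ S := by
    intro R hR
    rw [hS] at hR ⊢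
    refine ⟨?_, ?_⟩
    · apply hπ
      rw [hπf, hR.1, map_zero]
    · apply hπ
      rw [hπE, ← hR.2, hZpow, hπf]
  -- the index set
  let T : Finset (ZMod m) := Finset.univ.filter (fun i => i.val < 2 * l ∧
    ζ ^ i.val * u ∈ (primitiveRoots n k).filter (fun w => w ^ (n / 3) = ε))
  have hnk : NeZero (n : k) := ⟨by
    intro h
    apply hmk
    obtain ⟨c, hc⟩ := hnm
    rw [hc, Nat.cast_mul, h, zero_mul]⟩
  have hST : ∀ R ∈ S, ∀ i, i ∉ T → hv R i = 0 := by
    intro R hR i hi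
    by_contra hne
    apply hi
    rw [hS] at hR
    rw [Finset.mem_filter]
    refine ⟨Finset.mem_univ _, ?_, ?_⟩
    · by_contra hlt
      exact hne (hwin R i (by omega))
    · have hci : ∀ Q, hvj i (Z Q) = (ζ ^ i.val * u) * hvj i Q := fun Q => by
        rw [hvj_apply, hvj_apply, hZ]
      rw [Finset.mem_filter, mem_primitiveRoots hn0]
      constructor
      · have h1 := aeval_comm_mul (hvj i) Z (ζ ^ i.val * u) hci (cyclotomic n ℤ) R
        rw [hR.1, map_zero, hvj_apply] at h1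
        have h2 : aeval (ζ ^ i.val * u) (cyclotomic n ℤ) = 0 := by
          rcases mul_eq_zero.1 h1.symm with h | h
          · exact h
          · exact absurd h hne
        rw [aeval_def, eval₂_eq_eval_map] at h2
        have e : (algebraMap ℤ k) = Int.castRingHom k := rfl
        rw [e, map_cyclotomic] at h2
        exact isRoot_cyclotomic_iff.1 h2
      · have h1 := aeval_comm_mul (hvj i) Z (ζ ^ i.val * u) hci (X ^ (n / 3)) R
        rw [map_pow, map_pow, aeval_X, aeval_X, hR.2, hvj_apply, hvj_apply, hE1] at h1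
        exact (mul_right_cancel₀ hne h1).symm
  have hinj : ∀ i i' : ZMod m, ζ ^ i.val * u = ζ ^ i'.val * u → i = i' := by
    intro i i' h
    have hu0 : u ≠ 0 := ne_zero_of_pow_eq_one' (by norm_num) hu
    have h1 := mul_right_cancel₀ hu0 h
    have h2 := hζ.pow_inj (ZMod.val_lt i) (ZMod.val_lt i') h1
    exact ZMod.val_injective m h2
  -- cardinality of T
  have hTcard : 2 * (T.card + 1) ≤ n.totient := by
    refine le_trans ?_ (card_half n z ε hz hε' h3 hn0)
    apply Nat.mul_le_mul_left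
    have hzs : ζ ^ ((s : ZMod m) * j).val * u = z ^ s := by
      have h1 : ((s : ZMod m) * j).val = (s * j.val) % m := by
        have : (s : ZMod m) * j = ((s * j.val : ℕ) : ZMod m) := by
          push_cast
          rw [ZMod.natCast_val, ZMod.cast_id]
        rw [this, ZMod.val_natCast]
      have h2 : u ^ s = u := by
        have : s = 3 * (s / 3) + 1 := by omega
        rw [this, pow_add, pow_mul, hu, one_pow, one_mul, pow_one]
      rw [h1, hzdef, mul_pow, h2, ← pow_mul, mul_comm j.val s]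
      congr 1
      rw [← pow_mod_orderOf ζ (s * j.val), ← hζ.eq_orderOf]
    have hmem : ζ ^ ((s : ZMod m) * j).val * u ∈
        (primitiveRoots n k).filter (fun w => w ^ (n / 3) = ε) := by
      rw [hzs, Finset.mem_filter, mem_primitiveRoots hn0]
      constructor
      · exact hz.pow_of_coprime s (Nat.Coprime.coprime_dvd_right hnm hs)
      · rw [← pow_mul, mul_comm, pow_mul, ← hε]
        have : s = 3 * (s / 3) + 1 := by omega
        rw [this, pow_add, pow_mul, hε3, one_pow, one_mul, pow_one]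
    have hnotT : (s : ZMod m) * j ∉ T := by
      rw [Finset.mem_filter]
      rintro ⟨-, h, -⟩
      omega
    have hcard : (insert ((s : ZMod m) * j) T).card = T.card + 1 := Finset.card_insert_of_notMem hnotT
    rw [← hcard, ← Finset.card_image_of_injective (f := fun i : ZMod m => ζ ^ i.val * u) _
      (fun i i' h => hinj i i' h)]
    apply Finset.card_le_card
    intro w hw
    rw [Finset.mem_image] at hw
    obtain ⟨i, hi, rfl⟩ := hw
    rw [Finset.mem_insert] at hi
    rcases hi with rfl | hi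
    · exact hmem
    · exact (Finset.mem_filter.1 hi).2.2
  -- counting
  have hpm : IsUnit (p : ZMod m) := by
    rw [ZMod.isUnit_iff_coprime]
    rw [hp.out.coprime_iff_not_dvd]
    intro h
    exact hmk ((CharP.cast_eq_zero_iff k p m).2 h)
  obtain ⟨hfin, hcard⟩ := card_le p (fun i : ZMod m => (p : ZMod m) * i)
    (Finite.injective_iff_bijective.1 (fun a b h => hpm.mul_left_cancel h)) μ hμ (S.map hv)
    (by
      rintro v ⟨R, hR, rfl⟩ i
      exact hcart R i) T
    (by
      rintro v ⟨R, hR, rfl⟩ i hi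
      exact hST R hR i hi)
  -- the points
  have hZS : ∀ i : ℕ, (Z ^ i) Q ∈ S := by
    intro i
    rw [hS]
    constructor
    · rw [hZpow, ← end_mul, ← map_mul, mul_comm, map_mul, end_mul, hQ1, map_zero]
    · have h1 : (Z ^ (n / 3)) ((Z ^ i) Q) = (Z ^ i) ((Z ^ (n / 3)) Q) := by
        rw [← end_mul, ← end_mul, ← pow_add, ← pow_add, add_comm]
      rw [h1, hQ2]
      have h2 : ∀ i (R : G), (Z ^ i) (E ε hε3 R) = E ε hε3 ((Z ^ i) R) := by
        intro i
        induction i with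
        | zero => intro R; rfl
        | succ i ih => intro R; rw [pow_succ, end_mul, end_mul, hE2, ih]
      exact h2 i Q
  have hfinal := pigeon π hπ p hp.out.two_le Fh NN hF1 hF2 hFneg c hNF hNπ S hSπ hv
    (fun R _ hR => hker R hR) T.card hfin hcard n.totient (fun i => (Z ^ (i : ℕ)) Q)
    (fun i => hZS i) (by
      intro a ha h0
      -- the polynomial
      obtain ⟨f, hf⟩ : ∃ f : ℤ[X], f = ∑ i : Fin n.totient, C (a i) * X ^ (i : ℕ) := ⟨_, rfl⟩
      have hcoeff : ∀ i : Fin n.totient, f.coeff i = a i := by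
        intro i
        rw [hf, finsetSum_coeff]
        simp only [coeff_C_mul, coeff_X_pow]
        rw [Finset.sum_eq_single i]
        · simp
        · intro b _ hb
          have : (i : ℕ) ≠ (b : ℕ) := fun h => hb (Fin.ext h.symm)
          simp [this]
        · intro h; exact absurd (Finset.mem_univ _) h
      have hf0 : f ≠ 0 := by
        intro h
        apply ha
        funext i
        rw [← hcoeff i, h]
        rfl
      have hdeg : f.natDegree < n.totient := by
        have htot : 0 < n.totient := Nat.totient_pos.2 hn0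
        have : f.natDegree ≤ n.totient - 1 := by
          rw [hf]
          apply natDegree_sum_le_of_forall_le
          intro i _
          refine (natDegree_C_mul_X_pow_le _ _).trans ?_
          have := i.2
          omega
        omega
      have hfQ : aeval Z f Q = ∑ i : Fin n.totient, a i • (Z ^ (i : ℕ)) Q := by
        have h1 : ∀ (b : ℤ) (i : ℕ), aeval Z (C b * X ^ i : ℤ[X]) Q = b • (Z ^ i) Q := by
          intro b i
          rw [map_mul, end_mul, map_pow, aeval_X, aeval_C, eq_intCast]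
          exact AddMonoid.End.intCast_apply b _
        have h2 : ∀ (t : Finset (Fin n.totient)),
            aeval Z (∑ i ∈ t, (C (a i) * X ^ (i : ℕ) : ℤ[X])) Q =
              ∑ i ∈ t, a i • (Z ^ (i : ℕ)) Q := by
          intro t
          induction t using Finset.induction_on with
          | empty => rw [Finset.sum_empty, Finset.sum_empty, map_zero]; rfl
          | insert i t hi ih =>
            rw [Finset.sum_insert hi, Finset.sum_insert hi, map_add, end_add, ih, h1]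
        rw [hf]
        exact h2 _
      rw [← hfQ] at h0
      have h3f := hN0 _ h0
      obtain ⟨A, B, N, hN, hAB⟩ := exists_bezout n hn0 f hf0 hdeg
      have hNQ : (3 * N) • Q = 0 := by
        have h1 : aeval Z (A * f + B * cyclotomic n ℤ) Q = N • Q := by
          rw [hAB, aeval_C, eq_intCast]
          exact AddMonoid.End.intCast_apply N Q
        rw [map_add, end_add, map_mul, end_mul, map_mul, end_mul, hQ1, map_zero, add_zero] at h1
        rw [mul_smul, ← h1]
        have h2 : (3 : ℤ) • (aeval Z A) ((aeval Z f) Q) = (aeval Z A) ((3 : ℤ) • (aeval Z f) Q) := by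
          rw [map_zsmul]
        rw [h2]
        have h4 : (3 : ℤ) • (aeval Z f) Q = 0 := by
          have : (3 : ℤ) • (aeval Z f) Q = (3 : ℕ) • (aeval Z f) Q := by
            rw [← natCast_zsmul]; rfl
          rw [this, h3f]
        rw [h4, map_zero]
      have htor : IsOfFinAddOrder Q := by
        rw [isOfFinAddOrder_iff_zsmul_eq_zero]
        exact ⟨3 * N, mul_ne_zero (by norm_num) hN, hNQ⟩
      have h5 := hN0 Q (htors Q htor)
      have h6 : (3 : k) * hv Q j = 0 := by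
        have h7 := congrArg (hvj j) h5
        rw [map_nsmul, map_zero, hvj_apply, nsmul_eq_mul] at h7
        exact_mod_cast h7
      rcases mul_eq_zero.1 h6 with h | h
      · exact h3 h
      · exact hQ3 h)
  omega

end abs

end Pool.Agent.Helper23.K6
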