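import Mathlib
import Pool.Agent.Helper23.K6.ClaimA
import Pool.Agent.Helper23.K6.CartRel

/-!
CLAIM A for the curve, and the comparison of two points.
-/

namespace Pool.Agent.Helper23.K6

open Polynomial Pool.Agent.Helper44

section claimB

variable {k : Type*} [Field k] [DecidableEq (RatFunc k)] {p : ℕ} [hp : Fact p.Prime] [CharP k p]
  {α γ : k} {l : ℕ} [IsAlgClosed k]

omit [IsAlgClosed k] hp [CharP k p] in
lemma opZ_iterate (hG : Good p α γ l) (ζ u : k) (hζ : ζ ^ (3 * l) = 1) (hu : u ^ 3 = 1) (i : ℕ)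
    (h1 : (ζ ^ i) ^ (3 * l) = 1) (h2 : (u ^ i) ^ 3 = 1) (Q : Pt (DD α γ (3 * l))) :
    (⇑(opZ hG ζ u hζ hu))^[i] Q = opZ hG (ζ ^ i) (u ^ i) h1 h2 Q := by
  induction i with
  | zero =>
    rw [opZ_congr hG h1 h2 (one_pow _) (one_pow _) (pow_zero _) (pow_zero _), opZ_one]
    rfl
  | succ i ih =>
    have h3 : (ζ ^ i) ^ (3 * l) = 1 := by rw [← pow_mul, mul_comm, pow_mul, hζ, one_pow]
    have h4 : (u ^ i) ^ 3 = 1 := by rw [← pow_mul, mul_comm, pow_mul, hu, one_pow]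
    rw [Function.iterate_succ_apply', ih h3 h4]
    exact opZ_comp hG ζ u (ζ ^ i) (u ^ i) _ _ hζ hu h3 h4 h1 h2 (pow_succ' _ _) (pow_succ' _ _) Q

omit [Field k] [DecidableEq (RatFunc k)] [CharP k p] [IsAlgClosed k] in
lemma pow_eq_one_of_iterate {G : Type*} [AddCommGroup G] (Z : AddMonoid.End G) (m : ℕ)
    (h : ∀ Q, (⇑Z)^[m] Q = Q) : Z ^ m = 1 := by
  have key : ∀ (i : ℕ) (Q : G), (Z ^ i) Q = (⇑Z)^[i] Q := by
    intro i
    induction i with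
    | zero => intro Q; rfl
    | succ i ih => intro Q; rw [pow_succ', end_mul, ih, Function.iterate_succ_apply']
  exact AddMonoidHom.ext (fun Q => (key m Q).trans (h Q))

theorem claimA (hG : Good p α γ l) (P : Pt (DD α γ (3 * l)))
    (j : ZMod (3 * l)) (hj : hv α γ l P j ≠ 0) (s : ℕ) (hs : s.Coprime (3 * l))
    (hs3 : s % 3 = 1) : ((s : ZMod (3 * l)) * j).val < 2 * l := by
  have hl := hG.hl0
  have hne : NeZero (3 * l) := ⟨by omega⟩
  have hnek : NeZero ((3 * l : ℕ) : k) := ⟨hG.hl3⟩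
  obtain ⟨ζ, hζ⟩ : ∃ ζ : k, IsPrimitiveRoot ζ (3 * l) := by
    have hdeg : (cyclotomic (3 * l) k).degree ≠ 0 := by
      rw [degree_cyclotomic]
      have := Nat.totient_pos.2 (by omega : 0 < 3 * l)
      exact_mod_cast this.ne'
    obtain ⟨ζ, h⟩ := IsAlgClosed.exists_root _ hdeg
    exact ⟨ζ, isRoot_cyclotomic_iff.1 h⟩
  have hω : IsPrimitiveRoot (ζ ^ l) 3 := hζ.pow (by omega) (by ring)
  obtain ⟨u, hu3, hdvd⟩ : ∃ u : k, u ^ 3 = 1 ∧ 3 ∣ orderOf (ζ ^ j.val * u) := by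
    by_cases h : 3 ∣ orderOf (ζ ^ j.val)
    · exact ⟨1, one_pow _, by rwa [mul_one]⟩
    · refine ⟨ζ ^ l, hω.pow_eq_one, ?_⟩
      have hcop : (orderOf (ζ ^ j.val)).Coprime (orderOf (ζ ^ l)) := by
        rw [← hω.eq_orderOf]
        exact ((Nat.Prime.coprime_iff_not_dvd Nat.prime_three).2 h).symm
      rw [(Commute.all _ _).orderOf_mul_eq_mul_orderOf_of_coprime hcop, ← hω.eq_orderOf]
      exact Dvd.intro_left _ rfl
  obtain ⟨μ, hμ, hcart⟩ := cartier_rel hG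
  obtain ⟨Fh, hF1, hF2, hFneg, c, hNF⟩ := exists_height (Dp α γ (3 * l))
    (Dp_ne_zero α γ hG.hα (3 * l) (by omega)) hG.h2 hG.h3
  have hζm := hζ.pow_eq_one
  have hZm : ∀ Q, (⇑(opZ hG ζ u hζm hu3))^[3 * l] Q = Q := by
    intro Q
    have h1 : (ζ ^ (3 * l)) ^ (3 * l) = 1 := by rw [hζm, one_pow]
    have hum : u ^ (3 * l) = 1 := by rw [pow_mul, hu3, one_pow]
    have h2 : (u ^ (3 * l)) ^ 3 = 1 := by rw [hum, one_pow]
    rw [opZ_iterate hG ζ u hζm hu3 (3 * l) h1 h2 Q,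
      opZ_congr hG h1 h2 (one_pow _) (one_pow _) hζm hum, opZ_one]
  refine abs_claim (G := Pt (DD α γ (3 * l))) p (3 * l) l rfl hl hG.hl3 hG.h3 ζ u hζ hu3
    (hvHom hG) (fun P j h => hv_eq_zero_of_le hG P j h) μ hμ hcart
    (opZ hG ζ u hζ.pow_eq_one hu3) (fun P j => hv_opZ hG ζ u hζ.pow_eq_one hu3 P j) ?_
    (fun w hw => opZ hG 1 w (one_pow _) hw)
    (fun w hw P j => ?_) (fun w hw P => ?_) (fun w hw hw2 h P => ?_) (fun w hw hw2 P => ?_)
    (piE p (DD α γ (3 * l)) hG.hD hG.hp3) (piE_injective p _ _ _)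
    (fun P => piE_opZ hG _ _ _ _ P) (fun w hw P => piE_opZ hG _ _ _ _ P)
    (fun P hP => exists_piE_of_hv hG hG.hD P (fun j => congrFun hP j))
    Fh (fun P => ht (slopeFun (DD α γ (3 * l)) P)) hF1 hF2 hFneg c hNF
    (fun P => ht_piE p _ _ _ P)
    (fun P hP => ht_of_isOfFinAddOrder _ hG.hD hG.h2 hG.h3 P hP)
    (fun P hP => gg_of_ht_eq_zero α γ hG.hα hG.hγ (3 * l) hG.hl3 hG.h2 hG.h3 P hP)
    P j hj hdvd s hs hs3
  · exact pow_eq_one_of_iterate (G := Pt (DD α γ (3 * l))) _ _ hZm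
  · exact (hv_opZ hG 1 w _ hw P j).trans (by rw [one_pow, one_mul]; rfl)
  · have h1 : (ζ * 1) ^ (3 * l) = 1 := by rw [mul_one, hζm]
    have h2 : (u * w) ^ 3 = 1 := by rw [mul_pow, hu3, hw, one_mul]
    have a1 := opZ_comp hG ζ u 1 w (ζ * 1) (u * w) hζm hu3 (one_pow _) hw h1 h2 rfl rfl P
    have a2 := opZ_comp hG 1 w ζ u (ζ * 1) (u * w) (one_pow _) hw hζm hu3 h1 h2 (by ring)
      (by ring) P
    exact a1.trans a2.symm
  · exact opZ_sum hG w (one_pow _) hw h hw2 P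
  · have h2 : (w * w ^ 2) ^ 3 = 1 := by
      have : (w * w ^ 2) ^ 3 = (w ^ 3) ^ 3 := by ring
      rw [this, hw, one_pow]
    have a1 := opZ_comp hG 1 w 1 (w ^ 2) (1 * 1) (w * w ^ 2) (one_pow _) hw (one_pow _) hw2
      (by rw [mul_one]; exact one_pow _) h2 rfl rfl P
    refine a1.trans ?_
    rw [opZ_congr hG _ _ (one_pow _) (one_pow _) (mul_one 1) (by rw [← hw]; ring), opZ_one]

/-- Comparison of two points. -/
theorem compare (hG : Good p α γ l) (P₁ P₂ : Pt (DD α γ (3 * l)))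
    (j : ZMod (3 * l)) (f : ℕ) (hj : ((p ^ f : ℕ) : ZMod (3 * l)) * j = j)
    (h0 : hv α γ l P₁ j ≠ 0) (h1 : hv α γ l P₁ j ^ (p ^ f) = hv α γ l P₁ j) :
    hv α γ l P₂ j ^ (p ^ f) = hv α γ l P₂ j := by
  obtain ⟨μ, hμ, hcart⟩ := cartier_rel hG
  have key : ∀ i : ℕ, hv α γ l P₁ (((p ^ i : ℕ) : ZMod (3 * l)) * j) ≠ 0 ∧
      hv α γ l P₂ (((p ^ i : ℕ) : ZMod (3 * l)) * j) * hv α γ l P₁ j ^ (p ^ i) =
        hv α γ l P₁ (((p ^ i : ℕ) : ZMod (3 * l)) * j) * hv α γ l P₂ j ^ (p ^ i) := by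
    intro i
    induction i with
    | zero =>
      simp only [pow_zero, Nat.cast_one, one_mul, pow_one]
      exact ⟨h0, mul_comm _ _⟩
    | succ i ih =>
      obtain ⟨ih1, ih2⟩ := ih
      have e : ((p ^ (i + 1) : ℕ) : ZMod (3 * l)) * j =
          (p : ZMod (3 * l)) * (((p ^ i : ℕ) : ZMod (3 * l)) * j) := by
        push_cast
        ring
      rw [e, hcart, hcart]
      refine ⟨mul_ne_zero (hμ _) (pow_ne_zero _ ih1), ?_⟩
      have h3 := congrArg (fun x => x ^ p) ih2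
      simp only [mul_pow, ← pow_mul] at h3
      rw [pow_succ]
      linear_combination μ (((p ^ i : ℕ) : ZMod (3 * l)) * j) * h3
  obtain ⟨-, h2⟩ := key f
  rw [hj, h1, mul_comm] at h2
  exact (mul_left_cancel₀ h0 h2).symm

end claimB

end Pool.Agent.Helper23.K6
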