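import Mathlib
import Pool.Agent.Helper23.K6.HH

/-!
Explicit points and their `h`-vectors (orders 2, 3, 6).
-/

namespace Pool.Agent.Helper23.K6

open Polynomial Pool.Agent.Helper44

section gen

variable {K : Type*} [Field K]

lemma gen2 (d : DerZ K) (h3 : (3 : K) ≠ 0) (T β δ : K) (hβ : d β = 0) (hδ : d δ = 0) :
    (δ * (3 * β ^ 2 * T ^ 2 + δ ^ 2)) * d (β ^ 2 * T ^ 2 - δ ^ 2) -
      2 / 3 * d (δ * (3 * β ^ 2 * T ^ 2 + δ ^ 2)) * (β ^ 2 * T ^ 2 - δ ^ 2) =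
    (β * T * (β ^ 2 * T ^ 2 + 3 * δ ^ 2)) * (2 * β * δ * d T) := by
  have e3 : d (3 : K) = 0 := by exact_mod_cast dz_natCast d 3
  simp only [map_sub, map_add, dz_mul, dz_pow, hβ, hδ, e3]
  field_simp
  push_cast
  ring

lemma gen3 (d : DerZ K) (h3 : (3 : K) ≠ 0) (T β α γ : K) (hβ : d β = 0) (hα : d α = 0)
    (hγ : d γ = 0) :
    (α * (T ^ 3 - γ)) * d (β * T) - 2 / 3 * d (α * (T ^ 3 - γ)) * (β * T) =
    (α * (T ^ 3 + γ)) * (-β * d T) := by
  simp only [map_sub, dz_mul, dz_pow, hβ, hα, hγ]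
  field_simp
  push_cast
  ring

lemma gen6 (d : DerZ K) (h3 : (3 : K) ≠ 0) (T a s α γ : K) (hT : T ≠ 0) (ha : d a = 0)
    (hα : d α = 0) (hγ : d γ = 0) (hs : s ^ 2 = γ) :
    (α * (T ^ 6 - γ)) * d (a * (T ^ 6 - γ) / T ^ 2) -
      2 / 3 * d (α * (T ^ 6 - γ)) * (a * (T ^ 6 - γ) / T ^ 2) =
    (α * s * (T ^ 6 - γ) / T ^ 3) * (2 * a * s * d T) := by
  rw [dz_div d _ _ (pow_ne_zero _ hT)]
  simp only [map_sub, dz_mul, dz_pow, ha, hα, hγ]
  rw [← hs]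
  field_simp
  push_cast
  ring

end gen

section EXPL

variable {k : Type*} [Field k] [DecidableEq (RatFunc k)] {p : ℕ} {α γ : k} {l : ℕ}

omit [DecidableEq (RatFunc k)] in
lemma DD_eq (α γ : k) (m : ℕ) : DD α γ m =
    algebraMap k[X] (RatFunc k) (C α) * ((algebraMap k[X] (RatFunc k) X) ^ m -
      algebraMap k[X] (RatFunc k) (C γ)) := by
  rw [DD, Dp, map_mul, map_sub, map_pow]

omit [DecidableEq (RatFunc k)] in
lemma der_const (c : k) : der k (algebraMap k[X] (RatFunc k) (C c)) = 0 := by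
  rw [der_algebraMap, derivative_C, map_zero]

omit [DecidableEq (RatFunc k)] in
lemma hv_of_poly (hG : Good p α γ l) (x y : RatFunc k) (hy : y ≠ 0)
    (hxy : y ^ 2 = x ^ 3 + (DD α γ (3 * l)) ^ 2) (H : k[X])
    (h : DD α γ (3 * l) * der k x - 2 / 3 * der k (DD α γ (3 * l)) * x =
      y * algebraMap k[X] (RatFunc k) H) :
    ∃ P : Pt (DD α γ (3 * l)), HH α γ l P = H := by
  refine ⟨.some x y (mordell_nonsingular _ _ _ (pow_ne_zero _ hG.hD)
    (two_ne_zero_ratFunc hG.h2) (three_ne_zero_ratFunc hG.h3) hxy), ?_⟩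
  apply HH_eq hG
  rw [gg]
  have hD := hG.hD
  rw [← mul_div_assoc, div_eq_iff hy, mul_comm (algebraMap k[X] (RatFunc k) H), ← h]
  field_simp

omit [DecidableEq (RatFunc k)] in
lemma algebraMap_X_ne : algebraMap k[X] (RatFunc k) X ≠ 0 := algebraMap_ne X_ne_zero

omit [DecidableEq (RatFunc k)] in
lemma coeff_aux (c : k) (n : ℕ) :
    (C c * derivative (X ^ n : k[X])).coeff (n - 1) = c * n := by
  rw [coeff_C_mul, derivative_X_pow, coeff_C_mul, coeff_X_pow, if_pos rfl, mul_one]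

omit [DecidableEq (RatFunc k)] in
lemma hv_of_HH (P : Pt (DD α γ (3 * l))) (c : k) (j : ZMod (3 * l)) (hj : j.val ≠ 0)
    (h : HH α γ l P = C c * derivative (X ^ j.val : k[X])) : hv α γ l P j = c * j.val := by
  rw [hv, if_neg hj, h, coeff_aux]

omit [DecidableEq (RatFunc k)] in
theorem expl2 (hG : Good p α γ l) (β δ : k) (h1 : 3 * β ^ 2 * δ = α)
    (h2 : δ ^ 2 = -3 * β ^ 2 * γ) (j : ZMod (3 * l)) (hj : 2 * j.val = 3 * l) :
    ∃ P, hv α γ l P j = 2 / 3 * (α / β) * j.val := by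
  have hl := hG.hl0
  have hj0 : j.val ≠ 0 := by omega
  have hβ : β ≠ 0 := by
    rintro rfl
    exact hG.hα (by rw [← h1]; ring)
  set ι : k →+* RatFunc k := (algebraMap k[X] (RatFunc k)).comp C with hι
  have hιc : ∀ c, algebraMap k[X] (RatFunc k) (C c) = ι c := fun c => rfl
  have hdι : ∀ c, der k (ι c) = 0 := fun c => der_const c
  set T : RatFunc k := algebraMap k[X] (RatFunc k) (X ^ j.val) with hT
  have hdT : der k T = algebraMap k[X] (RatFunc k) (derivative (X ^ j.val : k[X])) :=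
    der_algebraMap _
  have hT2 : (algebraMap k[X] (RatFunc k) X) ^ (3 * l) = T ^ 2 := by
    rw [hT, ← map_pow, ← map_pow, ← pow_mul]
    congr 2
    omega
  have e1 : ι α = 3 * ι β ^ 2 * ι δ := by
    rw [← h1, map_mul, map_mul, map_pow, map_ofNat]
  have e2 : ι δ ^ 2 = -3 * ι β ^ 2 * ι γ := by
    rw [← map_pow, h2, map_mul, map_mul, map_pow, map_neg, map_ofNat]
  have hDD : DD α γ (3 * l) = ι δ * (3 * ι β ^ 2 * T ^ 2 + ι δ ^ 2) := by
    rw [DD_eq, hιc, hιc, hT2, e1, e2]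
    ring
  have hxy : (ι β * T * (ι β ^ 2 * T ^ 2 + 3 * ι δ ^ 2)) ^ 2 =
      (ι β ^ 2 * T ^ 2 - ι δ ^ 2) ^ 3 + (DD α γ (3 * l)) ^ 2 := by
    rw [hDD]
    ring
  have hy : ι β * T * (ι β ^ 2 * T ^ 2 + 3 * ι δ ^ 2) ≠ 0 := by
    intro h0
    rw [h0] at hxy
    exact hG.hno _ (by rw [← hxy]; ring)
  obtain ⟨P, hP⟩ := hv_of_poly hG _ _ hy hxy (C (2 * β * δ) * derivative (X ^ j.val)) (by
    rw [hDD, gen2 (der k) (three_ne_zero_ratFunc hG.h3) T (ι β) (ι δ) (hdι _) (hdι _), map_mul,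
      ← hdT, hιc, map_mul, map_mul, map_ofNat])
  refine ⟨P, ?_⟩
  rw [hv_of_HH P _ j hj0 hP, ← h1]
  have h3 := hG.h3
  field_simp

omit [DecidableEq (RatFunc k)] in
theorem expl3 (hG : Good p α γ l) (β : k) (h1 : β ^ 3 = 4 * α ^ 2 * γ)
    (j : ZMod (3 * l)) (hj : 3 * j.val = 3 * l) :
    ∃ P, hv α γ l P j = - β * j.val := by
  have hl := hG.hl0
  have hj0 : j.val ≠ 0 := by omega
  set ι : k →+* RatFunc k := (algebraMap k[X] (RatFunc k)).comp C with hι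
  have hιc : ∀ c, algebraMap k[X] (RatFunc k) (C c) = ι c := fun c => rfl
  have hdι : ∀ c, der k (ι c) = 0 := fun c => der_const c
  set T : RatFunc k := algebraMap k[X] (RatFunc k) (X ^ j.val) with hT
  have hdT : der k T = algebraMap k[X] (RatFunc k) (derivative (X ^ j.val : k[X])) :=
    der_algebraMap _
  have hT2 : (algebraMap k[X] (RatFunc k) X) ^ (3 * l) = T ^ 3 := by
    rw [hT, ← map_pow, ← map_pow, ← pow_mul]
    congr 2
    omega
  have e1 : ι β ^ 3 = 4 * ι α ^ 2 * ι γ := by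
    rw [← map_pow, h1, map_mul, map_mul, map_pow, map_ofNat]
  have hDD : DD α γ (3 * l) = ι α * (T ^ 3 - ι γ) := by
    rw [DD_eq, hιc, hιc, hT2]
  have hxy : (ι α * (T ^ 3 + ι γ)) ^ 2 = (ι β * T) ^ 3 + (DD α γ (3 * l)) ^ 2 := by
    rw [hDD]
    linear_combination -T ^ 3 * e1
  have hy : ι α * (T ^ 3 + ι γ) ≠ 0 := by
    intro h0
    rw [h0] at hxy
    exact hG.hno _ (by rw [← hxy]; ring)
  obtain ⟨P, hP⟩ := hv_of_poly hG _ _ hy hxy (C (-β) * derivative (X ^ j.val)) (by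
    rw [hDD, gen3 (der k) (three_ne_zero_ratFunc hG.h3) T (ι β) (ι α) (ι γ) (hdι _) (hdι _)
      (hdι _), map_mul, ← hdT, hιc, map_neg])
  exact ⟨P, hv_of_HH P _ j hj0 hP⟩

omit [DecidableEq (RatFunc k)] in
theorem expl6 (hG : Good p α γ l) (a s : k) (h1 : a ^ 3 = - α ^ 2) (h2 : s ^ 2 = γ)
    (j : ZMod (3 * l)) (hj : 6 * j.val = 3 * l) :
    ∃ P, hv α γ l P j = 2 * a * s * j.val := by
  have hl := hG.hl0
  have hj0 : j.val ≠ 0 := by omega
  set ι : k →+* RatFunc k := (algebraMap k[X] (RatFunc k)).comp C with hι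
  have hιc : ∀ c, algebraMap k[X] (RatFunc k) (C c) = ι c := fun c => rfl
  have hdι : ∀ c, der k (ι c) = 0 := fun c => der_const c
  set T : RatFunc k := algebraMap k[X] (RatFunc k) (X ^ j.val) with hT
  have hdT : der k T = algebraMap k[X] (RatFunc k) (derivative (X ^ j.val : k[X])) :=
    der_algebraMap _
  have hT0 : T ≠ 0 := algebraMap_ne (pow_ne_zero _ X_ne_zero)
  have hT2 : (algebraMap k[X] (RatFunc k) X) ^ (3 * l) = T ^ 6 := by
    rw [hT, ← map_pow, ← map_pow, ← pow_mul]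
    congr 2
    omega
  have e1 : ι a ^ 3 = - ι α ^ 2 := by
    rw [← map_pow, h1, map_neg, map_pow]
  have e2 : ι s ^ 2 = ι γ := by rw [← map_pow, h2]
  have hDD : DD α γ (3 * l) = ι α * (T ^ 6 - ι γ) := by
    rw [DD_eq, hιc, hιc, hT2]
  have hxy : (ι α * ι s * (T ^ 6 - ι γ) / T ^ 3) ^ 2 =
      (ι a * (T ^ 6 - ι γ) / T ^ 2) ^ 3 + (DD α γ (3 * l)) ^ 2 := by
    rw [hDD]
    have e3 : (ι a * (T ^ 6 - ι γ) / T ^ 2) ^ 3 = -ι α ^ 2 * (T ^ 6 - ι γ) ^ 3 / T ^ 6 := by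
      rw [div_pow, mul_pow, e1]
      congr 1
      ring
    rw [e3, ← e2]
    field_simp
    ring
  have hy : ι α * ι s * (T ^ 6 - ι γ) / T ^ 3 ≠ 0 := by
    intro h0
    rw [h0] at hxy
    exact hG.hno _ (by rw [← hxy]; ring)
  obtain ⟨P, hP⟩ := hv_of_poly hG _ _ hy hxy (C (2 * a * s) * derivative (X ^ j.val)) (by
    rw [hDD, gen6 (der k) (three_ne_zero_ratFunc hG.h3) T (ι a) (ι s) (ι α) (ι γ) hT0 (hdι _)
      (hdι _) (hdι _) e2, map_mul, ← hdT, hιc, map_mul, map_mul, map_ofNat])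
  exact ⟨P, hv_of_HH P _ j hj0 hP⟩

end EXPL

end Pool.Agent.Helper23.K6
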