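import Mathlib

/-!
Ordinary curves `y ^ 2 = x ^ 3 - b` over a finite field, with `b` not a cube, have `p = 1 mod 3`
(module ORD of the negative half of `MP_3da457_ag`).
-/

namespace Pool.Agent.Helper23.K6

namespace OrdAux

variable {F : Type*} [Field F]

/-- The points of `y ^ 2 = x ^ 3 - b`. -/
noncomputable def ptEquiv (b : F) (h2 : (2 : F) ≠ 0) (h3 : (3 : F) ≠ 0) (hb : b ≠ 0) :
    (⟨0, 0, 0, 0, -b⟩ : WeierstrassCurve F).toAffine.Point ≃
      Option {P : F × F // P.2 ^ 2 = P.1 ^ 3 - b} where
  toFun
    | .zero => none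
    | .some x y h => some ⟨(x, y), by
        have := (WeierstrassCurve.Affine.equation_iff _ _).1 h.1
        simp only [zero_mul, add_zero] at this
        linear_combination this⟩
  invFun
    | none => .zero
    | some P => .some P.1.1 P.1.2 (by
        rw [WeierstrassCurve.Affine.nonsingular_iff]
        refine ⟨?_, ?_⟩
        · rw [WeierstrassCurve.Affine.equation_iff]
          simp only [zero_mul, add_zero]
          linear_combination P.2
        · simp only [zero_mul, mul_zero, add_zero, sub_zero]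
          by_contra hcon
          push Not at hcon
          obtain ⟨hx, hy⟩ := hcon
          have hy0 : P.1.2 = 0 := by
            have : (2 : F) * P.1.2 = 0 := by linear_combination hy
            exact (mul_eq_zero.1 this).resolve_left h2
          have hx0 : P.1.1 = 0 := by
            have : (3 : F) * P.1.1 ^ 2 = 0 := by linear_combination -hx
            exact pow_eq_zero_iff (two_ne_zero) |>.1 ((mul_eq_zero.1 this).resolve_left h3)
          have := P.2
          rw [hy0, hx0] at this
          apply hb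
          linear_combination this)
  left_inv P := by cases P <;> rfl
  right_inv P := by cases P <;> rfl

variable [Fintype F]

lemma sum_pow_units_eq (i : ℕ) (hi : 0 < i) [DecidableEq F] :
    ∑ x : F, x ^ i = if Fintype.card F - 1 ∣ i then -1 else 0 := by
  rw [← FiniteField.sum_pow_units F i]
  let φ : Fˣ ↪ F := ⟨fun x ↦ x, Units.val_injective⟩
  have h : Finset.univ.map φ = Finset.univ \ {0} := by
    ext x
    simpa only [Finset.mem_map, Finset.mem_univ, Function.Embedding.coeFn_mk, true_and,
      Finset.mem_sdiff, Finset.mem_singleton, φ] using! isUnit_iff_ne_zero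
  calc
    ∑ x : F, x ^ i = ∑ x ∈ Finset.univ \ {(0 : F)}, x ^ i := by
      rw [← Finset.sum_sdiff ({0} : Finset F).subset_univ, Finset.sum_singleton, zero_pow hi.ne',
        add_zero]
    _ = ∑ x : Fˣ, (x ^ i : F) := by simp [φ, ← h, Finset.univ.sum_map φ]

/-- number of solutions of `y ^ 2 = x ^ 3 - b`, in the field. -/
lemma count (b : F) (hF : ringChar F ≠ 2) [DecidableEq F] :
    (Nat.card {P : F × F // P.2 ^ 2 = P.1 ^ 3 - b} : F) =
      ∑ x : F, ((x ^ 3 - b) ^ (Fintype.card F / 2) + 1) := by
  have e : {P : F × F // P.2 ^ 2 = P.1 ^ 3 - b} ≃ Σ x : F, {y : F // y ^ 2 = x ^ 3 - b} :=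
    { toFun := fun P => ⟨P.1.1, P.1.2, P.2⟩
      invFun := fun P => ⟨(P.1, P.2.1), P.2.2⟩
      left_inv := fun P => rfl
      right_inv := fun P => rfl }
  rw [Nat.card_congr e, Nat.card_eq_fintype_card, Fintype.card_sigma, Nat.cast_sum]
  refine Finset.sum_congr rfl fun x _ => ?_
  have h := quadraticChar_card_sqrts hF (x ^ 3 - b)
  have h1 : Fintype.card {y : F // y ^ 2 = x ^ 3 - b} =
      (({y : F | y ^ 2 = x ^ 3 - b} : Set F).toFinset).card := by
    rw [Set.toFinset_card]
    rfl
  rw [h1]
  have h2 := congrArg (Int.cast : ℤ → F) h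
  rw [Int.cast_natCast, Int.cast_add, Int.cast_one, quadraticChar_eq_pow_of_char_ne_two' hF] at h2
  exact h2

end OrdAux

open OrdAux

theorem char_mod_three {F : Type*} [Field F] [Fintype F] {b : F} (h3 : 3 < ringChar F)
    (hb0 : b ≠ 0) (hb : ¬ ∃ z : F, z ^ 3 = b)
    (hord : ¬ ((ringChar F : ℤ) ∣ (Fintype.card F : ℤ) + 1 -
      (Nat.card (⟨0, 0, 0, 0, -b⟩ : WeierstrassCurve F).toAffine.Point : ℤ))) :
    ringChar F % 3 = 1 := by
  classical
  obtain ⟨p, hpc⟩ : ∃ p, ringChar F = p := ⟨_, rfl⟩
  have hcp : CharP F p := hpc ▸ ringChar.charP F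
  obtain ⟨n, hp, hq⟩ := FiniteField.card F p
  have := Fact.mk hp
  rw [hpc] at h3 hord ⊢
  set q := Fintype.card F with hqdef
  by_contra hmod
  have hp3 : p % 3 = 2 := by
    have h0 : p % 3 ≠ 0 := by
      intro h
      have := (Nat.prime_dvd_prime_iff_eq Nat.prime_three hp).1 (Nat.dvd_of_mod_eq_zero h)
      omega
    omega
  have hpodd : p % 2 = 1 := by
    rcases hp.eq_two_or_odd with h | h
    · omega
    · exact h
  have h2F : (2 : F) ≠ 0 := by
    have := (CharP.cast_eq_zero_iff F p 2).not.2 (fun h => by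
      have := Nat.le_of_dvd (by norm_num) h; omega)
    exact_mod_cast this
  have h3F : (3 : F) ≠ 0 := by
    have := (CharP.cast_eq_zero_iff F p 3).not.2 (fun h => by
      have := Nat.le_of_dvd (by norm_num) h; omega)
    exact_mod_cast this
  have hq1 : 1 < q := Fintype.one_lt_card
  -- 3 divides q - 1
  have h3q : 3 ∣ q - 1 := by
    by_contra hnd
    have hcop : (Nat.card Fˣ).Coprime 3 := by
      rw [Nat.card_eq_fintype_card, Fintype.card_units]
      exact (Nat.Coprime.symm ((Nat.Prime.coprime_iff_not_dvd Nat.prime_three).2 hnd))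
    obtain ⟨z, hz⟩ := (powCoprime hcop).surjective (Units.mk0 b hb0)
    apply hb
    refine ⟨(z : F), ?_⟩
    rw [powCoprime_apply] at hz
    have := congrArg Units.val hz
    simpa using this
  obtain ⟨m, hm⟩ := h3q
  have hq' : q = 3 * m + 1 := by omega
  -- residues modulo p
  have hqp : p ∣ q := by rw [hq]; exact dvd_pow_self p n.ne_zero
  obtain ⟨w, hw⟩ := hqp
  have hwpos : 0 < w := by
    rcases Nat.eq_zero_or_pos w with h | h
    · rw [h] at hw; omega
    · exact h
  have hwodd : w % 2 = 1 := by
    have : q % 2 = 1 := by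
      rw [hq, Nat.pow_mod, hpodd]; simp
    rw [hw, Nat.mul_mod, hpodd, one_mul, Nat.mod_mod] at this
    exact this
  -- the lowest digits
  obtain ⟨h, hh⟩ : ∃ h, q = 2 * h + 1 := ⟨q / 2, by
    have : q % 2 = 1 := by
      rw [hq, Nat.pow_mod, hpodd]; simp
    omega⟩
  have hhalf : q / 2 = h := by omega
  obtain ⟨r, hr⟩ : ∃ r, p = 2 * r + 1 := ⟨p / 2, by omega⟩
  obtain ⟨s, hs⟩ : ∃ s, p = 3 * s + 2 := ⟨p / 3, by omega⟩
  obtain ⟨v, hv⟩ : ∃ v, w = 2 * v + 1 := ⟨w / 2, by omega⟩
  have hhmod : h % p = r := by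
    have : h = r + p * v := by
      have : 2 * h + 1 = p * (2 * v + 1) := by rw [← hh, hw, hv]
      have : 2 * h + 1 = 2 * (p * v) + p := by rw [this]; ring
      omega
    rw [this, Nat.add_mul_mod_self_left]
    exact Nat.mod_eq_of_lt (by omega)
  -- m mod p
  have hmmod : m % p = 2 * s + 1 := by
    have h1 : 3 * m + 1 = p * w := by rw [← hq', hw]
    have hw3 : ∃ u, w = 3 * u + 2 := by
      refine ⟨w / 3, ?_⟩
      have h2 : (p * w) % 3 = 1 := by rw [← h1]; omega
      rw [Nat.mul_mod, hp3] at h2
      omega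
    obtain ⟨u, hu⟩ := hw3
    have h4 : m = (2 * s + 1) + p * u := by
      have : 3 * m + 1 = 3 * (p * u) + 2 * p := by rw [h1, hu]; ring
      omega
    rw [h4, Nat.add_mul_mod_self_left]
    exact Nat.mod_eq_of_lt (by omega)
  have hchoose : (Nat.choose h m : F) = 0 := by
    have hl := Choose.choose_modEq_choose_mod_mul_choose_div_nat (n := h) (k := m) (p := p)
    rw [hhmod, hmmod, Nat.choose_eq_zero_of_lt (by omega : r < 2 * s + 1), zero_mul] at hl
    rw [CharP.cast_eq_zero_iff F p]
    exact (Nat.modEq_zero_iff_dvd).1 hl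
  -- the count
  apply hord
  have hcard : Nat.card (⟨0, 0, 0, 0, -b⟩ : WeierstrassCurve F).toAffine.Point =
      Nat.card {P : F × F // P.2 ^ 2 = P.1 ^ 3 - b} + 1 := by
    rw [Nat.card_congr (ptEquiv b h2F h3F hb0)]
    exact Finite.card_option
  have hcount := count b (by rw [hpc]; omega)
  have hqF : (q : F) = 0 := by
    rw [hqdef]; exact FiniteField.cast_card_eq_zero F
  have hzero : (Nat.card {P : F × F // P.2 ^ 2 = P.1 ^ 3 - b} : F) = 0 := by
    rw [hcount, Finset.sum_add_distrib, Finset.sum_const, Finset.card_univ, nsmul_eq_mul, mul_one,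
      ← hqdef, hqF, add_zero, hhalf]
    have hexp : ∀ x : F, (x ^ 3 - b) ^ h =
        ∑ k ∈ Finset.range (h + 1), (-b) ^ (h - k) * (Nat.choose h k : F) * x ^ (3 * k) := by
      intro x
      rw [sub_eq_add_neg, add_pow]
      refine Finset.sum_congr rfl fun k _ => ?_
      rw [← pow_mul]; ring
    rw [Finset.sum_congr rfl fun x _ => hexp x, Finset.sum_comm]
    refine Finset.sum_eq_zero fun k hk => ?_
    rw [← Finset.mul_sum]
    rw [Finset.mem_range] at hk
    rcases Nat.eq_zero_or_pos k with hk0 | hk0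
    · subst hk0
      simp only [mul_zero, pow_zero, Finset.sum_const, Finset.card_univ, nsmul_eq_mul, mul_one]
      rw [← hqdef, hqF, mul_zero]
    · rw [sum_pow_units_eq (3 * k) (by omega)]
      split_ifs with hd
      · -- then k = m
        rw [← hqdef] at hd
        have hkm : k = m := by
          obtain ⟨c, hc⟩ := hd
          have hc1 : c = 1 := by
            rcases Nat.lt_or_ge c 1 with h' | h'
            · have : c = 0 := by omega
              rw [this] at hc; omega
            · rcases Nat.lt_or_ge c 2 with h'' | h''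
              · omega
              · have : (q - 1) * 2 ≤ (q - 1) * c := Nat.mul_le_mul_left _ h''
                omega
          rw [hc1] at hc
          omega
        rw [hkm, hchoose]; ring
      · rw [mul_zero]
  rw [← CharP.intCast_eq_zero_iff F p, hcard]
  push_cast
  rw [hzero, hqF]
  ring

end Pool.Agent.Helper23.K6
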