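import Mathlib

/-! Module WINDOW: elementary number theory. -/

namespace Pool.Agent.Helper23.K6

section WINDOW

/-- units lift along `ZMod m → ZMod e` -/
theorem window_lift {m e t : ℕ} (hm : 0 < m) (he : e ∣ m) (ht : t.Coprime e) :
    ∃ s : ℕ, s.Coprime m ∧ s % e = t % e := by
  have : NeZero m := ⟨hm.ne'⟩
  have hpos : 0 < e := Nat.pos_of_dvd_of_pos he hm
  have : NeZero e := ⟨hpos.ne'⟩
  obtain ⟨u, hu⟩ := ZMod.unitsMap_surjective he (ZMod.unitOfCoprime t ht)
  refine ⟨(u : ZMod m).val, ZMod.val_coe_unit_coprime u, ?_⟩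
  have h1 : ((ZMod.unitsMap he u : (ZMod e)ˣ) : ZMod e) = (t : ZMod e) := by
    rw [hu, ZMod.coe_unitOfCoprime]
  rw [ZMod.unitsMap_val] at h1
  have h2 : (((u : ZMod m).val : ℕ) : ZMod e) = (t : ZMod e) := by
    rw [← h1, ZMod.natCast_val]
  exact (ZMod.natCast_eq_natCast_iff' _ _ _).1 h2

theorem window_key {g d a : ℕ} (hg : 0 < g) (hd : 0 < d) (h3 : 3 ∣ d * g) (had : a.Coprime d)
    (h : ∀ s : ℕ, s.Coprime (d * g) → s % 3 = 1 → 3 * (s * (a * g) % (d * g)) < 2 * (d * g))
    {a' : ℕ} (ha' : a' < d) (hc : a'.Coprime d) (hmod : 3 ∣ d → a' % 3 = a % 3) :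
    3 * a' < 2 * d := by
  -- a unit `t` mod `d` with `t a = a'`
  have : NeZero d := ⟨hd.ne'⟩
  obtain ⟨t, htd, hta⟩ : ∃ t : ℕ, t.Coprime d ∧ t * a % d = a' % d := by
    let ua := ZMod.unitOfCoprime a had
    let ua' := ZMod.unitOfCoprime a' hc
    refine ⟨((ua' * ua⁻¹ : (ZMod d)ˣ) : ZMod d).val, ZMod.val_coe_unit_coprime _, ?_⟩
    apply (ZMod.natCast_eq_natCast_iff' _ _ _).1
    push_cast
    rw [ZMod.natCast_zmod_val]
    have h1 : (a : ZMod d) = (ua : ZMod d) := (ZMod.coe_unitOfCoprime a had).symm
    have h2 : (a' : ZMod d) = (ua' : ZMod d) := (ZMod.coe_unitOfCoprime a' hc).symm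
    rw [h1, h2]
    exact Units.inv_mul_cancel_right _ _
  obtain ⟨s, hs1, hs2, hs3⟩ : ∃ s : ℕ, s.Coprime (d * g) ∧ s % 3 = 1 ∧ s % d = t % d := by
    by_cases h3d : 3 ∣ d
    · obtain ⟨s, hs, hst⟩ := window_lift (m := d * g) (e := d) (by positivity) ⟨g, rfl⟩ htd
      refine ⟨s, hs, ?_, hst⟩
      -- `t ≡ 1 mod 3`
      have e1 : t * a % 3 = a' % 3 := by
        have := congrArg (· % 3) hta
        simpa [Nat.mod_mod_of_dvd _ h3d] using this
      rw [hmod h3d] at e1
      have e2 : s % 3 = t % 3 := by
        have := congrArg (· % 3) hst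
        simpa [Nat.mod_mod_of_dvd _ h3d] using this
      have e3 : ¬ 3 ∣ a := by
        intro hcon
        have := Nat.dvd_gcd hcon h3d
        rw [had] at this
        omega
      rw [e2]
      have e4 : (t % 3) * (a % 3) % 3 = a % 3 := by rw [← Nat.mul_mod]; exact e1
      have e5 : a % 3 = 1 ∨ a % 3 = 2 := by omega
      have e6 : t % 3 < 3 := Nat.mod_lt _ (by norm_num)
      rcases e5 with e5 | e5 <;> rw [e5] at e4 <;> omega
    · have hcop : Nat.Coprime d 3 := by
        rw [Nat.coprime_comm]
        exact (Nat.Prime.coprime_iff_not_dvd Nat.prime_three).2 h3d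
      obtain ⟨k, hk1, hk2⟩ := Nat.chineseRemainder hcop t 1
      have h3g : 3 ∣ g := (Nat.Coprime.dvd_mul_left hcop.symm).1 h3
      obtain ⟨g', rfl⟩ := h3g
      have hke : k.Coprime (d * 3) := by
        refine Nat.Coprime.mul_right ?_ ?_
        · exact (Nat.ModEq.gcd_eq hk1).trans htd
        · exact (Nat.ModEq.gcd_eq hk2).trans (by norm_num)
      obtain ⟨s, hs, hst⟩ := window_lift (m := d * (3 * g')) (e := d * 3) (by positivity)
        ⟨g', by ring⟩ hke
      refine ⟨s, hs, ?_, ?_⟩
      · have := congrArg (· % 3) hst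
        have h3e : 3 ∣ d * 3 := ⟨d, by ring⟩
        simp only [Nat.mod_mod_of_dvd _ h3e] at this
        rw [this]; exact hk2
      · have := congrArg (· % d) hst
        have hde : d ∣ d * 3 := ⟨3, rfl⟩
        simp only [Nat.mod_mod_of_dvd _ hde] at this
        rw [this]; exact hk1
  have hval : s * (a * g) % (d * g) = a' * g := by
    rw [← mul_assoc, Nat.mul_mod_mul_right]
    congr 1
    rw [Nat.mul_mod, hs3, ← Nat.mul_mod, hta, Nat.mod_eq_of_lt ha']
  have h4 := h s hs1 hs2
  rw [hval] at h4
  have : 3 * a' * g < 2 * d * g := by linarith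
  exact lt_of_mul_lt_mul_right this (Nat.zero_le g)

theorem window (m : ℕ) (hm : 3 ∣ m) (hm0 : 0 < m) (j : ℕ) (hj : 0 < j) (hjm : j < m)
    (h : ∀ s : ℕ, s.Coprime m → s % 3 = 1 → 3 * (s * j % m) < 2 * m) :
    2 * j = m ∨ 3 * j = m ∨ 6 * j = m ∨ 12 * j = m ∨ 12 * j = 7 * m ∨
      30 * j = m ∨ 30 * j = 7 * m ∨ 30 * j = 13 * m ∨ 30 * j = 19 * m := by
  obtain ⟨g, a, d, hg, had, rfl, rfl⟩ : ∃ g a d : ℕ, 0 < g ∧ a.Coprime d ∧ j = a * g ∧ m = d * g := by
    obtain ⟨a, d, had, h1, h2⟩ := Nat.exists_coprime j m
    exact ⟨Nat.gcd j m, a, d, Nat.gcd_pos_of_pos_left _ hj, had, h1, h2⟩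
  have hd : 0 < d := Nat.pos_of_mul_pos_right hm0 |> fun _ => by
    rcases Nat.eq_zero_or_pos d with h0 | h0
    · subst h0; simp at hm0
    · exact h0
  have ha : 0 < a := by
    rcases Nat.eq_zero_or_pos a with h0 | h0
    · subst h0; simp at hj
    · exact h0
  have hadlt : a < d := lt_of_mul_lt_mul_right hjm (Nat.zero_le g)
  have key := @window_key g d a hg hd hm had h
  have hself : 3 * a < 2 * d := key hadlt had (fun _ => rfl)
  have hsub : ∀ u, 0 < u → u < d → u.Coprime d → (d - u).Coprime d := by
    intro u _ hu hc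
    exact (Nat.coprime_self_sub_left hu.le).2 hc
  by_cases h3 : 3 ∣ d
  · have ha3 : a % 3 = 1 := by
      have hna : ¬ 3 ∣ a := by
        intro hcon
        have := Nat.dvd_gcd hcon h3
        rw [had] at this
        omega
      by_contra hne
      have ha2 : a % 3 = 2 := by omega
      have h1 := key (a' := d - 1) (by omega) (hsub 1 one_pos (by omega) (Nat.coprime_one_left d))
        (fun _ => by omega)
      omega
    have key2 : ∀ u, 0 < u → u < d → u.Coprime d → u % 3 = 2 → d < 3 * u := by
      intro u hu0 hu hc hu3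
      have h1 := key (a' := d - u) (by omega) (hsub u hu0 hu hc) (fun _ => by omega)
      omega
    have hdlist : d = 3 ∨ d = 6 ∨ d = 12 ∨ d = 30 := by
      by_cases h2 : 2 ∣ d
      · by_cases h5 : 5 ∣ d
        · obtain ⟨e, rfl⟩ : 10 ∣ d := by
            have : Nat.Coprime 2 5 := by norm_num
            exact this.mul_dvd_of_dvd_of_dvd h2 h5
          have h3e : 3 ∣ e := by
            have : Nat.Coprime 3 10 := by norm_num
            exact this.dvd_of_dvd_mul_left h3
          have he : 0 < e := by omega
          have cop : ∀ u, ¬ 2 ∣ u → ¬ 5 ∣ u → u.Coprime e → u.Coprime (10 * e) := by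
            intro u hu2 hu5 hue
            have c2 : u.Coprime 2 := (Nat.coprime_comm.1 ((Nat.Prime.coprime_iff_not_dvd Nat.prime_two).2 hu2))
            have c5 : u.Coprime 5 := (Nat.coprime_comm.1 ((Nat.Prime.coprime_iff_not_dvd Nat.prime_five).2 hu5))
            exact Nat.Coprime.mul_right (by simpa using Nat.Coprime.mul_right c2 c5) hue
          have c1 : ∀ c, 0 < c → (c * e - 1).Coprime e := by
            intro c hc
            have h1 : (c * e - 1).Coprime (c * e) := by
              have : 0 < c * e := by positivity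
              exact (Nat.coprime_self_sub_left (by omega)).2 (Nat.coprime_one_left _)
            exact h1.coprime_mul_left_right
          by_cases he2 : 2 ∣ e
          · by_cases he5 : e % 5 = 1
            · have h1 := key2 (2 * e - 1) (by omega) (by omega)
                (cop _ (by omega) (by omega) (c1 2 two_pos)) (by omega)
              omega
            · have h1 := key2 (e - 1) (by omega) (by omega)
                (cop _ (by omega) (by omega) (by simpa using c1 1 one_pos)) (by omega)
              omega
          · by_cases he5 : e % 5 = 3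
            · by_cases he3 : e = 3
              · right; right; right; omega
              · exfalso
                have c4 : (e - 4).Coprime e := by
                  refine (Nat.coprime_self_sub_left (by omega)).2 ?_
                  have : Nat.Coprime 2 e := (Nat.Prime.coprime_iff_not_dvd Nat.prime_two).2 he2
                  exact (this.pow_left 2)
                have h1 := key2 (e - 4) (by omega) (by omega)
                  (cop _ (by omega) (by omega) c4) (by omega)
                omega
            · have h1 := key2 (2 * e - 1) (by omega) (by omega)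
                (cop _ (by omega) (by omega) (c1 2 two_pos)) (by omega)
              omega
        · by_cases hd5 : 5 < d
          · have h1 := key2 5 (by norm_num) hd5
              ((Nat.Prime.coprime_iff_not_dvd Nat.prime_five).2 h5) (by norm_num)
            omega
          · omega
      · have h1 := key2 2 (by norm_num) (by omega)
          ((Nat.Prime.coprime_iff_not_dvd Nat.prime_two).2 h2) (by norm_num)
        omega
    rcases hdlist with rfl | rfl | rfl | rfl
    · have : a = 1 := by omega
      subst this; omega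
    · have : a = 1 := by omega
      subst this; omega
    · have h1 : a = 1 ∨ a = 4 ∨ a = 7 := by omega
      rcases h1 with rfl | rfl | rfl
      · omega
      · norm_num at had
      · omega
    · have h1 : a = 1 ∨ a = 4 ∨ a = 7 ∨ a = 10 ∨ a = 13 ∨ a = 16 ∨ a = 19 := by omega
      rcases h1 with rfl | rfl | rfl | rfl | rfl | rfl | rfl
      · omega
      · norm_num at had
      · omega
      · norm_num at had
      · omega
      · norm_num at had
      · omega
  · have h1 := key (a' := d - 1) (by omega) (hsub 1 one_pos (by omega) (Nat.coprime_one_left d))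
      (fun h => absurd h h3)
    have : d = 2 := by omega
    subst this
    have : a = 1 := by omega
    subst this
    omega

end WINDOW

end Pool.Agent.Helper23.K6
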