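import Mathlib
import Pool.Agent.Helper23.K6.ClaimB
import Pool.Agent.Helper23.K6.Window
import Pool.Agent.Helper23.K6.Ord
import Pool.Agent.Helper23.K6.Arith1
import Pool.Agent.Helper23.K6.Arith2
import Pool.Agent.Helper23.K6.ExplA
import Pool.Agent.Helper44.K6.ExplB
import Pool.Agent.Helper44.K6.Plane

/-!
Final assembly of the negative half of MP_3da457_ag.
-/

namespace Pool.Agent.Helper23.K6

open Polynomial Pool.Agent.Helper44

section xzero

variable {k : Type*} [Field k]

lemma x_eq_zero_of_ht (α γ : k) (hα : α ≠ 0) (hγ : γ ≠ 0) (m : ℕ) (hm : (m : k) ≠ 0)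
    (x y : RatFunc k) (he : y ^ 2 = x ^ 3 + DD α γ m ^ 2)
    (h : ht (y / DD α γ m) = 0) : x = 0 := by
    have hm0 : m ≠ 0 := by
      rintro rfl
      exact hm (by simp)
    have hD : Dp α γ m ≠ 0 := by
      rw [Dp]
      exact mul_ne_zero (C_ne_zero.2 hα) (monic_X_pow_sub_C γ hm0).ne_zero
    have hDD : DD α γ m ≠ 0 := RatFunc.algebraMap_ne_zero hD
    -- `y / D` is constant
    obtain ⟨a, ha⟩ : ∃ a : k, y / DD α γ m = RatFunc.C a := by
      rw [ht] at h
      have hn : (y / DD α γ m).num.natDegree = 0 := by omega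
      have hd : (y / DD α γ m).denom.natDegree = 0 := by omega
      have hd1 : (y / DD α γ m).denom = 1 := (RatFunc.monic_denom _).natDegree_eq_zero.1 hd
      obtain ⟨a, ha⟩ := natDegree_eq_zero.1 hn
      refine ⟨a, ?_⟩
      rw [← RatFunc.num_div_denom (y / DD α γ m), hd1, map_one, div_one, ← ha,
        RatFunc.algebraMap_C]
    have hy : y = RatFunc.C a * DD α γ m := by
      rw [← ha, div_mul_cancel₀ _ hDD]
    have hx3 : x ^ 3 = RatFunc.C (a ^ 2 - 1) * DD α γ m ^ 2 := by
      rw [map_sub, map_pow, map_one]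
      rw [hy] at he
      linear_combination -he
    have hx0 : x = 0 := by
      by_contra hx0
      have ha1 : a ^ 2 - 1 ≠ 0 := by
        intro h0
        rw [h0, map_zero, zero_mul] at hx3
        exact hx0 (pow_eq_zero_iff (by norm_num) |>.1 hx3)
      -- a simple irreducible factor
      have hnu : ¬ IsUnit (X ^ m - C γ : k[X]) := by
        intro hu
        have := natDegree_eq_zero_of_isUnit hu
        rw [natDegree_X_pow_sub_C] at this
        exact hm0 this
      obtain ⟨q, hq, hqd⟩ := WfDvdMonoid.exists_irreducible_factor hnu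
        (monic_X_pow_sub_C γ hm0).ne_zero
      have hsq : Squarefree (X ^ m - C γ : k[X]) :=
        (separable_X_pow_sub_C γ hm hγ).squarefree
      have hm1 := mul_denom x
      have hnn : x.num ≠ 0 := RatFunc.num_ne_zero hx0
      have hdn : x.denom ≠ 0 := RatFunc.denom_ne_zero x
      have hpoly : x.num ^ 3 = C (a ^ 2 - 1) * (Dp α γ m) ^ 2 * x.denom ^ 3 := by
        apply RatFunc.algebraMap_injective k
        rw [map_pow, ← hm1, mul_pow, hx3, map_mul, map_mul, map_pow, map_pow, RatFunc.algebraMap_C]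
        rfl
      rw [Dp] at hpoly
      have hqp : Prime q := hq.prime
      have hE1 : emultiplicity q (X ^ m - C γ : k[X]) = 1 := by
        apply le_antisymm
        · rcases (squarefree_iff_emultiplicity_le_one _).1 hsq q with h' | h'
          · exact h'
          · exact absurd h' hq.not_isUnit
        · have := (pow_dvd_iff_le_emultiplicity (a := q) (k := 1)
            (b := (X ^ m - C γ : k[X]))).1 (by simpa using hqd)
          simpa using this
      have hE2 := congrArg (emultiplicity q) hpoly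
      have hu1 : emultiplicity q (C (a ^ 2 - 1)) = 0 :=
        emultiplicity_of_isUnit_right hq.not_isUnit (isUnit_C.2 (isUnit_iff_ne_zero.2 ha1))
      have hu2 : emultiplicity q (C α) = 0 :=
        emultiplicity_of_isUnit_right hq.not_isUnit (isUnit_C.2 (isUnit_iff_ne_zero.2 hα))
      rw [emultiplicity_pow hqp, emultiplicity_mul hqp, emultiplicity_mul hqp,
        emultiplicity_pow hqp, emultiplicity_pow hqp, emultiplicity_mul hqp, hu1, hu2, hE1,
        (FiniteMultiplicity.of_prime_left hqp hnn).emultiplicity_eq_multiplicity,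
        (FiniteMultiplicity.of_prime_left hqp hdn).emultiplicity_eq_multiplicity] at hE2
      norm_cast at hE2
      omega
    exact hx0

end xzero

section fin

lemma cast_mul_eq (m : ℕ) [NeZero m] (j : ZMod m) (d a Q t : ℕ) (hd : d * j.val = m * a)
    (hQ : Q = d * t + 1) : ((Q : ℕ) : ZMod m) * j = j := by
  have h1 : ((Q : ℕ) : ZMod m) * j = ((Q * j.val : ℕ) : ZMod m) := by
    push_cast
    rw [ZMod.natCast_val, ZMod.cast_id]
  have h2 : Q * j.val = m * (t * a) + j.val := by
    rw [hQ]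
    calc (d * t + 1) * j.val = t * (d * j.val) + j.val := by ring
      _ = _ := by rw [hd]; ring
  rw [h1, h2]
  push_cast
  rw [ZMod.natCast_self, zero_mul, zero_add, ZMod.natCast_val, ZMod.cast_id]

variable {F : Type*} [Field F] [Fintype F] {k : Type*} [Field k] [Algebra F k]

lemma algebraMap_pow_card (a : F) (r : ℕ) :
    (algebraMap F k a) ^ (Fintype.card F ^ r) = algebraMap F k a := by
  rw [← map_pow]
  congr 1
  induction r with
  | zero => simp
  | succ r ih => rw [pow_succ, pow_mul, ih, FiniteField.pow_card]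

lemma natCast_pow_card (n r : ℕ) : ((n : ℕ) : k) ^ (Fintype.card F ^ r) = (n : k) := by
  have h := algebraMap_pow_card (F := F) (k := k) (n : F) r
  rwa [map_natCast] at h

lemma fixed_of_mul (θ : k) (n r : ℕ) (hn : (n : k) ≠ 0)
    (h : (θ * n) ^ (Fintype.card F ^ r) = θ * n) : θ ^ (Fintype.card F ^ r) = θ := by
  rw [mul_pow, natCast_pow_card (F := F)] at h
  exact mul_right_cancel₀ hn h

end fin

section cf

variable {F : Type*} [Field F] {k : Type*} [Field k]

lemma cf_DD (φ : F →+* k) (α γ : F) (m : ℕ) : cf φ (DD α γ m) = DD (φ α) (φ γ) m := by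
  rw [DD, cf_algebraMap, DD, Dp, Dp]
  simp only [Polynomial.map_mul, Polynomial.map_sub, Polynomial.map_pow, Polynomial.map_C,
    Polynomial.map_X]

variable [DecidableEq (RatFunc F)] [DecidableEq (RatFunc k)]

/-- Base change of points. -/
noncomputable def bc (φ : F →+* k) (α γ : F) (m : ℕ) : Pt (DD α γ m) →+ Pt (DD (φ α) (φ γ) m) :=
  tw (cf φ) 1 one_ne_zero (by rw [one_pow, one_mul, map_pow, cf_DD])

lemma Good.map {p : ℕ} {α γ : F} {l : ℕ} (hG : Good p α γ l) (φ : F →+* k) :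
    Good p (φ α) (φ γ) l where
  hp3 := hG.hp3
  hα := (_root_.map_ne_zero φ).2 hG.hα
  hγ := (_root_.map_ne_zero φ).2 hG.hγ
  hl := by
    rw [← map_natCast φ]
    exact (_root_.map_ne_zero φ).2 hG.hl
  hθ := by
    obtain ⟨θ, hθ⟩ := hG.hθ
    refine ⟨φ θ, ?_⟩
    rw [← map_pow, hθ, map_neg, map_ofNat]
  h2 := by
    rw [← map_ofNat φ]
    exact (_root_.map_ne_zero φ).2 hG.h2
  h3 := by
    rw [← map_ofNat φ]
    exact (_root_.map_ne_zero φ).2 hG.h3

lemma HH_bc {p : ℕ} {α γ : F} {l : ℕ} (hG : Good p α γ l) (φ : F →+* k)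
    (P : Pt (DD α γ (3 * l))) :
    HH (φ α) (φ γ) l (bc φ α γ (3 * l) P) = (HH α γ l P).map φ := by
  apply HH_eq (hG.map φ)
  rw [bc, gg_tw (c := 1) (dK := der F) (dL := der k)]
  · rw [inv_one, mul_one, one_mul, ← cf_DD, ← map_mul, (HH_spec hG P).2, cf_algebraMap]
  · exact hG.hD
  · intro f
    rw [one_mul]
    exact der_cf φ f
  · exact dz_one _
  · exact two_ne_zero_ratFunc (hG.map φ).h2

end cf

section core

variable {F : Type*} [Field F] [Fintype F] {k : Type*} [Field k] [Algebra F k] [IsAlgClosed k]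
  [DecidableEq (RatFunc k)] {p : ℕ} [hp : Fact p.Prime] [CharP F p] [CharP k p]

/-- A point whose coefficient `hv P j` is a nonzero element of `F`. -/
theorem core {b c : F} (hb0 : b ≠ 0) (hb : ¬ ∃ z : F, z ^ 3 = b) (hc : ∃ z : F, z ^ 3 = c)
    (hc0 : c ≠ 0) (hcs : ¬ IsSquare c) {l : ℕ}
    (hG : Good p (algebraMap F k (1 / (2 * b ^ 2))) (algebraMap F k c) l) (hp3 : 3 < p)
    (P : Pt (DD (algebraMap F k (1 / (2 * b ^ 2))) (algebraMap F k c) (3 * l)))
    (j : ZMod (3 * l)) (a : F) (ha : a ≠ 0)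
    (hj : hv (algebraMap F k (1 / (2 * b ^ 2))) (algebraMap F k c) l P j = algebraMap F k a) :
    30 ∣ 3 * l ∧ Fintype.card F % 5 ≠ 1 ∧ ∃ z : F, b = 10 * z ^ 3 := by
  have hl := hG.hl0
  have hne : NeZero (3 * l) := ⟨by omega⟩
  have hinj := (algebraMap F k).injective
  have h2 : (2 : F) ≠ 0 := by
    intro h
    apply hG.h2
    rw [← map_ofNat (algebraMap F k), h, map_zero]
  have h3 : (3 : F) ≠ 0 := by
    intro h
    apply hG.h3
    rw [← map_ofNat (algebraMap F k), h, map_zero]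
  have hα : (1 / (2 * b ^ 2)) ≠ 0 :=
    one_div_ne_zero (mul_ne_zero h2 (pow_ne_zero _ hb0))
  have hja : hv (algebraMap F k (1 / (2 * b ^ 2))) (algebraMap F k c) l P j ≠ 0 := by
    rw [hj]
    exact (_root_.map_ne_zero _).2 ha
  -- the cardinality
  obtain ⟨f, hpr, hcard⟩ := FiniteField.card F p
  have hp3' := hG.hp3
  have hq3 : Fintype.card F % 3 = 1 := by
    rw [hcard, Nat.pow_mod, hp3', one_pow]
    norm_num
  have hp2 : p % 2 = 1 := by
    rcases hpr.eq_two_or_odd with h | h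
    · omega
    · exact h
  have hq2 : Fintype.card F % 2 = 1 := by
    rw [hcard, Nat.pow_mod, hp2, one_pow]
    norm_num
  have hp5 : p ≠ 5 := by
    rintro rfl
    omega
  have hpdvd5 : ¬ p ∣ 5 := by
    intro h
    exact hp5 ((Nat.prime_dvd_prime_iff_eq hpr (by norm_num)).1 h)
  have h5 : (5 : F) ≠ 0 := by
    intro h
    apply hpdvd5
    rw [← CharP.cast_eq_zero_iff F p]
    exact_mod_cast h
  have hq5 : Fintype.card F % 5 ≠ 0 := by
    intro h
    have h1 : 5 ∣ p ^ (f : ℕ) := by rw [← hcard]; omega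
    have h2 := (by norm_num : Nat.Prime 5).dvd_of_dvd_pow h1
    exact hp5 ((Nat.prime_dvd_prime_iff_eq (by norm_num) hpr).1 h2).symm
  -- the comparison
  have hcmp : ∀ (r : ℕ) (P₂ : Pt (DD (algebraMap F k (1 / (2 * b ^ 2))) (algebraMap F k c)
      (3 * l))), (((Fintype.card F) ^ r : ℕ) : ZMod (3 * l)) * j = j →
      hv _ _ l P₂ j ^ (Fintype.card F ^ r) = hv _ _ l P₂ j := by
    intro r P₂ hr
    rw [hcard, ← pow_mul] at hr ⊢
    apply compare hG P P₂ j _ hr hja
    rw [hj, pow_mul, ← hcard]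
    exact algebraMap_pow_card a r
  -- window
  have hj0 : 0 < j.val := by
    rw [Nat.pos_iff_ne_zero]
    intro h
    rw [ZMod.val_eq_zero] at h
    rw [h] at hja
    exact hja (hv_zero P)
  have hjm := ZMod.val_lt j
  have hwin := window (3 * l) (dvd_mul_right 3 l) (by omega) j.val hj0 hjm (by
    intro s hs hs3
    have h1 := claimA hG P j hja s hs hs3
    have h2 : ((s : ZMod (3 * l)) * j).val = (s * j.val) % (3 * l) := by
      have : (s : ZMod (3 * l)) * j = ((s * j.val : ℕ) : ZMod (3 * l)) := by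
        push_cast
        rw [ZMod.natCast_val, ZMod.cast_id]
      rw [this, ZMod.val_natCast]
    rw [h2] at h1
    omega)
  -- casts
  have hnk : ∀ n : ℕ, n ∣ 3 * l → (n : k) ≠ 0 := by
    intro n hn h
    obtain ⟨t, ht⟩ := hn
    apply hG.hl3
    rw [ht, Nat.cast_mul, h, zero_mul]
  rcases hwin with h | h | h | h | h | h | h | h | h
  · -- d = 2
    exfalso
    obtain ⟨β, δ, e1, e2, e3⟩ := arith2 (k := k) h2 h3 hq3 hα hcs
    obtain ⟨P₂, hP₂⟩ := expl2 hG β δ e1 e2 j h
    have hr := hcmp 1 P₂ (cast_mul_eq (3 * l) j 2 1 _ (Fintype.card F / 2) (by omega)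
      (by rw [pow_one]; omega))
    rw [hP₂] at hr
    have := fixed_of_mul _ _ _ (hnk _ (Dvd.intro_left 2 h)) hr
    rw [pow_one] at this
    exact e3 this
  · -- d = 3
    exfalso
    obtain ⟨β, e1, e3⟩ := arith3 (k := k) h2 hb0 hb hc hc0
    obtain ⟨P₂, hP₂⟩ := expl3 hG β e1 j h
    have hr := hcmp 1 P₂ (cast_mul_eq (3 * l) j 3 1 _ (Fintype.card F / 3) (by omega)
      (by rw [pow_one]; omega))
    rw [hP₂] at hr
    have := fixed_of_mul _ _ _ (hnk _ (Dvd.intro_left 3 h)) hr
    rw [pow_one] at this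
    exact e3 this
  · -- d = 6
    exfalso
    obtain ⟨a', s, e1, e2, e3⟩ := arith6 (k := k) h2 hα hcs
    obtain ⟨P₂, hP₂⟩ := expl6 hG a' s e1 e2 j h
    have hr := hcmp 1 P₂ (cast_mul_eq (3 * l) j 6 1 _ (Fintype.card F / 6) (by omega)
      (by rw [pow_one]; omega))
    rw [hP₂] at hr
    have := fixed_of_mul _ _ _ (hnk _ (Dvd.intro_left 6 h)) hr
    rw [pow_one] at this
    exact e3 this
  · -- d = 12, a = 1
    exfalso
    obtain ⟨a', e, ρ, e1, e2, e3, e4, e5⟩ := arith12 (k := k) h2 hb0 hb hc hc0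
    obtain ⟨P₂, hP₂⟩ := expl12 hG a' e ρ e1 e2 e3 j.val h
    have hq12 : Fintype.card F ^ 2 % 12 = 1 := by
      have h6 : Fintype.card F % 12 = 1 ∨ Fintype.card F % 12 = 7 := by omega
      rcases h6 with h6 | h6 <;> rw [Nat.pow_mod, h6]
    have hr := hcmp 2 P₂ (cast_mul_eq (3 * l) j 12 1 _ (Fintype.card F ^ 2 / 12) (by omega)
      (by omega))
    rw [(hP₂ j).1 rfl] at hr
    exact e5 (fixed_of_mul _ _ _ (hnk _ (Dvd.intro_left 12 h)) hr)
  · -- d = 12, a = 7
    exfalso
    obtain ⟨a', e, ρ, e1, e2, e3, e4, e5⟩ := arith12 (k := k) h2 hb0 hb hc hc0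
    obtain ⟨i, hi⟩ : ∃ i, 12 * i = 3 * l := ⟨3 * l / 12, by omega⟩
    obtain ⟨P₂, hP₂⟩ := expl12 hG a' e ρ e1 e2 e3 i hi
    have hq12 : Fintype.card F ^ 2 % 12 = 1 := by
      have h6 : Fintype.card F % 12 = 1 ∨ Fintype.card F % 12 = 7 := by omega
      rcases h6 with h6 | h6 <;> rw [Nat.pow_mod, h6]
    have hr := hcmp 2 P₂ (cast_mul_eq (3 * l) j 12 7 _ (Fintype.card F ^ 2 / 12) (by omega)
      (by omega))
    rw [(hP₂ j).2 (by omega)] at hr
    exact e4 (fixed_of_mul _ _ _ (hnk _ (Dvd.intro_left 12 hi)) hr)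
  all_goals
    obtain ⟨i, hi⟩ : ∃ i, 30 * i = 3 * l := ⟨3 * l / 30, by omega⟩
    refine ⟨Dvd.intro i hi, ?_⟩
    by_contra hcon
    rw [not_and_or, not_not] at hcon
    have hik := hnk _ (Dvd.intro_left 30 hi)
    rcases hcon with h51 | hbz
    · obtain ⟨e, w, δ, κ, e1, e2, e3, e4, f1, f2, f3, f4⟩ := arith30a (k := k) h2 h5 h51 hα hcs
      obtain ⟨P₂, hP₂⟩ := expl30 hG e w δ κ e1 e2 e3 e4 i hi
      have hQ : Fintype.card F ^ 1 = 30 * (Fintype.card F ^ 1 / 30) + 1 := by
        rw [pow_one]; omega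
      first
        | (have hr := hcmp 1 P₂ (cast_mul_eq (3 * l) j 30 1 _ _ (by omega) hQ)
           rw [(hP₂ j).1 (by omega)] at hr
           have hfin := fixed_of_mul _ _ _ hik hr
           rw [pow_one] at hfin
           exact f1 hfin)
        | (have hr := hcmp 1 P₂ (cast_mul_eq (3 * l) j 30 7 _ _ (by omega) hQ)
           rw [(hP₂ j).2.1 (by omega)] at hr
           have hfin := fixed_of_mul _ _ _ hik hr
           rw [pow_one] at hfin
           exact f2 hfin)
        | (have hr := hcmp 1 P₂ (cast_mul_eq (3 * l) j 30 13 _ _ (by omega) hQ)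
           rw [(hP₂ j).2.2.1 (by omega)] at hr
           have hfin := fixed_of_mul _ _ _ hik hr
           rw [pow_one] at hfin
           exact f3 hfin)
        | (have hr := hcmp 1 P₂ (cast_mul_eq (3 * l) j 30 19 _ _ (by omega) hQ)
           rw [(hP₂ j).2.2.2 (by omega)] at hr
           have hfin := fixed_of_mul _ _ _ hik hr
           rw [pow_one] at hfin
           exact f4 hfin)
    · by_cases h51 : Fintype.card F % 5 = 1
      · obtain ⟨e, w, δ, κ, e1, e2, e3, e4, f1, f2, f3, f4⟩ := arith30a (k := k) h2 h5 h51 hα hcs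
        obtain ⟨P₂, hP₂⟩ := expl30 hG e w δ κ e1 e2 e3 e4 i hi
        have hQ : Fintype.card F ^ 1 = 30 * (Fintype.card F ^ 1 / 30) + 1 := by
          rw [pow_one]; omega
        first
          | (have hr := hcmp 1 P₂ (cast_mul_eq (3 * l) j 30 1 _ _ (by omega) hQ)
             rw [(hP₂ j).1 (by omega)] at hr
             have hfin := fixed_of_mul _ _ _ hik hr
             rw [pow_one] at hfin
             exact f1 hfin)
          | (have hr := hcmp 1 P₂ (cast_mul_eq (3 * l) j 30 7 _ _ (by omega) hQ)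
             rw [(hP₂ j).2.1 (by omega)] at hr
             have hfin := fixed_of_mul _ _ _ hik hr
             rw [pow_one] at hfin
             exact f2 hfin)
          | (have hr := hcmp 1 P₂ (cast_mul_eq (3 * l) j 30 13 _ _ (by omega) hQ)
             rw [(hP₂ j).2.2.1 (by omega)] at hr
             have hfin := fixed_of_mul _ _ _ hik hr
             rw [pow_one] at hfin
             exact f3 hfin)
          | (have hr := hcmp 1 P₂ (cast_mul_eq (3 * l) j 30 19 _ _ (by omega) hQ)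
             rw [(hP₂ j).2.2.2 (by omega)] at hr
             have hfin := fixed_of_mul _ _ _ hik hr
             rw [pow_one] at hfin
             exact f4 hfin)
      · obtain ⟨e, w, δ, κ, e1, e2, e3, e4, f1, f2, f3, f4⟩ :=
          arith30b (k := k) h2 h3 h5 h51 hb0 hbz hc hc0
        obtain ⟨P₂, hP₂⟩ := expl30 hG e w δ κ e1 e2 e3 e4 i hi
        have hq4 : Fintype.card F ^ 4 % 30 = 1 := by
          have h6 : Fintype.card F % 30 = 7 ∨ Fintype.card F % 30 = 13 ∨
            Fintype.card F % 30 = 19 := by omega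
          rcases h6 with h6 | h6 | h6 <;> rw [Nat.pow_mod, h6]
        have hQ : Fintype.card F ^ 4 = 30 * (Fintype.card F ^ 4 / 30) + 1 := by omega
        first
          | (have hr := hcmp 4 P₂ (cast_mul_eq (3 * l) j 30 1 _ _ (by omega) hQ)
             rw [(hP₂ j).1 (by omega)] at hr
             exact f1 (fixed_of_mul _ _ _ hik hr))
          | (have hr := hcmp 4 P₂ (cast_mul_eq (3 * l) j 30 7 _ _ (by omega) hQ)
             rw [(hP₂ j).2.1 (by omega)] at hr
             exact f2 (fixed_of_mul _ _ _ hik hr))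
          | (have hr := hcmp 4 P₂ (cast_mul_eq (3 * l) j 30 13 _ _ (by omega) hQ)
             rw [(hP₂ j).2.2.1 (by omega)] at hr
             exact f3 (fixed_of_mul _ _ _ hik hr))
          | (have hr := hcmp 4 P₂ (cast_mul_eq (3 * l) j 30 19 _ _ (by omega) hQ)
             rw [(hP₂ j).2.2.2 (by omega)] at hr
             exact f4 (fixed_of_mul _ _ _ hik hr))

end core

section neg

variable {F : Type*} [Field F] [Fintype F] [DecidableEq (RatFunc F)] {p : ℕ} [hp : Fact p.Prime]
  [CharP F p]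

omit [Fintype F] [DecidableEq (RatFunc F)] hp [CharP F p] in
lemma AA_eq_DD (b c : F) (n : ℕ) (h2 : (2 : F) ≠ 0) (hb : b ≠ 0) :
    AA b c n = DD (1 / (2 * b ^ 2)) c (3 * (2 * n)) := by
  have h2' := two_ne_zero_ratFunc h2
  have hb' : (RatFunc.C b : RatFunc F) ≠ 0 := (_root_.map_ne_zero _).2 hb
  rw [AA, DD, Dp, map_mul, map_sub, map_pow, RatFunc.algebraMap_X, RatFunc.algebraMap_C,
    RatFunc.algebraMap_C, map_div₀, map_one, map_mul, map_pow, map_ofNat]
  have : 3 * (2 * n) = 6 * n := by ring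
  rw [this]
  field_simp

/-- Division by Frobenius: a point of positive height gives a point with `gg ≠ 0`. -/
lemma exists_gg_ne_zero {α γ : F} {l : ℕ} (hG : Good p α γ l) (N : ℕ) :
    ∀ P : Pt (DD α γ (3 * l)), ht (slopeFun (DD α γ (3 * l)) P) = N → N ≠ 0 →
      ∃ P₁ : Pt (DD α γ (3 * l)), gg (der F) (DD α γ (3 * l)) P₁ ≠ 0 := by
  induction N using Nat.strong_induction_on with
  | _ N ih =>
    intro P hP hN
    by_cases hg : gg (der F) (DD α γ (3 * l)) P = 0
    · obtain ⟨P', hP'⟩ := exists_piE p hG.h2 hG.h3 _ hG.hD hG.hp3 hG.hno P hg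
      have h1 := ht_piE p (DD α γ (3 * l)) hG.hD hG.hp3 P'
      rw [hP', hP] at h1
      have hp2 := hp.out.two_le
      have h2 : ht (slopeFun (DD α γ (3 * l)) P') ≠ 0 := by
        intro h
        rw [h, mul_zero] at h1
        exact hN h1
      refine ih _ ?_ P' rfl h2
      have h3 : 0 < ht (slopeFun (DD α γ (3 * l)) P') := Nat.pos_of_ne_zero h2
      rw [h1]
      nlinarith
    · exact ⟨P, hg⟩

theorem neg_coprime (hp3 : 3 < p) (hpm : p % 3 = 1) {b c : F} (hb0 : b ≠ 0)
    (hb : ¬ ∃ z : F, z ^ 3 = b) (hc : ∃ z : F, z ^ 3 = c) (hc0 : c ≠ 0) (hcs : ¬ IsSquare c)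
    (hθ : ∃ θ : F, θ ^ 2 = -3)
    {n : ℕ} (hn : ¬ p ∣ n) (x y : RatFunc F) (hx : x ≠ 0) (hxy : y ^ 2 = x ^ 3 + AA b c n ^ 2) :
    5 ∣ n ∧ Fintype.card F % 5 ≠ 1 ∧ ∃ z : F, b = 10 * z ^ 3 := by
  classical
  have hnd : ∀ r : ℕ, 0 < r → r ≤ 3 → ((r : ℕ) : F) ≠ 0 := by
    intro r hr hr3 h
    rw [CharP.cast_eq_zero_iff F p] at h
    have := Nat.le_of_dvd hr h
    omega
  have h2 : (2 : F) ≠ 0 := by exact_mod_cast hnd 2 (by norm_num) (by norm_num)
  have h3 : (3 : F) ≠ 0 := by exact_mod_cast hnd 3 (by norm_num) (by norm_num)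
  have hG : Good p (1 / (2 * b ^ 2)) c (2 * n) :=
    { hp3 := hpm
      hα := one_div_ne_zero (mul_ne_zero h2 (pow_ne_zero _ hb0))
      hγ := hc0
      hl := by
        push_cast
        refine mul_ne_zero h2 ?_
        intro h
        exact hn ((CharP.cast_eq_zero_iff F p n).1 h)
      hθ := hθ
      h2 := h2
      h3 := h3 }
  rw [AA_eq_DD b c n h2 hb0] at hxy
  have h2' := two_ne_zero_ratFunc h2
  have h3' := three_ne_zero_ratFunc h3
  have hns := mordell_nonsingular _ x y (pow_ne_zero 2 hG.hD) h2' h3' hxy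
  have hht : ht (slopeFun (DD (1 / (2 * b ^ 2)) c (3 * (2 * n))) (.some x y hns)) ≠ 0 := by
    intro h
    exact hx (x_eq_zero_of_ht _ _ hG.hα hG.hγ _ hG.hl3 x y hxy h)
  obtain ⟨P₁, hP₁⟩ := exists_gg_ne_zero hG _ (.some x y hns) rfl hht
  obtain ⟨hdeg, hH⟩ := HH_spec hG P₁
  have hH0 : HH (1 / (2 * b ^ 2)) c (2 * n) P₁ ≠ 0 := by
    intro h
    rw [h, map_zero] at hH
    exact (mul_ne_zero hG.hD hP₁) hH
  -- the coefficient
  obtain ⟨i, hi⟩ : ∃ i, i = (HH (1 / (2 * b ^ 2)) c (2 * n) P₁).natDegree := ⟨_, rfl⟩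
  have hicoeff : (HH (1 / (2 * b ^ 2)) c (2 * n) P₁).coeff i ≠ 0 := by
    rw [hi]
    exact leadingCoeff_ne_zero.2 hH0
  have hilt : i < 2 * (2 * n) - 1 := by rw [hi]; exact hdeg
  have hG' := hG.map (algebraMap F (AlgebraicClosure F))
  haveI : CharP (AlgebraicClosure F) p :=
    charP_of_injective_algebraMap (algebraMap F (AlgebraicClosure F)).injective p
  have hv1 : hv (algebraMap F (AlgebraicClosure F) (1 / (2 * b ^ 2)))
      (algebraMap F (AlgebraicClosure F) c) (2 * n)
      (bc (algebraMap F (AlgebraicClosure F)) _ _ _ P₁) ((i + 1 : ℕ) : ZMod (3 * (2 * n))) =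
      algebraMap F (AlgebraicClosure F) ((HH (1 / (2 * b ^ 2)) c (2 * n) P₁).coeff i) := by
    rw [hv, ZMod.val_natCast_of_lt (by omega), if_neg (by omega), HH_bc hG, coeff_map]
    rfl
  obtain ⟨h30, hq, hz⟩ := core hb0 hb hc hc0 hcs hG' hp3 _ _ _ hicoeff hv1
  exact ⟨by omega, hq, hz⟩

theorem neg_all (hp3 : 3 < p) (hpm : p % 3 = 1) (hθ : ∃ θ : F, θ ^ 2 = -3) (n : ℕ) :
    ∀ (b c : F), b ≠ 0 → (¬ ∃ z : F, z ^ 3 = b) → (∃ z : F, z ^ 3 = c) → c ≠ 0 → ¬ IsSquare c →
    0 < n → ∀ x y : RatFunc F, x ≠ 0 → y ^ 2 = x ^ 3 + AA b c n ^ 2 →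
    5 ∣ n ∧ Fintype.card F % 5 ≠ 1 ∧ ∃ z : F, b = 10 * z ^ 3 := by
  induction n using Nat.strong_induction_on with
  | _ n ih =>
    intro b c hb0 hb hc hc0 hcs hn x y hx hxy
    by_cases hpn : p ∣ n
    · obtain ⟨n', rfl⟩ := hpn
      have hsurj : Function.Surjective (fun z : F => z ^ p) := by
        apply Finite.surjective_of_injective
        exact frobenius_inj F p
      obtain ⟨b', rfl⟩ := hsurj b
      obtain ⟨c', rfl⟩ := hsurj c
      simp only at hb0 hb hc hc0 hcs hxy ⊢
      have hp0 := hp.out.ne_zero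
      have hb0' : b' ≠ 0 := by
        rintro rfl
        exact hb0 (zero_pow hp0)
      have hc0' : c' ≠ 0 := by
        rintro rfl
        exact hc0 (zero_pow hp0)
      have hb' : ¬ ∃ z : F, z ^ 3 = b' := by
        rintro ⟨z, rfl⟩
        exact hb ⟨z ^ p, by rw [← pow_mul, ← pow_mul, mul_comm]⟩
      have hc' : ∃ z : F, z ^ 3 = c' := by
        obtain ⟨z, hz⟩ := hc
        obtain ⟨w, rfl⟩ := hsurj z
        refine ⟨w, frobenius_inj F p ?_⟩
        simp only [frobenius_def]
        rw [← hz, ← pow_mul, ← pow_mul, mul_comm]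
      have hcs' : ¬ IsSquare c' := by
        rintro ⟨r, rfl⟩
        exact hcs ⟨r ^ p, by rw [mul_pow]⟩
      have hn' : 0 < n' := Nat.pos_of_mul_pos_left hn
      have hlt : n' < p * n' := by
        have := hp.out.two_le
        nlinarith
      have h2 : (2 : F) ≠ 0 := by
        intro h
        have : ((2 : ℕ) : F) = 0 := by exact_mod_cast h
        rw [CharP.cast_eq_zero_iff F p] at this
        have := Nat.le_of_dvd (by norm_num) this
        omega
      have h3 : (3 : F) ≠ 0 := by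
        intro h
        have : ((3 : ℕ) : F) = 0 := by exact_mod_cast h
        rw [CharP.cast_eq_zero_iff F p] at this
        have := Nat.le_of_dvd (by norm_num) this
        omega
      have hA := AA_ne_zero b' c' hn' h2 hb0'
      have hA' := AA_ne_zero (b' ^ p) (c' ^ p) hn h2 hb0
      obtain ⟨f, -, hf⟩ := exists_red (p := p) hpm b' c' n' hA
      have hns := mordell_nonsingular _ x y (pow_ne_zero 2 hA') (two_ne_zero_ratFunc h2)
        (three_ne_zero_ratFunc h3) hxy
      obtain ⟨x', y', h', -, hxx⟩ := hf x y hns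
      have hx' : x' ≠ 0 := fun h => hx (hxx.1 h)
      obtain ⟨h5, hq, z, hz⟩ := ih n' hlt b' c' hb0' hb' hc' hc0' hcs' hn' x' y' hx'
        ((mordell_equation _ _ _).1 h'.1)
      refine ⟨Dvd.dvd.mul_left h5 p, hq, z ^ p, ?_⟩
      have h10 : (10 : F) ^ p = 10 := by
        have : (frobenius F p) (10 : F) = 10 := map_ofNat _ 10
        simpa only [frobenius_def] using this
      rw [hz, mul_pow, h10, ← pow_mul, ← pow_mul, mul_comm 3 p]
    · exact neg_coprime hp3 hpm hb0 hb hc hc0 hcs hθ hpn x y hx hxy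

end neg

end Pool.Agent.Helper23.K6
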