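import Mathlib
import Pool.Agent.Helper44.HeightDoubling
import Pool.Agent.Helper44.ExplicitSection

/-!
# Positive Mordell-Weil rank for the surfaces `K_{6n}` over finite fields
-/

namespace Pool.Agent.Helper23.K6.Pos

open Pool.Agent.Helper44

/-- The curve `E_b : y ^ 2 = x ^ 3 - b`. -/
def curveE {F : Type*} [Field F] (b : F) : WeierstrassCurve F := ⟨0, 0, 0, 0, -b⟩

/-- `(q, b, c)` is an admissible triple, `q` being the number of elements of `F`:
the characteristic is `> 3`, `b` is nonzero and not a cube, `E_b` is ordinary (its trace of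
Frobenius `q + 1 - #E_b(F)` is not divisible by the characteristic), and `c` is a nonzero
cube which is not a square. -/
structure Admissible (F : Type*) [Field F] [Fintype F] (b c : F) : Prop where
  three_lt_char : 3 < ringChar F
  b_ne_zero : b ≠ 0
  ordinary : ¬ ((ringChar F : ℤ) ∣
    (Fintype.card F : ℤ) + 1 - (Nat.card (curveE b).toAffine.Point : ℤ))
  b_not_cube : ¬ ∃ z : F, z ^ 3 = b
  c_ne_zero : c ≠ 0
  c_cube : ∃ z : F, z ^ 3 = c
  c_not_square : ¬ IsSquare c

/-- The Weierstrass form `y ^ 2 = x ^ 3 + ((t ^ (6 n) - c) / (2 b ^ 2)) ^ 2` of `K_{6n}`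
over `F(t)`. -/
noncomputable def weierstrassK {F : Type*} [Field F] (b c : F) (n : ℕ) :
    WeierstrassCurve (RatFunc F) :=
  ⟨0, 0, 0, 0, ((RatFunc.X ^ (6 * n) - RatFunc.C c) / (2 * RatFunc.C b ^ 2)) ^ 2⟩

/-- The affine `F(t)`-rational points `(x₀, x₁)` of the generic fibre of
`K_{6n} : (x₁ ^ 3 - b) t ^ (6 n) = c (x₀ ^ 3 - b)`. -/
def affinePointsK {F : Type*} [Field F] (b c : F) (n : ℕ) : Set (RatFunc F × RatFunc F) :=
  {P | (P.2 ^ 3 - RatFunc.C b) * RatFunc.X ^ (6 * n) = RatFunc.C c * (P.1 ^ 3 - RatFunc.C b)}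

lemma weierstrassK_eq {F : Type*} [Field F] (b c : F) (n : ℕ) :
    weierstrassK b c n = mordell (AA b c n ^ 2) := rfl

/-- A primitive cube root of unity, in the form of a square root of `-3`. -/
lemma exists_sqrt_neg_three {F : Type*} [Field F] [Fintype F] {b : F}
    (hb : ¬ ∃ z : F, z ^ 3 = b) : ∃ θ : F, θ ^ 2 = -3 := by
  have h1 : ¬ Function.Surjective (fun z : F => z ^ 3) := fun h => hb (h b)
  have h2 : ¬ Function.Injective (fun z : F => z ^ 3) := fun h =>
    h1 (Finite.surjective_of_injective h)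
  simp only [Function.Injective, not_forall] at h2
  obtain ⟨x, y, hxy, hne⟩ := h2
  by_cases hy : y = 0
  · subst hy
    exfalso
    apply hne
    simpa using hxy
  · refine ⟨2 * (x / y) + 1, ?_⟩
    have hω : (x / y) ^ 3 = 1 := by
      rw [div_pow, hxy, div_self (pow_ne_zero _ hy)]
    have hω1 : x / y - 1 ≠ 0 := by
      intro h
      exact hne ((div_eq_one_iff_eq hy).1 (sub_eq_zero.1 h))
    have h : (x / y - 1) * ((x / y) ^ 2 + x / y + 1) = 0 := by
      linear_combination hω
    rcases mul_eq_zero.1 h with h | h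
    · exact absurd h hω1
    · linear_combination 4 * h

lemma exists_point {F : Type*} [Field F] [Fintype F] {b c : F} (h : Admissible F b c)
    (hq : Fintype.card F % 5 ≠ 1) (hb : ∃ k : F, b = 10 * k ^ 3) {n : ℕ} (hn : 0 < n)
    (h5n : 5 ∣ n) :
    ∃ P : (mordell (AA b c n ^ 2)).toAffine.Point, 0 < ht (slopeFun (AA b c n) P) := by
  obtain ⟨k, rfl⟩ := hb
  have hk : k ≠ 0 := by
    rintro rfl
    exact h.b_ne_zero (by simp)
  have hchar := h.three_lt_char
  have h10 : (10 : F) ≠ 0 := left_ne_zero_of_mul h.b_ne_zero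
  have h2 : (2 : F) ≠ 0 := by
    intro h0
    apply h10
    have : (10 : F) = 2 * 5 := by norm_num
    rw [this, h0, zero_mul]
  have h5 : (5 : F) ≠ 0 := by
    intro h0
    apply h10
    have : (10 : F) = 2 * 5 := by norm_num
    rw [this, h0, mul_zero]
  have h3 : (3 : F) ≠ 0 := by
    intro h0
    have h3' : ((3 : ℕ) : F) = 0 := by exact_mod_cast h0
    have := (ringChar.spec F 3).1 h3'
    have := Nat.le_of_dvd (by norm_num) this
    omega
  obtain ⟨γ, rfl⟩ := h.c_cube
  obtain ⟨e₀, rfl⟩ := pow_five_surjective hq γ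
  have he₀ : e₀ ≠ 0 := by
    rintro rfl
    exact h.c_ne_zero (by simp)
  have hc : ((fun x : F => x ^ 5) e₀) ^ 3 = e₀ ^ 15 := by
    simp only
    rw [← pow_mul]
  rw [hc] at h ⊢
  have hens : ¬ IsSquare (e₀ ^ 3) := by
    rintro ⟨r, hr⟩
    apply h.c_not_square
    refine ⟨r ^ 5, ?_⟩
    have : e₀ ^ 15 = (e₀ ^ 3) ^ 5 := by ring
    rw [this, hr]
    ring
  obtain ⟨m, rfl⟩ := h5n
  have hm : 0 < m := by omega
  have hcases : Fintype.card F % 5 = 0 ∨ Fintype.card F % 5 = 4 ∨
      (Fintype.card F % 5 = 2 ∨ Fintype.card F % 5 = 3) := by omega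
  rcases hcases with h0 | h4 | h23
  · -- characteristic five is excluded
    exfalso
    apply h5
    have hcast : ((Fintype.card F : ℕ) : F) = 0 := FiniteField.cast_card_eq_zero F
    have hdvd : ringChar F ∣ Fintype.card F := (ringChar.spec F _).1 hcast
    obtain ⟨⟨p, hp, hcard⟩⟩ : Nonempty {p : ℕ // p.Prime ∧ ∃ j : ℕ, Fintype.card F = p ^ j ∧
        ringChar F = p} := by
      obtain ⟨j, hprime, hj⟩ := FiniteField.card F (ringChar F)
      exact ⟨⟨ringChar F, hprime, j, hj, rfl⟩⟩
    obtain ⟨j, hj, hrc⟩ := hcard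
    have h5d : 5 ∣ p ^ j := by rw [← hj]; omega
    have h5p : 5 ∣ p := (by norm_num : Nat.Prime 5).dvd_of_dvd_pow h5d
    have hp5 : p = 5 := ((Nat.prime_dvd_prime_iff_eq (by norm_num) hp).1 h5p).symm
    have : ((5 : ℕ) : F) = 0 := by
      rw [← hp5, ← hrc]
      exact ringChar.Nat.cast_ringChar
    exact_mod_cast this
  · obtain ⟨w, hw⟩ := (isSquare_five h2).1 h4
    have hw2 : w ^ 2 = 5 := by rw [hw]; ring
    have hns := not_square_of_card hq h2 h5 w hw2
    obtain ⟨s₁, hs₁⟩ := isSquare_mul_of_not h2 hens hns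
    exact exists_point_case1 h2 h3 h5 k e₀ w s₁ hk he₀ hw2 (by rw [hs₁]; ring) hm
  · have hns := (isSquare_five h2).2 h23
    obtain ⟨w, hw⟩ := isSquare_mul_of_not h2 hns hens
    exact exists_point_case2 h2 h3 h5 k e₀ w hk he₀ (by rw [hw]; ring) hm

section plane

variable {F : Type*} [Field F]

/-- The point of the plane cubic attached to a point of the Weierstrass form. -/
noncomputable def toPlane (b c γ θ : F) (n : ℕ) :
    (mordell (AA b c n ^ 2)).toAffine.Point → RatFunc F × RatFunc F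
  | .zero => (0, 0)
  | .some x y _ =>
    (RatFunc.C b * (AA b c n + RatFunc.C θ * y / 3) / x / RatFunc.C γ,
      RatFunc.C b * (RatFunc.C θ * y / 3 - AA b c n) / x / RatFunc.X ^ (2 * n))

lemma ht_one : ht (1 : RatFunc F) = 0 := by
  simp [ht]

lemma ht_neg_one : ht (-1 : RatFunc F) = 0 := by
  have : (-1 : RatFunc F) = RatFunc.C (-1) := by simp
  rw [ht, this, RatFunc.num_C, RatFunc.denom_C]
  simp

lemma toPlane_spec (b c γ θ : F) (n : ℕ) (h2 : (2 : F) ≠ 0) (h3 : (3 : F) ≠ 0) (hb : b ≠ 0)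
    (hn : 0 < n) (hγ : γ ^ 3 = c) (hc : c ≠ 0) (hθ : θ ^ 2 = -3)
    (Q : (mordell (AA b c n ^ 2)).toAffine.Point) (hQ : 0 < ht (slopeFun (AA b c n) Q)) :
    toPlane b c γ θ n Q ∈ affinePointsK b c n ∧
    slopeFun (AA b c n) Q = 3 / RatFunc.C θ *
      (((toPlane b c γ θ n Q).1 * RatFunc.C γ + (toPlane b c γ θ n Q).2 * RatFunc.X ^ (2 * n)) /
      ((toPlane b c γ θ n Q).1 * RatFunc.C γ - (toPlane b c γ θ n Q).2 * RatFunc.X ^ (2 * n))) := by
  have h2' := two_ne_zero_ratFunc h2
  have h3' := three_ne_zero_ratFunc h3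
  cases Q with
  | zero => simp [slopeFun, ht] at hQ
  | some x y hns =>
    have heq : y ^ 2 = x ^ 3 + AA b c n ^ 2 := (mordell_equation _ _ _).1 hns.1
    have hA := AA_ne_zero b c hn h2 hb
    have hx : x ≠ 0 := by
      rintro rfl
      have : y ^ 2 = AA b c n ^ 2 := by rw [heq]; ring
      rcases sq_eq_sq_iff_eq_or_eq_neg.1 this with h | h
      · rw [slopeFun, h, div_self hA, ht_one] at hQ
        exact lt_irrefl _ hQ
      · rw [slopeFun, h, neg_div, div_self hA, ht_neg_one] at hQ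
        exact lt_irrefl _ hQ
    have hγ0 : γ ≠ 0 := by
      rintro rfl
      exact hc (by rw [← hγ]; simp)
    have hγ' : (RatFunc.C γ : RatFunc F) ≠ 0 := (_root_.map_ne_zero _).2 hγ0
    have hθ0 : θ ≠ 0 := by
      rintro rfl
      apply h3
      linear_combination hθ
    have hθ' : (RatFunc.C θ : RatFunc F) ≠ 0 := (_root_.map_ne_zero _).2 hθ0
    have hb' : (RatFunc.C b : RatFunc F) ≠ 0 := (_root_.map_ne_zero _).2 hb
    have hX : (RatFunc.X : RatFunc F) ^ (2 * n) ≠ 0 := pow_ne_zero _ RatFunc.X_ne_zero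
    have hθ2 : (RatFunc.C θ : RatFunc F) ^ 2 = -3 := by
      rw [← map_pow, hθ, map_neg, map_ofNat]
    have hγ3 : (RatFunc.C γ : RatFunc F) ^ 3 = RatFunc.C c := by
      rw [← map_pow, hγ]
    have hAX : 2 * RatFunc.C b ^ 2 * AA b c n = RatFunc.X ^ (6 * n) - RatFunc.C c := by
      rw [AA]
      field_simp
    obtain ⟨A, hAdef⟩ : ∃ A, A = AA b c n := ⟨_, rfl⟩
    simp only [toPlane, slopeFun, affinePointsK, Set.mem_ofPred_eq]
    rw [← hAdef] at heq hA hAX ⊢
    constructor
    · have e1 : (RatFunc.X : RatFunc F) ^ (6 * n) = (RatFunc.X ^ (2 * n)) ^ 3 := by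
        rw [← pow_mul]; congr 1; ring
      rw [e1] at hAX ⊢
      rw [← hγ3] at hAX ⊢
      have e2 : (RatFunc.C b * (RatFunc.C θ * y / 3 - A) / x / RatFunc.X ^ (2 * n)) ^ 3 *
          (RatFunc.X ^ (2 * n)) ^ 3 = (RatFunc.C b * (RatFunc.C θ * y / 3 - A) / x) ^ 3 := by
        field_simp
      have e3 : RatFunc.C γ ^ 3 * (RatFunc.C b * (A + RatFunc.C θ * y / 3) / x / RatFunc.C γ) ^ 3 =
          (RatFunc.C b * (A + RatFunc.C θ * y / 3) / x) ^ 3 := by
        field_simp
      have e4 : (RatFunc.C b * (RatFunc.C θ * y / 3 - A) / x) ^ 3 -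
          (RatFunc.C b * (A + RatFunc.C θ * y / 3) / x) ^ 3 = 2 * RatFunc.C b ^ 3 * A := by
        have : (RatFunc.C b * (RatFunc.C θ * y / 3 - A) / x) ^ 3 -
          (RatFunc.C b * (A + RatFunc.C θ * y / 3) / x) ^ 3 =
          RatFunc.C b ^ 3 * (-2 * A * (A ^ 2 + RatFunc.C θ ^ 2 * y ^ 2 / 3)) / x ^ 3 := by
          field_simp
          ring
        rw [this, hθ2, heq]
        field_simp
        ring
      linear_combination e2 - e3 + e4 + RatFunc.C b * hAX
    · have e1 : RatFunc.C b * (A + RatFunc.C θ * y / 3) / x / RatFunc.C γ * RatFunc.C γ =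
        RatFunc.C b * (A + RatFunc.C θ * y / 3) / x := by field_simp
      have e2 : RatFunc.C b * (RatFunc.C θ * y / 3 - A) / x / RatFunc.X ^ (2 * n) *
        RatFunc.X ^ (2 * n) = RatFunc.C b * (RatFunc.C θ * y / 3 - A) / x := by field_simp
      rw [e1, e2]
      have e3 : RatFunc.C b * (A + RatFunc.C θ * y / 3) / x +
        RatFunc.C b * (RatFunc.C θ * y / 3 - A) / x = 2 * RatFunc.C b * RatFunc.C θ * y / (3 * x) := by
        field_simp
        ring
      have e4 : RatFunc.C b * (A + RatFunc.C θ * y / 3) / x -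
        RatFunc.C b * (RatFunc.C θ * y / 3 - A) / x = 2 * RatFunc.C b * A / x := by
        field_simp
        ring
      rw [e3, e4]
      field_simp

end plane

section example7

instance : Fact (Nat.Prime 7) := ⟨by norm_num⟩

lemma curveE_nonsingular (x y : ZMod 7) :
    (curveE (3 : ZMod 7)).toAffine.Nonsingular x y ↔ y ^ 2 = x ^ 3 - 3 := by
  constructor
  · intro h
    have := (WeierstrassCurve.Affine.equation_iff x y).1 h.1
    simp only [curveE] at this
    linear_combination this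
  · intro h
    rw [WeierstrassCurve.Affine.nonsingular_iff]
    refine ⟨?_, ?_⟩
    · rw [WeierstrassCurve.Affine.equation_iff]
      simp only [curveE]
      linear_combination h
    · simp only [curveE]
      revert x y
      decide

lemma card_points : Nat.card (curveE (3 : ZMod 7)).toAffine.Point = 3 := by
  classical
  rw [Nat.card_congr (WeierstrassCurve.Affine.nonsingularPointEquiv _)]
  have e : {xy : ZMod 7 × ZMod 7 // (curveE (3 : ZMod 7)).toAffine.Nonsingular xy.1 xy.2} ≃
      {xy : ZMod 7 × ZMod 7 // xy.2 ^ 2 = xy.1 ^ 3 - 3} :=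
    Equiv.subtypeEquivRight (fun xy => curveE_nonsingular xy.1 xy.2)
  have : Nat.card (WithZero {xy : ZMod 7 × ZMod 7 //
      (curveE (3 : ZMod 7)).toAffine.Nonsingular xy.1 xy.2}) =
      Nat.card (Option {xy : ZMod 7 × ZMod 7 // xy.2 ^ 2 = xy.1 ^ 3 - 3}) :=
    Nat.card_congr (Equiv.optionCongr e)
  rw [this, Nat.card_eq_fintype_card, Fintype.card_option]
  decide

/-- The triple `(7, 3, 6)` is admissible; it satisfies the hypotheses of `result` since
`3 = 10 * 1 ^ 3` in `F_7` and `7 % 5 = 2`. -/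
theorem admissible_seven : Admissible (ZMod 7) 3 6 where
  three_lt_char := by
    rw [ZMod.ringChar_zmod_n]; norm_num
  b_ne_zero := by decide
  ordinary := by
    rw [card_points, ZMod.card, ZMod.ringChar_zmod_n]
    decide
  b_not_cube := by decide
  c_ne_zero := by decide
  c_cube := by decide
  c_not_square := by decide

end example7

/-- **Main theorem.** Let `(q, b, c)` be admissible, suppose `q ≢ 1 mod 5` and that `b / 10` is a
cube in `F_q`. Then for every positive `n` divisible by `5` the Mordell-Weil group of `K_{6n}`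
over `F_q(t)` has positive rank: its Weierstrass form has a rational point of infinite order,
and the plane cubic has infinitely many `F_q(t)`-rational points. -/
theorem pos_result {F : Type} [Field F] [Fintype F] [DecidableEq (RatFunc F)] {b c : F}
    (h : Admissible F b c)
    (hq : Fintype.card F % 5 ≠ 1) (hb : ∃ k : F, b = 10 * k ^ 3) {n : ℕ} (hn : 0 < n)
    (h5n : 5 ∣ n) :
    (∃ P : (weierstrassK b c n).toAffine.Point, ¬ IsOfFinAddOrder P) ∧
      (affinePointsK b c n).Infinite := by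
  have hb0 := h.b_ne_zero
  have h2 : (2 : F) ≠ 0 := by
    intro h0
    have h2' : ((2 : ℕ) : F) = 0 := by exact_mod_cast h0
    have := (ringChar.spec F 2).1 h2'
    have := Nat.le_of_dvd (by norm_num) this
    have := h.three_lt_char
    omega
  have h3 : (3 : F) ≠ 0 := by
    intro h0
    have h3' : ((3 : ℕ) : F) = 0 := by exact_mod_cast h0
    have := (ringChar.spec F 3).1 h3'
    have := Nat.le_of_dvd (by norm_num) this
    have := h.three_lt_char
    omega
  obtain ⟨P, hP⟩ := exists_point h hq hb hn h5n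
  have hA := AA_ne_zero b c hn h2 hb0
  refine ⟨⟨P, infinite_order _ hA h2 h3 P hP⟩, ?_⟩
  obtain ⟨γ, hγ⟩ := h.c_cube
  obtain ⟨θ, hθ⟩ := exists_sqrt_neg_three h.b_not_cube
  have hpos : ∀ k : ℕ, 0 < ht (slopeFun (AA b c n) (2 ^ k • P)) := by
    intro k
    rw [ht_two_pow_smul _ hA h2 h3 P hP]
    positivity
  have hspec := fun k : ℕ => toPlane_spec b c γ θ n h2 h3 hb0 hn hγ h.c_ne_zero hθ
    (2 ^ k • P) (hpos k)
  have hinj : Function.Injective (fun k : ℕ => toPlane b c γ θ n (2 ^ k • P)) := by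
    intro i j hij
    simp only at hij
    have hs : slopeFun (AA b c n) (2 ^ i • P) = slopeFun (AA b c n) (2 ^ j • P) := by
      rw [(hspec i).2, (hspec j).2, hij]
    have hh := congrArg ht hs
    rw [ht_two_pow_smul _ hA h2 h3 P hP, ht_two_pow_smul _ hA h2 h3 P hP] at hh
    exact Nat.pow_right_injective (by norm_num : 2 ≤ 4) (Nat.eq_of_mul_eq_mul_right hP hh)
  refine (Set.infinite_range_of_injective hinj).mono ?_
  rintro _ ⟨k, rfl⟩
  exact (hspec k).1

end Pool.Agent.Helper23.K6.Pos
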